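import Pool.Agent.HLP.TypeDir

/-!
# The cotype 2 direction
-/

set_option autoImplicit false

open MeasureTheory
open scoped ENNReal

namespace HLP

open DLP (rho)

universe w

/-- cyclic shifts: selections for `q ≤ 1` -/
theorem sel_one {Ω : Type*} [MeasurableSpace Ω] {μ : Measure Ω} {q : ℝ} (hq : 0 < q) (hq1 : q ≤ 1)
    {κ : Type*} [Fintype κ] [DecidableEq κ] (n : ℕ) [NeZero n] (U : Fin n → κ → Ω → ℝ≥0∞)
    (hU : ∀ i l, Measurable (U i l)) :
    (avg n fun σ : κ → Fin n => rho q μ (fun t => ∑ l, U (σ l) l t)) ≤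
      (n : ℝ≥0∞)⁻¹ * rho q μ (fun t => ∑ l, ∑ i, U i l t) := by
  have hn : 1 ≤ n := Nat.one_le_iff_ne_zero.2 (NeZero.ne n)
  have hn0 : (n : ℝ≥0∞) ≠ 0 := by exact_mod_cast NeZero.ne n
  set F : (κ → Fin n) → ℝ≥0∞ := fun σ => rho q μ (fun t => ∑ l, U (σ l) l t) with hF
  have h1 : ∀ b : Fin n, (avg n fun σ => F fun l => σ l + b) = avg n F := by
    intro b
    unfold avg
    congr 1
    exact Equiv.sum_comp (Equiv.piCongrRight fun _ : κ => Equiv.addRight b) F
  have h2 : n * avg n F ≤ rho q μ (fun t => ∑ l, ∑ i, U i l t) := by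
    calc n * avg n F = ∑ _b : Fin n, avg n F := by simp
      _ = ∑ b : Fin n, avg n (fun σ => F fun l => σ l + b) :=
          Finset.sum_congr rfl fun b _ => (h1 b).symm
      _ = avg n fun σ => ∑ b : Fin n, F fun l => σ l + b := avg_sum n _ _
      _ ≤ rho q μ (fun t => ∑ l, ∑ i, U i l t) := by
          refine avg_le_const n hn fun σ => ?_
          have h3 := rho_superadd (μ := μ) hq hq1 Finset.univ
            (fun b : Fin n => fun t => ∑ l, U (σ l + b) l t)
            fun b => (Finset.measurable_fun_sum _ fun l _ => hU _ l).aemeasurable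
          refine h3.trans (le_of_eq ?_)
          congr 1
          funext t
          rw [Finset.sum_comm]
          refine Finset.sum_congr rfl fun l _ => ?_
          exact Equiv.sum_comp (Equiv.addLeft (σ l)) fun i => U i l t
  calc avg n F = (n : ℝ≥0∞)⁻¹ * (n * avg n F) := by
        rw [← mul_assoc, ENNReal.inv_mul_cancel hn0 (by simp), one_mul]
    _ ≤ _ := by gcongr

/-- the constant in the upper selection inequality -/
noncomputable def cR (R : ℝ) : ℝ≥0∞ := (sel_up.{w} R).choose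

theorem cR_ne_top (R : ℝ) : cR.{w} R ≠ ∞ := (sel_up.{w} R).choose_spec.1

namespace Sys

variable {ι : Type} {Ω : ι → Type w} [∀ k, MeasurableSpace (Ω k)]
    {μ : ∀ k, Measure (Ω k)} {q : ι → ℝ} {n : ℕ} [NeZero n] {D C : ℝ≥0∞}
    (S : Sys Ω μ q n D C)

theorem sel_low_part (hq : ∀ k, 1 / 2 ≤ q k) (s : Fin n → ℕ) (j j' : ℕ) (hj : j ≤ j')
    (hs : ∀ r, j' ≤ s r) (T : Finset ι) (hT : ∀ k ∈ T, q k ≤ 1) :
    ∑ k ∈ T, ∑ β ∈ Finset.range (2 ^ j), (avg n fun σ : Fin (2 ^ j') → Fin n =>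
      rho (q k) (μ k) (S.Y s (ext σ) j j' β k)) ≤ C * D := by
  have hn0 : (n : ℝ≥0∞) ≠ 0 := by exact_mod_cast NeZero.ne n
  have h1 : ∀ k ∈ T, ∀ β, (avg n fun σ : Fin (2 ^ j') → Fin n =>
      rho (q k) (μ k) (S.Y s (ext σ) j j' β k)) ≤
        (n : ℝ≥0∞)⁻¹ * rho (q k) (μ k) (S.W s j β k) := by
    intro k hk β
    have h := sel_one (μ := μ k) (by linarith [hq k]) (hT k hk) n (S.U s j j' β k)
      fun i l => S.meas_U s j j' β k i l
    simp_rw [S.sum_U s j j' β k hj hs, S.sel_U s j j' β k] at h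
    exact h
  calc _ ≤ ∑ k ∈ T, ∑ β ∈ Finset.range (2 ^ j),
        (n : ℝ≥0∞)⁻¹ * rho (q k) (μ k) (S.W s j β k) :=
        Finset.sum_le_sum fun k hk => Finset.sum_le_sum fun β _ => h1 k hk β
    _ = (n : ℝ≥0∞)⁻¹ * S.EE s T j := by
        unfold EE
        simp_rw [Finset.mul_sum]
    _ ≤ (n : ℝ≥0∞)⁻¹ * (C * (n * D)) := by
        gcongr
        exact S.EE_le s T j fun r => hj.trans (hs r)
    _ = ((n : ℝ≥0∞)⁻¹ * n) * (C * D) := by ring
    _ = C * D := by rw [ENNReal.inv_mul_cancel hn0 (by simp), one_mul]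

theorem G_total (s : Fin n → ℕ) (a : Fin n) (j : ℕ) (hs : ∀ r, j ≤ s r) (T : Finset ι) :
    ∑ k ∈ T, ∑ β ∈ Finset.range (2 ^ j), rho (q k) (μ k) (S.G s a j β k) ≤ C * D := by
  rw [Finset.sum_comm]
  calc _ ≤ ∑ β ∈ Finset.range (2 ^ j), (2⁻¹ : ℝ≥0∞) ^ j * (C * D) := by
        refine Finset.sum_le_sum fun β hβ => ?_
        refine (ENNReal.sum_le_tsum T).trans ?_
        refine (S.shift_le s a j β (Finset.mem_range.1 hβ) hs).trans (le_of_eq ?_)
        ring
    _ = _ := sum_half j _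

theorem esc_part (hq : ∀ k, 1 / 2 ≤ q k) (η : ℝ≥0∞) (F : Finset ι) (J : ℕ) (s : Fin n → ℕ)
    (L : Fin n → Finset ι) (hs : ∀ r, J ≤ s r) (hLL : ∀ r r', r ≠ r' → Disjoint (L r) (L r'))
    (hL : ∀ r i j, j ≤ J → ∀ t : Finset ι, (∀ k ∈ t, k ∉ F ∧ k ∉ L r) →
        ∑ k ∈ t, S.e (s r) i j k ≤ η) (j j' : ℕ) (hj : j ≤ j') (hj' : j' ≤ J) (T : Finset ι)
    (hT : ∀ k ∈ T, 1 ≤ q k ∧ k ∉ F) :
    ∑ k ∈ T, ∑ β ∈ Finset.range (2 ^ j), (avg n fun σ : Fin (2 ^ j') → Fin n =>
      rho (q k) (μ k) (S.Y s (ext σ) j j' β k)) ≤ C * D + n * η := by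
  classical
  have hn : 1 ≤ n := Nat.one_le_iff_ne_zero.2 (NeZero.ne n)
  have hn0 : (n : ℝ≥0∞) ≠ 0 := by exact_mod_cast NeZero.ne n
  have h1 : ∀ k ∈ T, ∀ β, (avg n fun σ : Fin (2 ^ j') → Fin n =>
      rho (q k) (μ k) (S.Y s (ext σ) j j' β k)) ≤
      ∑ l ∈ cells j j' β, ∑ r, (n : ℝ≥0∞)⁻¹ * ∑ i, rho (q k) (μ k) (S.M (s r) i j' l k) := by
    intro k hk β
    calc _ ≤ avg n fun σ : Fin (2 ^ j') → Fin n => ∑ l ∈ cells j j' β, ∑ r,
          rho (q k) (μ k) (S.M (s r) (ext σ l) j' l k) := by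
          refine avg_mono n fun σ => ?_
          refine (rho_subadd (hT k hk).1 (cells j j' β)
            (fun l => fun t => ∑ r, S.M (s r) (ext σ l) j' l k t)
            fun l => (Finset.measurable_fun_sum _ fun r _ => S.meas _ _ _ _ _).aemeasurable).trans ?_
          refine Finset.sum_le_sum fun l _ => ?_
          exact rho_subadd (hT k hk).1 Finset.univ (fun r => S.M (s r) (ext σ l) j' l k)
            fun r => (S.meas _ _ _ _ _).aemeasurable
      _ = ∑ l ∈ cells j j' β, ∑ r, avg n fun σ : Fin (2 ^ j') → Fin n =>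
          rho (q k) (μ k) (S.M (s r) (ext σ l) j' l k) := by
          rw [← avg_sum]
          exact Finset.sum_congr rfl fun l _ => (avg_sum n _ _).symm
      _ = _ := by
          refine Finset.sum_congr rfl fun l hl => Finset.sum_congr rfl fun r _ => ?_
          have hl2 : l < 2 ^ j' := (mem_cells.1 hl).1
          have e1 : (fun σ : Fin (2 ^ j') → Fin n =>
              rho (q k) (μ k) (S.M (s r) (ext σ l) j' l k)) =
              fun σ => (fun i => rho (q k) (μ k) (S.M (s r) i j' l k)) (σ ⟨l, hl2⟩) := by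
            funext σ
            have := ext_val σ ⟨l, hl2⟩
            simp only at this
            rw [this]
          rw [e1]
          exact avg_coord n hn (⟨l, hl2⟩ : Fin (2 ^ j'))
            (fun i => rho (q k) (μ k) (S.M (s r) i j' l k))
  have h2 : ∑ k ∈ T, ∑ β ∈ Finset.range (2 ^ j), (avg n fun σ : Fin (2 ^ j') → Fin n =>
      rho (q k) (μ k) (S.Y s (ext σ) j j' β k)) ≤
      (n : ℝ≥0∞)⁻¹ * ∑ r, ∑ i, ∑ k ∈ T, S.e (s r) i j' k := by
    calc _ ≤ ∑ k ∈ T, ∑ β ∈ Finset.range (2 ^ j), ∑ l ∈ cells j j' β, ∑ r, (n : ℝ≥0∞)⁻¹ *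
          ∑ i, rho (q k) (μ k) (S.M (s r) i j' l k) :=
          Finset.sum_le_sum fun k hk => Finset.sum_le_sum fun β _ => h1 k hk β
      _ = ∑ k ∈ T, (n : ℝ≥0∞)⁻¹ * ∑ r, ∑ i, S.e (s r) i j' k := by
          refine Finset.sum_congr rfl fun k _ => ?_
          rw [sum_cells hj, Finset.sum_comm, Finset.mul_sum]
          refine Finset.sum_congr rfl fun r _ => ?_
          rw [← Finset.mul_sum, Finset.sum_comm]
          rfl
      _ = _ := by
          rw [← Finset.mul_sum, Finset.sum_comm]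
          congr 1
          refine Finset.sum_congr rfl fun r _ => Finset.sum_comm
  refine h2.trans ?_
  have h3 : ∑ r, ∑ i, ∑ k ∈ T, S.e (s r) i j' k ≤ n * (C * D) + n * (n * η) := by
    calc ∑ r, ∑ i, ∑ k ∈ T, S.e (s r) i j' k
        ≤ ∑ r, ∑ i, (∑ k ∈ T with k ∈ L r, S.e (s r) i j' k + η) := by
          refine Finset.sum_le_sum fun r _ => Finset.sum_le_sum fun i _ => ?_
          rw [← Finset.sum_filter_add_sum_filter_not T (fun k => k ∈ L r)]
          refine add_le_add le_rfl (hL r i j' hj' _ fun k hk => ?_)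
          rw [Finset.mem_filter] at hk
          exact ⟨(hT k hk.1).2, hk.2⟩
      _ = ∑ a : Fin n, ∑ r, ∑ k ∈ T with k ∈ L r, S.e (s r) (r + a) j' k + n * (n * η) := by
          simp_rw [Finset.sum_add_distrib]
          congr 1
          · rw [Finset.sum_comm (s := (Finset.univ : Finset (Fin n)))
              (t := (Finset.univ : Finset (Fin n)))
              (f := fun a r => ∑ k ∈ T with k ∈ L r, S.e (s r) (r + a) j' k)]
            refine Finset.sum_congr rfl fun r _ => ?_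
            exact (Equiv.sum_comp (Equiv.addLeft r)
              fun i => ∑ k ∈ T with k ∈ L r, S.e (s r) i j' k).symm
          · simp
      _ ≤ ∑ _a : Fin n, C * D + n * (n * η) := by
          gcongr with a _
          calc ∑ r, ∑ k ∈ T with k ∈ L r, S.e (s r) (r + a) j' k
              ≤ ∑ r, ∑ k ∈ T with k ∈ L r, ∑ β ∈ Finset.range (2 ^ j'),
                rho (q k) (μ k) (S.G s a j' β k) := by
                refine Finset.sum_le_sum fun r _ => Finset.sum_le_sum fun k _ => ?_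
                unfold e
                refine Finset.sum_le_sum fun β _ => ?_
                refine rho_mono (by linarith [hq k]) fun t => ?_
                exact Finset.single_le_sum (f := fun r => S.M (s r) (r + a) j' β k t)
                  (fun _ _ => zero_le) (Finset.mem_univ r)
            _ = ∑ k ∈ (Finset.univ : Finset (Fin n)).biUnion (fun r => T.filter fun k => k ∈ L r),
                ∑ β ∈ Finset.range (2 ^ j'), rho (q k) (μ k) (S.G s a j' β k) := by
                rw [Finset.sum_biUnion]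
                intro r _ r' _ hr
                refine Finset.disjoint_left.2 fun k hk hk' => ?_
                exact (Finset.disjoint_left.1 (hLL r r' hr)) (Finset.mem_filter.1 hk).2
                  (Finset.mem_filter.1 hk').2
            _ ≤ C * D := S.G_total s a j' (fun r => hj'.trans (hs r)) _
      _ = _ := by simp
  calc (n : ℝ≥0∞)⁻¹ * ∑ r, ∑ i, ∑ k ∈ T, S.e (s r) i j' k
      ≤ (n : ℝ≥0∞)⁻¹ * (n * (C * D) + n * (n * η)) := by gcongr
    _ = ((n : ℝ≥0∞)⁻¹ * n) * (C * D + n * η) := by ring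
    _ = _ := by rw [ENNReal.inv_mul_cancel hn0 (by simp), one_mul]

include S in
/-- **Cotype 2 direction.** -/
theorem cotyp (hq : ∀ k, 1 / 2 ≤ q k) (R : ℝ) (hR : ∀ k, q k ≤ R) (hC1 : 1 ≤ C) (hC : C ≠ ∞)
    (hD : D ≠ ∞) : n ≤ 2 * C * (2 * C + cR.{w} R * C + 2) * D := by
  classical
  have hn : 1 ≤ n := Nat.one_le_iff_ne_zero.2 (NeZero.ne n)
  have hn0 : (n : ℝ≥0∞) ≠ 0 := by exact_mod_cast NeZero.ne n
  have hC0 : C ≠ 0 := (lt_of_lt_of_le one_pos hC1).ne'
  set η : ℝ≥0∞ := (2 * C)⁻¹ with hη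
  have hη0 : η ≠ 0 := by
    rw [hη, Ne, ENNReal.inv_eq_zero]
    finiteness
  obtain ⟨F, hF⟩ := S.levels hq hC η hη0
  set Fp := F.filter (fun k => 1 < q k) with hFp
  have hcR := (sel_up.{w} R).choose_spec.2 n hn
  -- constants
  have hsel : ∀ k : ι, ∃ K : ℝ≥0∞, K ≠ ∞ ∧ (1 < q k → ∀ (s : Fin n → ℕ) (j j' β : ℕ),
      j ≤ j' → (∀ r, j' ≤ s r) → β < 2 ^ j →
      (avg n fun σ : Fin (2 ^ j') → Fin n =>
          rho (q k) (μ k) (S.Y s (ext σ) j j' β k)) ≤
        cR.{w} R * ((n : ℝ≥0∞)⁻¹ * rho (q k) (μ k) (S.W s j β k)) +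
        K * (∑ l ∈ cells j j' β, rho (q k) (μ k) (S.W s j' l k) -
          rho (q k) (μ k) (S.W s j β k)) +
        4 * n * (C * ((2⁻¹ : ℝ≥0∞) ^ j' * (n * D)))) := by
    intro k
    by_cases hk : 1 < q k
    · obtain ⟨K, hK1, hK2⟩ := hcR (q k) hk (hR k)
      refine ⟨K, hK1, fun _ s j j' β hj hs hβ => ?_⟩
      have h := hK2 (μ k) (S.U s j j' β k) (fun i l => S.meas_U s j j' β k i l)
        (C * ((2⁻¹ : ℝ≥0∞) ^ j' * (n * D)))
      simp_rw [S.sum_U s j j' β k hj hs] at h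
      have h2 := h (by
        refine ne_top_of_le_ne_top ?_ (S.W_cell_le s j β hβ (fun r => hj.trans (hs r)) k)
        finiteness) (S.rho_U_le hq s j j' β k hs)
      rw [S.rho_sum_U hq s j j' β k] at h2
      simp_rw [S.sel_U s j j' β k] at h2
      exact h2
    · exact ⟨0, by simp, fun h => absurd h hk⟩
  choose Kk hKk1 hKk2 using hsel
  set KF : ℝ≥0∞ := ∑ k ∈ Fp, Kk k with hKF
  have hKFt : KF ≠ ∞ := by
    rw [hKF, ENNReal.sum_ne_top]
    exact fun k _ => hKk1 k
  obtain ⟨J, hJ⟩ := ENNReal.exists_nat_gt (show KF * C * n ≠ ∞ by finiteness)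
  obtain ⟨a, ha⟩ := ENNReal.exists_nat_gt
    (show 4 * n * n * C * (Fp.card : ℝ≥0∞) ≠ ∞ by finiteness)
  have hJ1 : 1 ≤ J := by
    rcases Nat.eq_zero_or_pos J with h | h
    · rw [h] at hJ; simp at hJ
    · exact h
  have ha2 : 4 * n * n * C * (Fp.card : ℝ≥0∞) ≤ (2 : ℝ≥0∞) ^ a := by
    refine ha.le.trans ?_
    have : a ≤ 2 ^ a := Nat.lt_two_pow_self.le
    exact_mod_cast this
  obtain ⟨s, L, hs, -, hLL, hL⟩ := hF (J * a)
  set E : ℕ → ℝ≥0∞ := fun m => S.EE s Fp (m * a) with hE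
  have hle : ∀ m, m ≤ J → m * a ≤ J * a := fun m hm => Nat.mul_le_mul_right a hm
  have hsplit : ∀ m, m < J → ∀ k ∈ Fp, ∀ β, rho (q k) (μ k) (S.W s (m * a) β k) ≤
      ∑ l ∈ cells (m * a) ((m + 1) * a) β, rho (q k) (μ k) (S.W s ((m + 1) * a) l k) := by
    intro m hm k hk β
    have h := rho_subadd (μ := μ k) (Finset.mem_filter.1 hk).2.le
      (cells (m * a) ((m + 1) * a) β) (fun l => S.W s ((m + 1) * a) l k)
      fun l => (S.meas_W s _ l k).aemeasurable
    refine le_trans (le_of_eq ?_) h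
    congr 1
    funext t
    exact S.split_W s _ _ β k t (Nat.mul_le_mul_right a (by omega))
      fun r => (hle (m + 1) (by omega)).trans (hs r)
  have hEinc : ∀ m, m < J → E m ≤ E (m + 1) := by
    intro m hm
    rw [hE]
    unfold EE
    refine Finset.sum_le_sum fun k hk => ?_
    rw [← sum_cells (Nat.mul_le_mul_right a (by omega : m ≤ m + 1))]
    exact Finset.sum_le_sum fun β _ => hsplit m hm k hk β
  have hEJ : E J ≤ C * (n * D) := S.EE_le s Fp _ hs
  have htele := tele_up E J hEinc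
  obtain ⟨m, hm, hmd⟩ := pigeon (fun m => E (m + 1) - E m) J hJ1 (C * (n * D))
    (le_trans le_self_add (htele.trans hEJ))
  have hj : m * a ≤ (m + 1) * a := Nat.mul_le_mul_right a (by omega)
  have hsj : ∀ r, (m + 1) * a ≤ s r := fun r => (hle (m + 1) (by omega)).trans (hs r)
  have hEmt : E m ≤ C * (n * D) := S.EE_le s Fp _ fun r => hj.trans (hsj r)
  -- the part in `Fp`
  have hpart : ∑ k ∈ Fp, ∑ β ∈ Finset.range (2 ^ (m * a)),
      (avg n fun σ : Fin (2 ^ ((m + 1) * a)) → Fin n =>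
        rho (q k) (μ k) (S.Y s (ext σ) (m * a) ((m + 1) * a) β k)) ≤
      (cR.{w} R * C + 2) * D := by
    have h1 : ∑ k ∈ Fp, ∑ β ∈ Finset.range (2 ^ (m * a)),
        (avg n fun σ : Fin (2 ^ ((m + 1) * a)) → Fin n =>
          rho (q k) (μ k) (S.Y s (ext σ) (m * a) ((m + 1) * a) β k)) ≤
        ∑ k ∈ Fp, ∑ β ∈ Finset.range (2 ^ (m * a)),
        (cR.{w} R * ((n : ℝ≥0∞)⁻¹ * rho (q k) (μ k) (S.W s (m * a) β k)) +
        KF * (∑ l ∈ cells (m * a) ((m + 1) * a) β, rho (q k) (μ k) (S.W s ((m + 1) * a) l k) -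
          rho (q k) (μ k) (S.W s (m * a) β k)) +
        4 * n * (C * ((2⁻¹ : ℝ≥0∞) ^ ((m + 1) * a) * (n * D)))) := by
      refine Finset.sum_le_sum fun k hk => Finset.sum_le_sum fun β hβ => ?_
      refine (hKk2 k (Finset.mem_filter.1 hk).2 s (m * a) ((m + 1) * a) β hj hsj
        (Finset.mem_range.1 hβ)).trans ?_
      gcongr
      exact Finset.single_le_sum (f := Kk) (fun _ _ => zero_le) hk
    refine h1.trans ?_
    simp_rw [Finset.sum_add_distrib, ← Finset.mul_sum]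
    have t1 : cR.{w} R * ((n : ℝ≥0∞)⁻¹ * ∑ k ∈ Fp, ∑ β ∈ Finset.range (2 ^ (m * a)),
        rho (q k) (μ k) (S.W s (m * a) β k)) ≤ cR.{w} R * C * D := by
      calc cR.{w} R * ((n : ℝ≥0∞)⁻¹ * ∑ k ∈ Fp, ∑ β ∈ Finset.range (2 ^ (m * a)),
            rho (q k) (μ k) (S.W s (m * a) β k)) ≤ cR.{w} R * ((n : ℝ≥0∞)⁻¹ * (C * (n * D))) := by
            gcongr
            exact hEmt
        _ = ((n : ℝ≥0∞)⁻¹ * n) * (cR.{w} R * C * D) := by ring
        _ = _ := by rw [ENNReal.inv_mul_cancel hn0 (by simp), one_mul]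
    have hJ0 : (J : ℝ≥0∞) ≠ 0 := by
      have : J ≠ 0 := by omega
      exact_mod_cast this
    have t2 : KF * ∑ k ∈ Fp, ∑ β ∈ Finset.range (2 ^ (m * a)),
        (∑ l ∈ cells (m * a) ((m + 1) * a) β, rho (q k) (μ k) (S.W s ((m + 1) * a) l k) -
          rho (q k) (μ k) (S.W s (m * a) β k)) ≤ D := by
      calc _ ≤ KF * (E (m + 1) - E m) := by
            gcongr
            refine ENNReal.le_sub_of_add_le_right ?_ ?_
            · refine ne_top_of_le_ne_top ?_ hEmt
              finiteness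
            · rw [hE]
              unfold EE
              rw [← Finset.sum_add_distrib]
              refine Finset.sum_le_sum fun k hk => ?_
              rw [← sum_cells hj, ← Finset.sum_add_distrib]
              refine Finset.sum_le_sum fun β _ => ?_
              rw [tsub_add_cancel_of_le (hsplit m hm k hk β)]
        _ ≤ KF * (C * (n * D) / J) := by gcongr
        _ = (KF * C * n) / J * D := by
            rw [ENNReal.div_eq_inv_mul, ENNReal.div_eq_inv_mul]
            ring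
        _ ≤ 1 * D := by
            gcongr
            exact ENNReal.div_le_of_le_mul (by rw [one_mul]; exact hJ.le)
        _ = D := one_mul _
    have t3 : 4 * (n : ℝ≥0∞) * (Fp.card * (C * ((2⁻¹ : ℝ≥0∞) ^ a * (n * D)))) ≤ D := by
      calc _ = (4 * n * n * C * (Fp.card : ℝ≥0∞)) * (2⁻¹ : ℝ≥0∞) ^ a * D := by ring
        _ ≤ (2 : ℝ≥0∞) ^ a * (2⁻¹ : ℝ≥0∞) ^ a * D := by gcongr
        _ = D := by
            rw [← mul_pow, ENNReal.mul_inv_cancel (by simp) (by simp), one_pow, one_mul]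
    have e1 : (2⁻¹ : ℝ≥0∞) ^ ((m + 1) * a) = (2⁻¹ : ℝ≥0∞) ^ (m * a) * (2⁻¹ : ℝ≥0∞) ^ a := by
      rw [← pow_add]
      congr 1
      ring
    calc _ ≤ cR.{w} R * C * D + D + D := by
          refine add_le_add (add_le_add t1 t2) (le_trans (le_of_eq ?_) t3)
          rw [Finset.sum_const, Finset.sum_const, Finset.card_range, nsmul_eq_mul, nsmul_eq_mul, e1]
          calc _ = 4 * (n : ℝ≥0∞) * ((Fp.card : ℝ≥0∞) * (C * ((((2 ^ (m * a) : ℕ) : ℝ≥0∞) *
                (2⁻¹ : ℝ≥0∞) ^ (m * a)) * (2⁻¹ : ℝ≥0∞) ^ a * (n * D)))) := by ring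
            _ = _ := by rw [half_pow, one_mul]
      _ = (cR.{w} R * C + 2) * D := by ring
  -- all coordinates
  have hall : ∀ T : Finset ι, ∑ k ∈ T, ∑ β ∈ Finset.range (2 ^ (m * a)),
      (avg n fun σ : Fin (2 ^ ((m + 1) * a)) → Fin n =>
        rho (q k) (μ k) (S.Y s (ext σ) (m * a) ((m + 1) * a) β k)) ≤
      (2 * C + cR.{w} R * C + 2) * D + n * η := by
    intro T
    rw [← Finset.sum_filter_add_sum_filter_not T (fun k => q k ≤ 1),
      ← Finset.sum_filter_add_sum_filter_not (T.filter fun k => ¬ q k ≤ 1) (fun k => k ∈ F)]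
    have p1 := S.sel_low_part hq s (m * a) ((m + 1) * a) hj hsj (T.filter fun k => q k ≤ 1)
      fun k hk => (Finset.mem_filter.1 hk).2
    have p2 := S.esc_part hq η F (J * a) s L hs hLL hL (m * a) ((m + 1) * a) hj
      (hle (m + 1) (by omega)) ((T.filter fun k => ¬ q k ≤ 1).filter fun k => ¬ k ∈ F) (by
        intro k hk
        rw [Finset.mem_filter, Finset.mem_filter] at hk
        exact ⟨(not_le.1 hk.1.2).le, hk.2⟩)
    have p3 : ∑ k ∈ (T.filter fun k => ¬ q k ≤ 1) with k ∈ F, ∑ β ∈ Finset.range (2 ^ (m * a)),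
        (avg n fun σ : Fin (2 ^ ((m + 1) * a)) → Fin n =>
          rho (q k) (μ k) (S.Y s (ext σ) (m * a) ((m + 1) * a) β k)) ≤
        (cR.{w} R * C + 2) * D := by
      refine le_trans (Finset.sum_le_sum_of_subset ?_) hpart
      intro k hk
      rw [Finset.mem_filter, Finset.mem_filter] at hk
      exact Finset.mem_filter.2 ⟨hk.2, not_le.1 hk.1.2⟩
    calc _ ≤ C * D + ((cR.{w} R * C + 2) * D + (C * D + n * η)) :=
          add_le_add p1 (add_le_add p3 p2)
      _ = _ := by ring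
  -- conclusion
  have hmain : (n : ℝ≥0∞) ≤ C * ((2 * C + cR.{w} R * C + 2) * D + n * η) := by
    have h1 : ∀ σ : Fin (2 ^ ((m + 1) * a)) → Fin n, (n : ℝ≥0∞) ≤
        C * ∑' k, ∑ β ∈ Finset.range (2 ^ (m * a)),
          rho (q k) (μ k) (S.Y s (ext σ) (m * a) ((m + 1) * a) β k) := by
      intro σ
      calc (n : ℝ≥0∞) = ∑ _β ∈ Finset.range (2 ^ (m * a)), (2⁻¹ : ℝ≥0∞) ^ (m * a) * n :=
            (sum_half (m * a) _).symm
        _ ≤ ∑ β ∈ Finset.range (2 ^ (m * a)), C * ∑' k,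
              rho (q k) (μ k) (S.Y s (ext σ) (m * a) ((m + 1) * a) β k) :=
            Finset.sum_le_sum fun β hβ =>
              S.sel_ge s (ext σ) (m * a) ((m + 1) * a) β (Finset.mem_range.1 hβ) hj hsj
        _ = _ := by rw [← Finset.mul_sum, tsum_cells]
    calc (n : ℝ≥0∞) = avg n fun _ : Fin (2 ^ ((m + 1) * a)) → Fin n => (n : ℝ≥0∞) :=
          (avg_const n hn _).symm
      _ ≤ avg n fun σ : Fin (2 ^ ((m + 1) * a)) → Fin n =>
          C * ∑' k, ∑ β ∈ Finset.range (2 ^ (m * a)),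
            rho (q k) (μ k) (S.Y s (ext σ) (m * a) ((m + 1) * a) β k) := avg_mono n h1
      _ = C * ∑' k, ∑ β ∈ Finset.range (2 ^ (m * a)),
          avg n fun σ : Fin (2 ^ ((m + 1) * a)) → Fin n =>
            rho (q k) (μ k) (S.Y s (ext σ) (m * a) ((m + 1) * a) β k) := by
          rw [avg_mul, ← avg_tsum]
          congr 1
          exact tsum_congr fun k => (avg_sum n _ _).symm
      _ ≤ _ := by
          gcongr
          rw [ENNReal.tsum_eq_iSup_sum]
          exact iSup_le hall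
  have hCη : C * (n * η) = n / 2 := by
    rw [hη, ENNReal.mul_inv (Or.inl (by simp)) (Or.inl (by simp)), ENNReal.div_eq_inv_mul]
    calc C * (n * (2⁻¹ * C⁻¹)) = (C * C⁻¹) * (2⁻¹ * n) := by ring
      _ = _ := by rw [ENNReal.mul_inv_cancel hC0 hC, one_mul]
  rw [mul_add, hCη] at hmain
  have h5 : (n : ℝ≥0∞) / 2 ≤ C * ((2 * C + cR.{w} R * C + 2) * D) := by
    have h6 : (n : ℝ≥0∞) / 2 + n / 2 ≤ C * ((2 * C + cR.{w} R * C + 2) * D) + n / 2 := by
      rw [ENNReal.add_halves]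
      exact hmain
    exact (ENNReal.add_le_add_iff_right (ENNReal.div_ne_top (by simp) (by simp))).1 h6
  calc (n : ℝ≥0∞) = 2 * (n / 2) := by rw [ENNReal.mul_div_cancel (by simp) (by simp)]
    _ ≤ 2 * (C * ((2 * C + cR.{w} R * C + 2) * D)) := by gcongr
    _ = _ := by ring

end Sys

end HLP
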