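import Pool.Agent.HLP.RadL
import Pool.Agent.DLP.UPP

/-!
# The energy system of an embedding
-/

set_option autoImplicit false

open MeasureTheory
open scoped ENNReal unitInterval

namespace HLP

open DLP (rho sqf qf rsum rad)

universe u v w

section
variable {𝕜 : Type v} [RCLike 𝕜] {ι : Type} {Ω : ι → Type w} [∀ i, MeasurableSpace (Ω i)]
  {p : ι → ℝ≥0∞} {μ : ∀ i, Measure (Ω i)} [∀ i, Fact (1 ≤ p i)]

/-- Rademacher averages and square functions of images are comparable. -/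
def RadQ {E : Type u} [NormedAddCommGroup E] [NormedSpace 𝕜 E]
    (T : E →L[𝕜] lp (fun i => Lp 𝕜 (p i) (μ i)) 2) (C₀ : ℝ≥0∞) : Prop :=
  ∀ (A : Type) [Fintype A] [DecidableEq A] (x : A → E),
    qf (fun a => T (x a)) ≤ C₀ * ENNReal.ofReal (rad x) ∧
      ENNReal.ofReal (rad x) ≤ C₀ * qf (fun a => T (x a))

theorem radq {E : Type u} [NormedAddCommGroup E] [NormedSpace 𝕜 E]
    (T : E →L[𝕜] lp (fun i => Lp 𝕜 (p i) (μ i)) 2) (c : ℝ) (hc : 0 < c)
    (hT : ∀ f, c * ‖f‖ ≤ ‖T f‖) (C : ℝ≥0∞) (hC1 : 1 ≤ C) (hC : C ≠ ∞)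
    (h : ∀ (A : Type) [Fintype A] [DecidableEq A] (x : A → lp (fun i => Lp 𝕜 (p i) (μ i)) 2),
      qf x ≤ C * ENNReal.ofReal (rad x) ∧ ENNReal.ofReal (rad x) ≤ C * qf x) :
    ∃ C₀ : ℝ≥0∞, 1 ≤ C₀ ∧ C₀ ≠ ∞ ∧ RadQ T C₀ := by
  have hr := (DLP.rad_proof.{u, v, max v w}).1 𝕜 E (lp (fun i => Lp 𝕜 (p i) (μ i)) 2) T c hc hT
  set m : ℝ := max 1 (max (‖T‖ ^ 2) (c ^ 2)⁻¹) with hm
  have hm1 : 1 ≤ m := le_max_left _ _
  have hmT : ‖T‖ ^ 2 ≤ m := (le_max_left _ _).trans (le_max_right _ _)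
  have hmc : (c ^ 2)⁻¹ ≤ m := (le_max_right _ _).trans (le_max_right _ _)
  refine ⟨C * ENNReal.ofReal m, ?_, ENNReal.mul_ne_top hC ENNReal.ofReal_ne_top, ?_⟩
  · have : 1 ≤ ENNReal.ofReal m := ENNReal.one_le_ofReal.2 hm1
    calc (1 : ℝ≥0∞) = 1 * 1 := (one_mul 1).symm
      _ ≤ _ := mul_le_mul' hC1 this
  · intro A _ _ x
    obtain ⟨h1, h2⟩ := hr A x
    obtain ⟨h3, h4⟩ := h A fun a => T (x a)
    refine ⟨?_, ?_⟩
    · calc qf (fun a => T (x a)) ≤ C * ENNReal.ofReal (rad fun a => T (x a)) := h3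
        _ ≤ C * ENNReal.ofReal (m * rad x) := by
          gcongr
          refine h2.trans ?_
          gcongr
          exact rad_nonneg x
        _ = _ := by rw [ENNReal.ofReal_mul (by linarith), mul_assoc]
    · calc ENNReal.ofReal (rad x) ≤ ENNReal.ofReal (m * rad fun a => T (x a)) := by
            apply ENNReal.ofReal_le_ofReal
            calc rad x = (c ^ 2)⁻¹ * (c ^ 2 * rad x) := by field_simp
              _ ≤ (c ^ 2)⁻¹ * rad fun a => T (x a) := by gcongr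
              _ ≤ _ := by
                gcongr
                exact rad_nonneg _
        _ = ENNReal.ofReal m * ENNReal.ofReal (rad fun a => T (x a)) :=
            ENNReal.ofReal_mul (by linarith)
        _ ≤ ENNReal.ofReal m * (C * qf (fun a => T (x a))) := by gcongr
        _ = _ := by ring

variable {X : Type u} [NormedAddCommGroup X] [NormedSpace 𝕜 X]
  {τ : ℕ → I → Fin 2} (hτ : ∀ m, Measurable (τ m))
  (T : DiestelL2.L2V X →L[𝕜] lp (fun i => Lp 𝕜 (p i) (μ i)) 2)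

/-- energy of one cell function -/
noncomputable def sq (s b : ℕ) (x : X) (k : ι) (t : Ω k) : ℝ≥0∞ := ‖T (cellv hτ s b x) k t‖ₑ ^ 2

theorem meas_sq (s b : ℕ) (x : X) (k : ι) : Measurable (sq hτ T s b x k) :=
  DLP.measurable_coe 𝕜 k _

section
variable {R : Type} [Fintype R] [DecidableEq R]

omit [DecidableEq R] in
theorem qf_fam (s : R → ℕ) (j β : ℕ) (ξ : R → ℕ → X) :
    qf (fun a : (Σ r : R, ↥(cells j (s r) β)) => T (cellv hτ (s a.1) a.2 (ξ a.1 a.2))) =
      ∑' k, rho ((p k).toReal / 2) (μ k)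
        (fun t => ∑ r, ∑ b ∈ cells j (s r) β, sq hτ T (s r) b (ξ r b) k t) := by
  unfold qf
  refine tsum_congr fun k => ?_
  congr 1
  funext t
  unfold sqf
  rw [Fintype.sum_sigma]
  refine Finset.sum_congr rfl fun r _ => ?_
  exact Finset.sum_coe_sort (cells j (s r) β) fun b => sq hτ T (s r) b (ξ r b) k t

variable {C₀ : ℝ≥0∞} (hTC : RadQ T C₀)

include hTC

theorem en_le (s : R → ℕ) (j β : ℕ) (hs : ∀ r, j ≤ s r) (ξ : R → ℕ → X) :
    ∑' k, rho ((p k).toReal / 2) (μ k)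
        (fun t => ∑ r, ∑ b ∈ cells j (s r) β, sq hτ T (s r) b (ξ r b) k t) ≤
      C₀ * ∫⁻ ω, (if adr τ j ω = β then
        ENNReal.ofReal (rad (fun r => ξ r (adr τ (s r) ω))) else 0) := by
  rw [← qf_fam, ← rad_fam hτ s j β hs ξ]
  exact (hTC _ _).1

theorem en_ge (s : R → ℕ) (j β : ℕ) (hs : ∀ r, j ≤ s r) (ξ : R → ℕ → X) :
    ∫⁻ ω, (if adr τ j ω = β then
        ENNReal.ofReal (rad (fun r => ξ r (adr τ (s r) ω))) else 0) ≤
      C₀ * ∑' k, rho ((p k).toReal / 2) (μ k)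
        (fun t => ∑ r, ∑ b ∈ cells j (s r) β, sq hτ T (s r) b (ξ r b) k t) := by
  rw [← qf_fam, ← rad_fam hτ s j β hs ξ]
  exact (hTC _ _).2

end

/-- cells of a coarser level, weighted -/
theorem sum_sel (s j j' β : ℕ) (hj : j ≤ j') (hs : j' ≤ s) (f : ℕ → ℕ → ℝ≥0∞) :
    ∑ l ∈ cells j j' β, ∑ b ∈ cells j' s l, f l b =
      ∑ b ∈ cells j s β, f (b / 2 ^ (s - j')) b := by
  rw [← sum_cells_cells hj hs β fun b => f (b / 2 ^ (s - j')) b]
  refine Finset.sum_congr rfl fun l _ => Finset.sum_congr rfl fun b hb => ?_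
  rw [(mem_cells.1 hb).2]

include hτ in
theorem sys (hpt : ∀ k, p k ≠ ∞) {n : ℕ} [NeZero n] (x : Fin n → X) (hx : ∀ i, ‖x i‖ = 1) {C₀ : ℝ≥0∞}
    (hC1 : 1 ≤ C₀) (hTC : RadQ T C₀)
    (hp : ∀ (J : Finset ℕ) (g : ℕ → Fin 2 → ℝ≥0∞),
      ∫⁻ ω, ∏ m ∈ J, g m (τ m ω) = ∏ m ∈ J, ((∑ l, g m l) / (2 : ℕ))) :
    Nonempty (Sys Ω μ (fun k => (p k).toReal / 2) n (ENNReal.ofReal (rad x)) (C₀ ^ 3)) := by
  have hC3 : C₀ ≤ C₀ ^ 3 := le_self_pow₀ hC1 (by norm_num)
  have hvol := adr_vol hτ hp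
  have hsh : ∀ a : Fin n, rad (fun r => x (r + a)) = rad x := fun a =>
    rad_reindex x (Equiv.addRight a)
  have hsel : ∀ y : X, ‖y‖ = 1 → ENNReal.ofReal (rad (fun _ : Fin n => y)) = n := by
    intro y hy
    rw [rad_const 𝕜, hy]
    simp
  have hfull : ENNReal.ofReal (rad (fun a : Fin n × Fin n => x a.2)) ≤
      C₀ ^ 2 * (n * ENNReal.ofReal (rad x)) := by
    have h1 := en_ge hτ T hTC (fun _ : Fin n × Fin n => 0) 0 0 (fun _ => le_rfl)
      (fun a _ => x a.2)
    have h2 := en_le hτ T hTC (fun _ : Fin n => 0) 0 0 (fun _ => le_rfl)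
      (fun a _ => x a)
    rw [hvol 0 0 (by norm_num)] at h1 h2
    rw [pow_zero, one_mul] at h1 h2
    refine h1.trans ?_
    have h3 : ∀ k, rho ((p k).toReal / 2) (μ k)
        (fun t => ∑ r : Fin n × Fin n, ∑ b ∈ cells 0 0 0, sq hτ T 0 b (x r.2) k t) =
        n * rho ((p k).toReal / 2) (μ k)
          (fun t => ∑ r : Fin n, ∑ b ∈ cells 0 0 0, sq hτ T 0 b (x r) k t) := by
      intro k
      have hpk : 0 < (p k).toReal / 2 := by
        have h4 : (1 : ℝ≥0∞) ≤ p k := Fact.out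
        have h5 := ENNReal.toReal_mono (hpt k) h4
        rw [ENNReal.toReal_one] at h5
        linarith
      rw [← rho_mul hpk _ (by simp)]
      congr 1
      funext t
      rw [Fintype.sum_prod_type]
      simp only [Finset.sum_const, Finset.card_univ, Fintype.card_fin, nsmul_eq_mul]
    simp only [h3]
    rw [ENNReal.tsum_mul_left]
    calc C₀ * (n * _) ≤ C₀ * (n * (C₀ * ENNReal.ofReal (rad x))) := by gcongr
      _ = _ := by ring
  refine ⟨{
    M := fun s i j β k t => ∑ b ∈ cells j s β, sq hτ T s b (x i) k t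
    meas := fun s i j β k => Finset.measurable_sum _ fun b _ => meas_sq hτ T s b (x i) k
    split := fun s i j j' β k t hj hs => (sum_cells_cells hj hs β _).symm
    one_le := ?_
    shift_le := ?_
    shift_ge := ?_
    full_le := ?_
    sel_le := ?_
    sel_ge := ?_ }⟩
  · intro s i j β hβ hj
    have h := en_le hτ T hTC (fun _ : Unit => s) j β (fun _ => hj) (fun _ _ => x i)
    rw [hvol j β hβ] at h
    simp only [Finset.univ_unique, Finset.sum_singleton] at h
    refine h.trans ?_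
    rw [rad_const 𝕜, hx]
    simp only [Fintype.card_unit, Nat.cast_one, one_pow, mul_one, ENNReal.ofReal_one]
    gcongr
  · intro s a j β hβ hs
    have h := en_le hτ T hTC s j β hs (fun r _ => x (r + a))
    rw [hvol j β hβ, hsh] at h
    exact h.trans (by gcongr)
  · intro s a j β hβ hs
    have h := en_ge hτ T hTC s j β hs (fun r _ => x (r + a))
    rw [hvol j β hβ, hsh] at h
    exact h.trans (by gcongr)
  · intro s j β hβ hs
    have h := en_le hτ T hTC (fun a : Fin n × Fin n => s a.1) j β (fun a => hs a.1)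
      (fun a _ => x a.2)
    rw [hvol j β hβ] at h
    simp only [Fintype.sum_prod_type] at h
    refine h.trans ?_
    calc C₀ * ((2⁻¹ : ℝ≥0∞) ^ j * ENNReal.ofReal (rad (fun a : Fin n × Fin n => x a.2)))
        ≤ C₀ * ((2⁻¹ : ℝ≥0∞) ^ j * (C₀ ^ 2 * (n * ENNReal.ofReal (rad x)))) := by gcongr
      _ = _ := by ring
  · intro s θ j j' β hβ hj hs
    have h := en_le hτ T hTC s j β (fun r => hj.trans (hs r))
      (fun r b => x (θ (b / 2 ^ (s r - j'))))
    have h1 : ∀ ω, rad (fun r => x (θ (adr τ (s r) ω / 2 ^ (s r - j')))) =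
        rad (fun _ : Fin n => x (θ (adr τ j' ω))) := by
      intro ω
      congr 1
      funext r
      rw [adr_div j' (s r) (hs r)]
    simp only [h1, hsel _ (hx _)] at h
    rw [hvol j β hβ] at h
    have h2 : ∀ k, (fun t => ∑ l ∈ cells j j' β, ∑ r, ∑ b ∈ cells j' (s r) l,
        sq hτ T (s r) b (x (θ l)) k t) = fun t => ∑ r, ∑ b ∈ cells j (s r) β,
          sq hτ T (s r) b (x (θ (b / 2 ^ (s r - j')))) k t := by
      intro k
      funext t
      rw [Finset.sum_comm]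
      refine Finset.sum_congr rfl fun r _ => ?_
      exact sum_sel (s r) j j' β hj (hs r) fun l b => sq hτ T (s r) b (x (θ l)) k t
    simp only [h2]
    exact h.trans (by gcongr)
  · intro s θ j j' β hβ hj hs
    have h := en_ge hτ T hTC s j β (fun r => hj.trans (hs r))
      (fun r b => x (θ (b / 2 ^ (s r - j'))))
    have h1 : ∀ ω, rad (fun r => x (θ (adr τ (s r) ω / 2 ^ (s r - j')))) =
        rad (fun _ : Fin n => x (θ (adr τ j' ω))) := by
      intro ω
      congr 1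
      funext r
      rw [adr_div j' (s r) (hs r)]
    simp only [h1, hsel _ (hx _)] at h
    rw [hvol j β hβ] at h
    have h2 : ∀ k, (fun t => ∑ l ∈ cells j j' β, ∑ r, ∑ b ∈ cells j' (s r) l,
        sq hτ T (s r) b (x (θ l)) k t) = fun t => ∑ r, ∑ b ∈ cells j (s r) β,
          sq hτ T (s r) b (x (θ (b / 2 ^ (s r - j')))) k t := by
      intro k
      funext t
      rw [Finset.sum_comm]
      refine Finset.sum_congr rfl fun r _ => ?_
      exact sum_sel (s r) j j' β hj (hs r) fun l b => sq hτ T (s r) b (x (θ l)) k t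
    simp only [h2]
    exact h.trans (by gcongr)

end

end HLP
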