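import Mathlib

/-!
# Levels and blocks: the escaping part
-/

set_option autoImplicit false

open Filter
open scoped ENNReal Topology

namespace HLP

theorem exists_tail {ι : Type*} (f : ι → ℝ≥0∞) (hf : ∑' k, f k ≠ ∞) (η : ℝ≥0∞) (hη : η ≠ 0) :
    ∃ F : Finset ι, ∀ t : Finset ι, Disjoint t F → ∑ k ∈ t, f k ≤ η := by
  classical
  by_cases hz : ∑' k, f k = 0
  · refine ⟨∅, fun t _ => ?_⟩
    exact ((ENNReal.sum_le_tsum t).trans hz.le).trans zero_le
  have h1 : ∑' k, f k - η < ∑' k, f k := ENNReal.sub_lt_self hf hz hη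
  rw [ENNReal.tsum_eq_iSup_sum] at h1
  obtain ⟨F, hF⟩ := lt_iSup_iff.1 h1
  rw [← ENNReal.tsum_eq_iSup_sum] at hF
  refine ⟨F, fun t ht => ?_⟩
  have h2 : ∑ k ∈ t, f k + ∑ k ∈ F, f k ≤ ∑' k, f k := by
    rw [← Finset.sum_union ht]
    exact ENNReal.sum_le_tsum _
  have h3 : ∑' k, f k ≤ ∑ k ∈ F, f k + η := tsub_le_iff_right.1 hF.le
  have h4 : ∑ k ∈ F, f k ≠ ∞ := ne_top_of_le_ne_top hf (ENNReal.sum_le_tsum F)
  have h5 : ∑ k ∈ F, f k + ∑ k ∈ t, f k ≤ ∑ k ∈ F, f k + η := by
    rw [add_comm]; exact h2.trans h3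
  exact (ENNReal.add_le_add_iff_left h4).1 h5

theorem tsum_ite_le {ι : Type*} (f : ι → ℝ≥0∞) (p : ι → Prop) [DecidablePred p] (η : ℝ≥0∞)
    (h : ∀ t : Finset ι, (∀ k ∈ t, ¬ p k) → ∑ k ∈ t, f k ≤ η) :
    ∑' k, (if p k then 0 else f k) ≤ η := by
  classical
  rw [ENNReal.tsum_eq_iSup_sum]
  refine iSup_le fun t => ?_
  have h1 := h (t.filter fun k => ¬ p k) (fun k hk => (Finset.mem_filter.1 hk).2)
  refine le_trans (le_of_eq ?_) h1
  rw [Finset.sum_filter]
  refine Finset.sum_congr rfl fun k _ => ?_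
  by_cases hk : p k <;> simp [hk]

theorem esc {ι : Type*} (n : ℕ) (e : ℕ → Fin n → ℕ → ι → ℝ≥0∞) (C : ℝ≥0∞) (hC : C ≠ ∞)
    (hsum : ∀ s i j, j ≤ s → ∑' k, e s i j k ≤ C) (up : ι → Prop)
    (hup : ∀ k, up k → ∀ s i j j', j ≤ j' → j' ≤ s → e s i j k ≤ e s i j' k)
    (hdown : ∀ k, ¬ up k → ∀ s i j j', j ≤ j' → j' ≤ s → e s i j' k ≤ e s i j k)
    (η : ℝ≥0∞) (hη : η ≠ 0) :
    ∃ F : Finset ι, ∀ J : ℕ, ∃ (s : ℕ → ℕ) (L : ℕ → Finset ι), (∀ r, J ≤ s r) ∧
      (∀ r, Disjoint (L r) F) ∧ (∀ r r', r ≠ r' → Disjoint (L r) (L r')) ∧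
      ∀ r i j, j ≤ J → ∀ t : Finset ι, (∀ k ∈ t, k ∉ F ∧ k ∉ L r) →
        ∑ k ∈ t, e (s r) i j k ≤ η := by
  classical
  have hlim : ∀ i j k, ∃ β : ℝ≥0∞, Tendsto (fun s => e s i j k) (hyperfilter ℕ) (𝓝 β) := by
    intro i j k
    obtain ⟨β, -, hβ⟩ := isCompact_univ.ultrafilter_le_nhds
      ((hyperfilter ℕ).map (fun s => e s i j k)) (by simp)
    exact ⟨β, hβ⟩
  choose β hβ using hlim
  have hev : ∀ j : ℕ, ∀ᶠ s in (hyperfilter ℕ : Filter ℕ), j ≤ s := fun j =>
    (Nat.hyperfilter_le_atTop) (eventually_ge_atTop j)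
  have hfin : ∀ i j (t : Finset ι), Tendsto (fun s => ∑ k ∈ t, e s i j k) (hyperfilter ℕ)
      (𝓝 (∑ k ∈ t, β i j k)) := fun i j t => tendsto_finsetSum t fun k _ => hβ i j k
  have hβsum : ∀ i j (t : Finset ι), ∑ k ∈ t, β i j k ≤ C := by
    intro i j t
    refine le_of_tendsto (hfin i j t) ?_
    filter_upwards [hev j] with s hs
    exact (ENNReal.sum_le_tsum t).trans (hsum s i j hs)
  have hβup : ∀ i k, up k → Monotone fun j => β i j k := by
    intro i k hk j j' hjj
    refine le_of_tendsto_of_tendsto (hβ i j k) (hβ i j' k) ?_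
    filter_upwards [hev j'] with s hs
    exact hup k hk s i j j' hjj hs
  have hβdown : ∀ i k, ¬ up k → ∀ j, β i j k ≤ β i 0 k := by
    intro i k hk j
    refine le_of_tendsto_of_tendsto (hβ i j k) (hβ i 0 k) ?_
    filter_upwards [hev j] with s hs
    exact hdown k hk s i 0 j (Nat.zero_le _) hs
  set b : Fin n → ι → ℝ≥0∞ := fun i k => ⨆ j, β i j k with hb
  have hβb : ∀ i j k, β i j k ≤ b i k := fun i j k => le_iSup (fun j => β i j k) j
  have hbsum : ∀ i (t : Finset ι), ∑ k ∈ t, b i k ≤ C + C := by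
    intro i t
    rw [← Finset.sum_filter_add_sum_filter_not t up]
    refine add_le_add ?_ ?_
    · have h1 : ∑ k ∈ t with up k, b i k = ⨆ j, ∑ k ∈ t with up k, β i j k := by
        have h2 : ∀ k ∈ t.filter up, b i k = ⨆ j, β i j k := fun k _ => rfl
        have h3 : ∑ k ∈ t with up k, b i k = ∑ k ∈ t with up k, ⨆ j, (if up k then β i j k else 0) :=
          Finset.sum_congr rfl fun k hk => by
            simp only [(Finset.mem_filter.1 hk).2, if_true]
            rfl
        rw [h3, ENNReal.finsetSum_iSup_of_monotone]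
        · refine iSup_congr fun j => Finset.sum_congr rfl fun k hk => ?_
          simp only [(Finset.mem_filter.1 hk).2, if_true]
        · intro k j j' hjj
          by_cases hk : up k
          · simp only [hk, if_true]
            exact hβup i k hk hjj
          · simp [hk]
      rw [h1]
      exact iSup_le fun j => hβsum i j _
    · refine le_trans (Finset.sum_le_sum fun k hk => ?_) (hβsum i 0 (t.filter fun k => ¬ up k))
      exact iSup_le fun j => hβdown i k (Finset.mem_filter.1 hk).2 j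
  set g : ι → ℝ≥0∞ := fun k => ∑ i, b i k with hg
  have hgt : ∑' k, g k ≠ ∞ := by
    refine ne_top_of_le_ne_top (b := ∑ _i : Fin n, (C + C)) ?_ ?_
    · rw [Finset.sum_const]
      simp only [Finset.card_univ, Fintype.card_fin, nsmul_eq_mul]
      finiteness
    · rw [ENNReal.tsum_eq_iSup_sum]
      refine iSup_le fun t => ?_
      rw [hg, Finset.sum_comm]
      exact Finset.sum_le_sum fun i _ => hbsum i t
  have hη4 : η / 4 ≠ 0 := by
    rw [Ne, ENNReal.div_eq_zero_iff]
    push Not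
    exact ⟨hη, by simp⟩
  -- we may assume η finite
  by_cases hηt : η = ∞
  · refine ⟨∅, fun J => ⟨fun _ => J, fun _ => ∅, fun _ => le_rfl, by simp, by simp, ?_⟩⟩
    intro r i j _ t _
    rw [hηt]
    exact le_top
  obtain ⟨F, hF⟩ := exists_tail g hgt (η / 4) hη4
  refine ⟨F, fun J => ?_⟩
  -- one step
  have step : ∀ K : Finset ι, ∃ (s : ℕ) (K' : Finset ι), J ≤ s ∧ K ⊆ K' ∧
      ∀ i j, j ≤ J → (∑ k ∈ K \ F, e s i j k ≤ η / 2) ∧
        ∀ t : Finset ι, Disjoint t K' → ∑ k ∈ t, e s i j k ≤ η / 2 := by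
    intro K
    have h1 : ∀ᶠ s in (hyperfilter ℕ : Filter ℕ), ∀ i, ∀ j ∈ Finset.range (J + 1),
        ∑ k ∈ K \ F, e s i j k ≤ η / 2 := by
      rw [Filter.eventually_all]
      intro i
      rw [Filter.eventually_all_finset]
      intro j _
      have h2 : ∑ k ∈ K \ F, β i j k < η / 2 := by
        have h3 : ∑ k ∈ K \ F, β i j k ≤ η / 4 := by
          refine le_trans (Finset.sum_le_sum fun k _ => ?_) (hF (K \ F) Finset.sdiff_disjoint)
          exact (hβb i j k).trans
            (Finset.single_le_sum (f := fun i => b i k) (fun _ _ => zero_le) (Finset.mem_univ i))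
        refine h3.trans_lt ?_
        exact ENNReal.div_lt_div_left hη hηt (by norm_num)
      filter_upwards [(hfin i j (K \ F)).eventually (gt_mem_nhds h2)] with s hs
      exact hs.le
    obtain ⟨s, hs1, hs2⟩ := ((hev J).and h1).exists
    have h4 : ∀ i (j : ℕ), ∃ G : Finset ι, j ≤ J → ∀ t : Finset ι, Disjoint t G →
        ∑ k ∈ t, e s i j k ≤ η / 2 := by
      intro i j
      by_cases hj : j ≤ J
      · obtain ⟨G, hG⟩ := exists_tail (e s i j)
          (ne_top_of_le_ne_top hC (hsum s i j (hj.trans hs1))) (η / 2) (by simpa using hη)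
        exact ⟨G, fun _ => hG⟩
      · exact ⟨∅, fun h => absurd h hj⟩
    choose G hG using h4
    refine ⟨s, K ∪ (Finset.univ.biUnion fun i => (Finset.range (J + 1)).biUnion fun j => G i j),
      hs1, Finset.subset_union_left, fun i j hj => ⟨hs2 i j (by simp; omega), fun t ht => ?_⟩⟩
    refine hG i j hj t ?_
    rw [Finset.disjoint_union_right] at ht
    refine Finset.disjoint_of_subset_right ?_ ht.2
    intro k hk
    simp only [Finset.mem_biUnion, Finset.mem_univ, true_and, Finset.mem_range]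
    exact ⟨i, j, by omega, hk⟩
  choose sf Kf h1 h2 h3 using step
  set K : ℕ → Finset ι := fun r => Kf^[r] F with hK
  have hK0 : K 0 = F := rfl
  have hKs : ∀ r, K (r + 1) = Kf (K r) := fun r => Function.iterate_succ_apply' Kf r F
  have hmono : Monotone K := monotone_nat_of_le_succ fun r => by
    rw [hKs]
    exact h2 (K r)
  refine ⟨fun r => sf (K r), fun r => K (r + 1) \ K r, fun r => h1 _, fun r => ?_, ?_, ?_⟩
  · refine Finset.disjoint_left.2 fun k hk hk' => ?_
    exact (Finset.mem_sdiff.1 hk).2 (hmono (Nat.zero_le r) hk')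
  · have key : ∀ r r', r < r' → Disjoint (K (r + 1) \ K r) (K (r' + 1) \ K r') := by
      intro r r' hr
      refine Finset.disjoint_left.2 fun k hk hk' => ?_
      exact (Finset.mem_sdiff.1 hk').2 (hmono (by omega : r + 1 ≤ r') (Finset.mem_sdiff.1 hk).1)
    intro r r' hr
    rcases lt_or_gt_of_ne hr with h | h
    · exact key r r' h
    · exact (key r' r h).symm
  · intro r i j hj t ht
    obtain ⟨h5, h6⟩ := h3 (K r) i j hj
    rw [← Finset.sum_filter_add_sum_filter_not t (fun k => k ∈ K r)]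
    have e1 : ∑ k ∈ t with k ∈ K r, e (sf (K r)) i j k ≤ η / 2 := by
      refine le_trans (Finset.sum_le_sum_of_subset ?_) h5
      intro k hk
      rw [Finset.mem_filter] at hk
      exact Finset.mem_sdiff.2 ⟨hk.2, (ht k hk.1).1⟩
    have e2 : ∑ k ∈ t with ¬ k ∈ K r, e (sf (K r)) i j k ≤ η / 2 := by
      refine h6 _ ?_
      refine Finset.disjoint_left.2 fun k hk hk' => ?_
      rw [Finset.mem_filter] at hk
      exact (ht k hk.1).2 (Finset.mem_sdiff.2 ⟨by rw [hKs]; exact hk', hk.2⟩)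
    calc _ ≤ η / 2 + η / 2 := add_le_add e1 e2
      _ = η := ENNReal.add_halves η

end HLP
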