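import Pool.Agent.HLP.Rho
import Pool.Agent.DLP.KHI
import Pool.Agent.DLP.ORT
import Pool.Agent.DLP.SQL
import Pool.Agent.DLP.SQZ

/-!
# Rademacher averages and square functions for all exponents `1 ≤ p ≤ P`
-/

set_option autoImplicit false

open MeasureTheory
open scoped ENNReal

namespace HLP

open DLP (rho rad rsum sqf qf)

universe u v w

theorem pt_quad {q a z : ℝ} (hq : 0 < q) (hq1 : q ≤ 1) (ha : 0 ≤ a) (ha1 : a ≤ 1) (hz : 0 ≤ z) :
    a * z - a ^ 2 / 4 * z ^ 2 ≤ z ^ q := by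
  rcases le_total z 1 with h | h
  · have h1 : z ≤ z ^ q := by
      rcases hz.eq_or_lt with h3 | h3
      · rw [← h3, Real.zero_rpow hq.ne']
      · calc z = z ^ (1 : ℝ) := (Real.rpow_one z).symm
          _ ≤ z ^ q := Real.rpow_le_rpow_of_exponent_ge h3 h hq1
    have h2 : a * z ≤ z := mul_le_of_le_one_left hz ha1
    nlinarith [sq_nonneg (a * z)]
  · have h1 : 1 ≤ z ^ q := Real.one_le_rpow h hq.le
    nlinarith [sq_nonneg (a * z / 2 - 1)]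

/-- Khintchine's inequality, lower half, exponents `0 < p ≤ 2`. -/
theorem khi_low : ∃ K : ℝ, 1 ≤ K ∧ ∀ (𝕜 : Type v) [RCLike 𝕜] (p : ℝ), 0 < p → p ≤ 2 →
    ∀ (A : Type) [Fintype A] [DecidableEq A] (x : A → 𝕜),
      (∑ a, ‖x a‖ ^ 2) ^ (p / 2) ≤
        K * ((∑ ε : A → Bool, ‖rsum x ε‖ ^ p) / 2 ^ (Fintype.card A)) := by
  obtain ⟨K, hK1, hK⟩ := DLP.khi.{v} 4 (by norm_num)
  refine ⟨max K 2, le_trans (by norm_num) (le_max_right _ _), ?_⟩
  intro 𝕜 _ p hp0 hp2 A _ _ x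
  set K' : ℝ := max K 2 with hK'
  have hK'2 : 2 ≤ K' := le_max_right _ _
  have hK'0 : 0 < K' := by linarith
  set N : ℝ := 2 ^ (Fintype.card A) with hN
  have hN0 : 0 < N := by positivity
  set m : ℝ := ∑ a, ‖x a‖ ^ 2 with hm
  have hm0 : 0 ≤ m := Finset.sum_nonneg fun a _ => by positivity
  rcases hm0.eq_or_lt with h0 | hmpos
  · rw [← h0, Real.zero_rpow (by positivity)]
    have : 0 ≤ ∑ ε : A → Bool, ‖rsum x ε‖ ^ p :=
      Finset.sum_nonneg fun ε _ => Real.rpow_nonneg (norm_nonneg _) _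
    positivity
  have h2 : (∑ ε : A → Bool, ‖rsum x ε‖ ^ 2) / N = m := DLP.ort.{v} 𝕜 A x
  have h4 : (∑ ε : A → Bool, (‖rsum x ε‖ ^ 2) ^ 2) / N ≤ K' * m ^ 2 := by
    have h5 := hK 𝕜 4 (by norm_num) le_rfl A x
    rw [show (4 : ℝ) / 2 = ((2 : ℕ) : ℝ) by norm_num, Real.rpow_natCast] at h5
    have e1 : ∀ ε : A → Bool, ‖rsum x ε‖ ^ (4 : ℝ) = (‖rsum x ε‖ ^ 2) ^ 2 := by
      intro ε
      rw [show (4 : ℝ) = ((4 : ℕ) : ℝ) by norm_num, Real.rpow_natCast]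
      ring
    simp only [e1] at h5
    refine h5.trans ?_
    gcongr
    exact le_max_left _ _
  have h6 : ∀ ε : A → Bool, 2 / K' * (‖rsum x ε‖ ^ 2 / m) -
      (2 / K') ^ 2 / 4 * (‖rsum x ε‖ ^ 2 / m) ^ 2 ≤ ‖rsum x ε‖ ^ p / m ^ (p / 2) := by
    intro ε
    have h7 := pt_quad (q := p / 2) (a := 2 / K') (z := ‖rsum x ε‖ ^ 2 / m) (by positivity)
      (by linarith) (by positivity) (by rw [div_le_one hK'0]; exact hK'2) (by positivity)
    refine h7.trans (le_of_eq ?_)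
    rw [Real.div_rpow (by positivity) hm0]
    congr 1
    rw [← Real.rpow_natCast ‖rsum x ε‖ 2, ← Real.rpow_mul (norm_nonneg _)]
    congr 1
    push_cast
    ring
  have h8 := Finset.sum_le_sum (s := Finset.univ) fun ε _ => h6 ε
  rw [Finset.sum_sub_distrib, ← Finset.mul_sum, ← Finset.mul_sum, ← Finset.sum_div,
    ← Finset.sum_div] at h8
  simp only [div_pow] at h8
  rw [← Finset.sum_div] at h8
  have e2 : ∑ ε : A → Bool, ‖rsum x ε‖ ^ 2 = m * N := by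
    rw [← h2]
    field_simp
  have e4 : ∑ ε : A → Bool, (‖rsum x ε‖ ^ 2) ^ 2 ≤ K' * m ^ 2 * N := by
    rwa [div_le_iff₀ hN0] at h4
  rw [e2] at h8
  have hmp : 0 < m ^ (p / 2) := Real.rpow_pos_of_pos hmpos _
  have h9 : N / K' ≤ (∑ ε : A → Bool, ‖rsum x ε‖ ^ p) / m ^ (p / 2) := by
    refine le_trans ?_ h8
    have h10 : 2 ^ 2 / K' ^ 2 / 4 * ((∑ ε : A → Bool, (‖rsum x ε‖ ^ 2) ^ 2) / m ^ 2) ≤
        2 ^ 2 / K' ^ 2 / 4 * (K' * N) := by
      gcongr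
      rw [div_le_iff₀ (by positivity)]
      calc _ ≤ K' * m ^ 2 * N := e4
        _ = _ := by ring
    have e5 : 2 / K' * (m * N / m) = 2 * N / K' := by
      field_simp
    have e6 : 2 ^ 2 / K' ^ 2 / 4 * (K' * N) = N / K' := by
      field_simp
      ring
    rw [e5]
    rw [e6] at h10
    have e7 : 2 * N / K' = N / K' + N / K' := by ring
    linarith
  rw [div_le_div_iff₀ hK'0 hmp] at h9
  rw [← mul_div_assoc, le_div_iff₀ hN0]
  calc m ^ (p / 2) * N = N * m ^ (p / 2) := mul_comm _ _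
    _ ≤ (∑ ε : A → Bool, ‖rsum x ε‖ ^ p) * K' := h9
    _ = _ := mul_comm _ _

open DLP.SQL_ in
/-- Rademacher averages and the square function in one `L_p`-space, `1 ≤ p ≤ 2`. -/
theorem sql_low : ∃ C : ℝ≥0∞, 1 ≤ C ∧ C ≠ ∞ ∧
    ∀ (𝕜 : Type v) [RCLike 𝕜] (Ω : Type w) [MeasurableSpace Ω] (μ : Measure Ω) (p : ℝ≥0∞)
      [Fact (1 ≤ p)], p ≤ 2 →
      ∀ (A : Type) [Fintype A] [DecidableEq A] (x : A → Lp 𝕜 p μ),
        rho (p.toReal / 2) μ (sqf x) ≤ C * ENNReal.ofReal (rad x) ∧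
        ENNReal.ofReal (rad x) ≤ rho (p.toReal / 2) μ (sqf x) := by
  obtain ⟨K, hK1, hK⟩ := khi_low.{v}
  refine ⟨ENNReal.ofReal K ^ (2 : ℝ), ENNReal.one_le_rpow (by
    rw [ENNReal.one_le_ofReal]; exact hK1) (by norm_num),
    ENNReal.rpow_ne_top_of_nonneg (by norm_num) ENNReal.ofReal_ne_top, ?_⟩
  intro 𝕜 _ Ω _ μ p hpF hp2 A _ _ x
  have hp1 : 1 ≤ p := hpF.out
  have hpt : p ≠ ∞ := ne_top_of_le_ne_top (by simp) hp2
  have hp0 : p ≠ 0 := (lt_of_lt_of_le one_pos hp1).ne'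
  set r : ℝ := p.toReal with hr
  have hr2 : r ≤ 2 := by
    have := ENNReal.toReal_mono (by simp) hp2
    simpa using this
  have hr1 : 1 ≤ r := by
    have := ENNReal.toReal_mono hpt hp1
    simpa using this
  set q : ℝ := r / 2 with hq
  have hq1 : q ≤ 1 := by rw [hq]; linarith
  have hqh : 1 / 2 ≤ q := by rw [hq]; linarith
  have hq0 : 0 < q := by linarith
  have hqi : 0 < 1 / q := by positivity
  set c : ℝ≥0∞ := (2 ^ (Fintype.card A) : ℝ≥0∞)⁻¹ with hc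
  have hct : c ≠ ∞ := by
    rw [hc]
    exact ENNReal.inv_ne_top.2 (by positivity)
  -- the Rademacher average
  have hrad : ENNReal.ofReal (rad x) = ∑ ε : A → Bool, c * ‖(rsum x ε : Lp 𝕜 p μ)‖ₑ ^ 2 := by
    unfold rad
    rw [ofReal_mean _ fun ε => by positivity]
    simp only [enorm_sq_eq, hc]
  -- almost everywhere identity
  have hae : ∀ᵐ t ∂μ, ∀ ε : A → Bool, (rsum x ε : Lp 𝕜 p μ) t = rsum (fun a => x a t) ε :=
    ae_all_iff.2 fun ε => rsum_coe x ε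
  have hm : ∀ ε : A → Bool, AEMeasurable (fun t => ‖(rsum x ε : Lp 𝕜 p μ) t‖ₑ) μ := fun ε =>
    (Lp.aestronglyMeasurable _).enorm
  have hm2 : ∀ ε : A → Bool, AEMeasurable (fun t => ‖(rsum x ε : Lp 𝕜 p μ) t‖ₑ ^ 2) μ :=
    fun ε => (hm ε).pow_const 2
  -- pointwise orthogonality
  have hort : ∀ᵐ t ∂μ, sqf x t = ∑ ε : A → Bool, c * ‖(rsum x ε : Lp 𝕜 p μ) t‖ₑ ^ 2 := by
    filter_upwards [hae] with t ht
    simp only [ht]
    have h3 := DLP.ort.{v} 𝕜 A fun a => x a t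
    have h4 := congrArg ENNReal.ofReal h3
    rw [ofReal_mean _ fun ε => by positivity, ENNReal.ofReal_sum_of_nonneg fun a _ => by positivity]
      at h4
    unfold sqf
    simp only [enorm_sq_eq]
    rw [← h4]
  -- norms
  have hnorm : ∀ ε : A → Bool, ‖(rsum x ε : Lp 𝕜 p μ)‖ₑ ^ 2 =
      (∫⁻ t, (‖(rsum x ε : Lp 𝕜 p μ) t‖ₑ ^ 2) ^ q ∂μ) ^ (1 / q) := by
    intro ε
    have h5 := enorm_Lp hp0 hpt (rsum x ε : Lp 𝕜 p μ)
    rw [← hr] at h5
    simp only [hq, sq_rpow]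
    rw [← h5, ← ENNReal.rpow_mul, ← ENNReal.rpow_natCast]
    congr 1
    push_cast
    field_simp
  have hw : ∑ _ε : A → Bool, c = 1 := card_mean A
  refine ⟨?_, ?_⟩
  · -- Khintchine, lower half
    have h7 : ∫⁻ t, sqf x t ^ q ∂μ ≤
        ENNReal.ofReal K * ∑ ε : A → Bool, c * (‖(rsum x ε : Lp 𝕜 p μ)‖ₑ ^ 2) ^ q := by
      have h8 : ∀ ε : A → Bool, (‖(rsum x ε : Lp 𝕜 p μ)‖ₑ ^ 2) ^ q =
          ∫⁻ t, ‖(rsum x ε : Lp 𝕜 p μ) t‖ₑ ^ r ∂μ := by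
        intro ε
        rw [hq, sq_rpow, hr, enorm_Lp hp0 hpt]
      simp only [h8]
      have h9 : ∀ ε : A → Bool, c * ∫⁻ t, ‖(rsum x ε : Lp 𝕜 p μ) t‖ₑ ^ r ∂μ =
          ∫⁻ t, c * ‖(rsum x ε : Lp 𝕜 p μ) t‖ₑ ^ r ∂μ := fun ε =>
        (lintegral_const_mul' _ _ hct).symm
      simp only [h9]
      rw [← lintegral_finsetSum' _ fun ε _ => ((hm ε).pow_const r).const_mul c,
        ← lintegral_const_mul' _ _ ENNReal.ofReal_ne_top]
      refine lintegral_mono_ae ?_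
      filter_upwards [hae] with t ht
      simp only [ht]
      have h10 := hK 𝕜 r (by linarith) hr2 A fun a => x a t
      have h11 := ENNReal.ofReal_le_ofReal h10
      rw [ENNReal.ofReal_mul (by linarith), ofReal_mean _ fun ε => by positivity,
        ← ENNReal.ofReal_rpow_of_nonneg (Finset.sum_nonneg fun a _ => by positivity)
          (by positivity), ENNReal.ofReal_sum_of_nonneg fun a _ => by positivity] at h11
      have h12 : ∀ z : 𝕜, ‖z‖ₑ ^ r = ENNReal.ofReal (‖z‖ ^ r) := fun z =>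
        enorm_ofReal z r (by linarith)
      simp only [h12]
      unfold sqf
      simp only [enorm_sq_eq]
      exact h11
    have hp : 1 ≤ 1 / q := by rw [le_div_iff₀ hq0]; linarith
    have h6 := ENNReal.rpow_arith_mean_le_arith_mean_rpow Finset.univ
      (fun _ : A → Bool => c) (fun ε => (‖(rsum x ε : Lp 𝕜 p μ)‖ₑ ^ 2) ^ q) hw hp
    have h13 : ∀ ε : A → Bool, ((‖(rsum x ε : Lp 𝕜 p μ)‖ₑ ^ 2) ^ q) ^ (1 / q) =
        ‖(rsum x ε : Lp 𝕜 p μ)‖ₑ ^ 2 := fun ε => by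
      rw [← ENNReal.rpow_mul, mul_one_div_cancel hq0.ne', ENNReal.rpow_one]
    simp only [h13] at h6
    rw [← hrad] at h6
    unfold rho
    calc (∫⁻ t, sqf x t ^ q ∂μ) ^ (1 / q)
        ≤ (ENNReal.ofReal K * ∑ ε : A → Bool, c * (‖(rsum x ε : Lp 𝕜 p μ)‖ₑ ^ 2) ^ q) ^ (1 / q) :=
          ENNReal.rpow_le_rpow h7 hqi.le
      _ = ENNReal.ofReal K ^ (1 / q) *
          (∑ ε : A → Bool, c * (‖(rsum x ε : Lp 𝕜 p μ)‖ₑ ^ 2) ^ q) ^ (1 / q) :=
          ENNReal.mul_rpow_of_nonneg _ _ hqi.le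
      _ ≤ ENNReal.ofReal K ^ (2 : ℝ) * ENNReal.ofReal (rad x) := by
          refine mul_le_mul' ?_ h6
          refine ENNReal.rpow_le_rpow_of_exponent_le ?_ ?_
          · rw [ENNReal.one_le_ofReal]; exact hK1
          · rw [div_le_iff₀ hq0]; linarith
  · -- reverse Minkowski
    have h1 := rho_superadd (μ := μ) hq0 hq1 Finset.univ
      (fun (ε : A → Bool) t => c * ‖(rsum x ε : Lp 𝕜 p μ) t‖ₑ ^ 2) fun ε => (hm2 ε).const_mul c
    have h2 : rho q μ (sqf x) =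
        rho q μ (fun t => ∑ ε : A → Bool, c * ‖(rsum x ε : Lp 𝕜 p μ) t‖ₑ ^ 2) := by
      unfold rho
      rw [lintegral_congr_ae (hort.mono fun t ht => by
        show sqf x t ^ q = _
        rw [ht])]
    rw [h2]
    refine le_trans (le_of_eq ?_) h1
    rw [hrad]
    refine Finset.sum_congr rfl fun ε _ => ?_
    rw [rho_mul hq0 c hct, hnorm]
    rfl

/-- all exponents -/
theorem sql_all (P : ℝ) : ∃ C : ℝ≥0∞, 1 ≤ C ∧ C ≠ ∞ ∧
    ∀ (𝕜 : Type v) [RCLike 𝕜] (Ω : Type w) [MeasurableSpace Ω] (μ : Measure Ω) (p : ℝ≥0∞)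
      [Fact (1 ≤ p)], p ≤ ENNReal.ofReal P →
      ∀ (A : Type) [Fintype A] [DecidableEq A] (x : A → Lp 𝕜 p μ),
        rho (p.toReal / 2) μ (sqf x) ≤ C * ENNReal.ofReal (rad x) ∧
        ENNReal.ofReal (rad x) ≤ C * rho (p.toReal / 2) μ (sqf x) := by
  obtain ⟨C1, h11, h12, h13⟩ := sql_low.{v, w}
  obtain ⟨C2, h21, h22, h23⟩ := DLP.sql.{v, w} DLP.khi DLP.ort (max P 2) (le_max_right _ _)
  refine ⟨max C1 C2, le_max_of_le_left h11, by simp [h12, h22], ?_⟩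
  intro 𝕜 _ Ω _ μ p _ hpP A _ _ x
  rcases le_total p 2 with hp | hp
  · obtain ⟨h1, h2⟩ := h13 𝕜 Ω μ p hp A x
    refine ⟨h1.trans (by gcongr; exact le_max_left _ _), h2.trans ?_⟩
    calc rho (p.toReal / 2) μ (sqf x) = 1 * rho (p.toReal / 2) μ (sqf x) := (one_mul _).symm
      _ ≤ _ := by gcongr; exact le_max_of_le_left h11
  · obtain ⟨h1, h2⟩ := h23 𝕜 Ω μ p hp
      (hpP.trans (ENNReal.ofReal_le_ofReal (le_max_left _ _))) A x
    refine ⟨h1.trans ?_, h2.trans (by gcongr; exact le_max_right _ _)⟩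
    calc ENNReal.ofReal (rad x) = 1 * ENNReal.ofReal (rad x) := (one_mul _).symm
      _ ≤ _ := by gcongr; exact le_max_of_le_left h11

open DLP.SQZ_ in
/-- the same in an `ℓ²`-sum -/
theorem sqz_all (P : ℝ) : ∃ C : ℝ≥0∞, 1 ≤ C ∧ C ≠ ∞ ∧
    ∀ (𝕜 : Type v) [RCLike 𝕜] (ι : Type) (Ω : ι → Type w) [∀ i, MeasurableSpace (Ω i)]
      (p : ι → ℝ≥0∞) (μ : ∀ i, Measure (Ω i)) [∀ i, Fact (1 ≤ p i)],
      (∀ i, p i ≤ ENNReal.ofReal P) →
      ∀ (A : Type) [Fintype A] [DecidableEq A] (x : A → lp (fun i => Lp 𝕜 (p i) (μ i)) 2),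
        qf x ≤ C * ENNReal.ofReal (rad x) ∧ ENNReal.ofReal (rad x) ≤ C * qf x := by
  obtain ⟨C, hC1, hC2, hC⟩ := sql_all.{v, w} P
  refine ⟨C, hC1, hC2, ?_⟩
  intro 𝕜 _ ι Ω _ p μ _ hp A _ _ x
  have key := fun i => hC 𝕜 (Ω i) (μ i) (p i) (hp i) A (fun a => x a i)
  refine ⟨?_, ?_⟩
  · rw [ofReal_rad, ← ENNReal.tsum_mul_left]
    exact ENNReal.tsum_le_tsum fun i => (key i).1
  · rw [ofReal_rad]
    unfold qf
    rw [← ENNReal.tsum_mul_left]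
    exact ENNReal.tsum_le_tsum fun i => (key i).2

end HLP
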