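import Pool.Agent.HLP.Unit
import Pool.Agent.HLP.Khi2
import Pool.Agent.DLP.Pub

/-!
# Assembly
-/

set_option autoImplicit false

open MeasureTheory
open scoped ENNReal unitInterval

namespace HLP

open DLP (rho sqf qf rsum rad)

universe u v w

section
variable {𝕜 : Type v} [RCLike 𝕜] {ι : Type} {Ω : ι → Type w} [∀ i, MeasurableSpace (Ω i)]
  {p : ι → ℝ≥0∞} {μ : ∀ i, Measure (Ω i)} [∀ i, Fact (1 ≤ p i)]
  {X : Type u} [NormedAddCommGroup X] [NormedSpace 𝕜 X]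

/-- real weights from integer weights -/
theorem weights {N : ℕ} (V : (Fin N → ℝ≥0∞) → ℝ≥0∞) (K : ℝ≥0∞)
    (hmono : ∀ l l' : Fin N → ℝ≥0∞, (∀ i, l i ≤ l' i) → V l ≤ V l')
    (hmul : ∀ (l : Fin N → ℝ≥0∞) (c : ℝ≥0∞), c ≠ ∞ → V (fun i => c * l i) = c * V l)
    (hnat : ∀ m : Fin N → ℕ, V (fun i => (m i : ℝ≥0∞)) ≤ K * ∑ i, (m i : ℝ≥0∞) ∧
      ∑ i, (m i : ℝ≥0∞) ≤ K * V (fun i => (m i : ℝ≥0∞))) (r : Fin N → ℝ) (hr : ∀ i, 0 ≤ r i) :
    V (fun i => ENNReal.ofReal (r i)) ≤ 2 * K * ENNReal.ofReal (∑ i, r i) ∧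
      ENNReal.ofReal (∑ i, r i) ≤ 2 * K * V (fun i => ENNReal.ofReal (r i)) := by
  have hS : 0 ≤ ∑ i, r i := Finset.sum_nonneg fun i _ => hr i
  rcases hS.eq_or_lt with h0 | hpos
  · have h1 : ∀ i, r i = 0 := fun i =>
      (Finset.sum_eq_zero_iff_of_nonneg fun i _ => hr i).1 h0.symm i (Finset.mem_univ i)
    have h2 := (hnat fun _ => 0).1
    simp only [Nat.cast_zero, Finset.sum_const_zero, mul_zero] at h2
    simp only [h1, ENNReal.ofReal_zero, Finset.sum_const_zero, mul_zero]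
    exact ⟨h2, zero_le⟩
  set s := ∑ i, r i with hs
  obtain ⟨M, hM⟩ := exists_nat_gt (2 * (N : ℝ) / s)
  have hM0 : (0 : ℝ) < M := lt_of_le_of_lt (by positivity) hM
  have hMN : 2 * (N : ℝ) < s * M := by
    rw [div_lt_iff₀ hpos] at hM
    linarith
  have hMne : M ≠ 0 := by
    intro h
    rw [h] at hM0
    simp at hM0
  have hMt : ((M : ℝ≥0∞))⁻¹ ≠ ∞ := by
    rw [ENNReal.inv_ne_top]
    exact_mod_cast hMne
  have hMc : ∀ m : ℕ, (M : ℝ≥0∞)⁻¹ * m = ENNReal.ofReal (m / M) := by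
    intro m
    rw [div_eq_inv_mul, ENNReal.ofReal_mul (by positivity), ENNReal.ofReal_inv_of_pos hM0,
      ENNReal.ofReal_natCast, ENNReal.ofReal_natCast]
  have hsum : ∀ m : Fin N → ℕ, (M : ℝ≥0∞)⁻¹ * ∑ i, (m i : ℝ≥0∞) =
      ENNReal.ofReal (∑ i, (m i : ℝ) / M) := by
    intro m
    rw [Finset.mul_sum, ENNReal.ofReal_sum_of_nonneg fun i _ => by positivity]
    exact Finset.sum_congr rfl fun i _ => hMc _
  refine ⟨?_, ?_⟩
  · have h1 : V (fun i => ENNReal.ofReal (r i)) ≤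
        V (fun i => (M : ℝ≥0∞)⁻¹ * (⌈M * r i⌉₊ : ℝ≥0∞)) := by
      refine hmono _ _ fun i => ?_
      rw [hMc]
      apply ENNReal.ofReal_le_ofReal
      rw [le_div_iff₀ hM0]
      have := Nat.le_ceil (M * r i)
      linarith
    rw [hmul _ _ hMt] at h1
    refine h1.trans ?_
    calc (M : ℝ≥0∞)⁻¹ * V (fun i => (⌈M * r i⌉₊ : ℝ≥0∞))
        ≤ (M : ℝ≥0∞)⁻¹ * (K * ∑ i, (⌈M * r i⌉₊ : ℝ≥0∞)) := by
          gcongr
          exact (hnat fun i => ⌈M * r i⌉₊).1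
      _ = K * ((M : ℝ≥0∞)⁻¹ * ∑ i, (⌈M * r i⌉₊ : ℝ≥0∞)) := by ring
      _ = K * ENNReal.ofReal (∑ i, (⌈M * r i⌉₊ : ℝ) / M) := by
          rw [hsum]
      _ ≤ K * ENNReal.ofReal (2 * s) := by
          gcongr
          calc ∑ i, (⌈M * r i⌉₊ : ℝ) / M ≤ ∑ i, (r i + 1 / M) := by
                refine Finset.sum_le_sum fun i _ => ?_
                rw [div_le_iff₀ hM0]
                have := (Nat.ceil_lt_add_one (mul_nonneg hM0.le (hr i))).le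
                calc (⌈M * r i⌉₊ : ℝ) ≤ M * r i + 1 := this
                  _ = _ := by field_simp
            _ = s + N / M := by
                rw [Finset.sum_add_distrib, Finset.sum_const, Finset.card_univ, Fintype.card_fin,
                  nsmul_eq_mul]
                ring
            _ ≤ _ := by
                have : (N : ℝ) / M ≤ s := by
                  rw [div_le_iff₀ hM0]
                  linarith [(Nat.cast_nonneg N : (0 : ℝ) ≤ N)]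
                linarith
      _ = _ := by
          rw [ENNReal.ofReal_mul (by norm_num), ENNReal.ofReal_ofNat]
          ring
  · have h1 : V (fun i => (M : ℝ≥0∞)⁻¹ * (⌊M * r i⌋₊ : ℝ≥0∞)) ≤
        V (fun i => ENNReal.ofReal (r i)) := by
      refine hmono _ _ fun i => ?_
      rw [hMc]
      apply ENNReal.ofReal_le_ofReal
      rw [div_le_iff₀ hM0]
      have := Nat.floor_le (mul_nonneg hM0.le (hr i))
      linarith
    rw [hmul _ _ hMt] at h1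
    calc ENNReal.ofReal s ≤ ENNReal.ofReal (2 * ∑ i, (⌊M * r i⌋₊ : ℝ) / M) := by
          apply ENNReal.ofReal_le_ofReal
          have h2 : s - N / M ≤ ∑ i, (⌊M * r i⌋₊ : ℝ) / M := by
            calc s - N / M = ∑ i, (r i - 1 / M) := by
                  rw [Finset.sum_sub_distrib, Finset.sum_const, Finset.card_univ, Fintype.card_fin,
                    nsmul_eq_mul]
                  ring
              _ ≤ _ := by
                refine Finset.sum_le_sum fun i _ => ?_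
                rw [le_div_iff₀ hM0]
                have := (Nat.lt_floor_add_one (M * r i)).le
                calc (r i - 1 / M) * M = M * r i - 1 := by field_simp
                  _ ≤ _ := by linarith
          have h3 : (N : ℝ) / M ≤ s / 2 := by
            rw [div_le_iff₀ hM0]
            linarith
          linarith
      _ = 2 * ((M : ℝ≥0∞)⁻¹ * ∑ i, (⌊M * r i⌋₊ : ℝ≥0∞)) := by
          rw [hsum, ENNReal.ofReal_mul (by norm_num), ENNReal.ofReal_ofNat]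
      _ ≤ 2 * ((M : ℝ≥0∞)⁻¹ * (K * V (fun i => (⌊M * r i⌋₊ : ℝ≥0∞)))) := by
          gcongr
          exact (hnat fun i => ⌊M * r i⌋₊).2
      _ = 2 * K * ((M : ℝ≥0∞)⁻¹ * V (fun i => (⌊M * r i⌋₊ : ℝ≥0∞))) := by ring
      _ ≤ _ := by gcongr

/-- type 2 and cotype 2 -/
theorem type_cotype (P : ℝ) (hpP : ∀ k, p k ≤ ENNReal.ofReal P)
    (T : DiestelL2.L2V X →L[𝕜] lp (fun i => Lp 𝕜 (p i) (μ i)) 2) (c : ℝ) (hc : 0 < c)
    (hT : ∀ f, c * ‖f‖ ≤ ‖T f‖) :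
    ∃ K : ℝ, 0 ≤ K ∧ (∀ (n : ℕ) (x : Fin n → X), rad x ≤ K * ∑ j, ‖x j‖ ^ 2) ∧
      (∀ (n : ℕ) (x : Fin n → X), ∑ j, ‖x j‖ ^ 2 ≤ K * rad x) := by
  classical
  obtain ⟨C, hC1, hC, hsq⟩ := sqz_all.{v, w} P
  have hs := hsq 𝕜 ι Ω p μ hpP
  obtain ⟨C₀, h01, h0t, h0⟩ := radq T c hc hT C hC1 hC hs
  obtain ⟨K, hK, hunit⟩ := unit_case P hpP T C₀ h01 h0t h0
  obtain ⟨T1, hT1⟩ := DLP.exists_T1 𝕜 T c hT
  obtain ⟨C₁, h11, h1t, h1⟩ := radq T1 c hc hT1 C hC1 hC hs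
  have hpt : ∀ k, p k ≠ ∞ := fun k => ne_top_of_le_ne_top ENNReal.ofReal_ne_top (hpP k)
  have hq : ∀ k, 0 < (p k).toReal / 2 := by
    intro k
    have h4 : (1 : ℝ≥0∞) ≤ p k := Fact.out
    have h5 := ENNReal.toReal_mono (hpt k) h4
    rw [ENNReal.toReal_one] at h5
    linarith
  set K' : ℝ≥0∞ := C₁ * (2 * (C₁ * K)) with hK'
  have hK't : K' ≠ ∞ := by
    rw [hK']
    finiteness
  have main : ∀ (n : ℕ) (x : Fin n → X),
      ENNReal.ofReal (rad x) ≤ K' * ENNReal.ofReal (∑ j, ‖x j‖ ^ 2) ∧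
        ENNReal.ofReal (∑ j, ‖x j‖ ^ 2) ≤ K' * ENNReal.ofReal (rad x) := by
    intro n x
    by_cases hex : ∃ i, x i ≠ 0
    · obtain ⟨i₀, hi₀⟩ := hex
      let y : Fin n → X := fun i =>
        if x i = 0 then ((‖x i₀‖⁻¹ : ℝ) : 𝕜) • x i₀ else ((‖x i‖⁻¹ : ℝ) : 𝕜) • x i
      have hnorm : ∀ z : X, z ≠ 0 → ‖((‖z‖⁻¹ : ℝ) : 𝕜) • z‖ = 1 := by
        intro z hz
        have hz' : ‖z‖ ≠ 0 := norm_ne_zero_iff.2 hz
        rw [norm_smul, RCLike.norm_ofReal, abs_of_nonneg (by positivity), inv_mul_cancel₀ hz']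
      have hy : ∀ i, ‖y i‖ = 1 := by
        intro i
        show ‖(if x i = 0 then ((‖x i₀‖⁻¹ : ℝ) : 𝕜) • x i₀ else ((‖x i‖⁻¹ : ℝ) : 𝕜) • x i)‖ = 1
        split_ifs with h
        · exact hnorm _ hi₀
        · exact hnorm _ h
      have hxy : ∀ i, x i = ((‖x i‖ : ℝ) : 𝕜) • y i := by
        intro i
        show x i = ((‖x i‖ : ℝ) : 𝕜) •
          (if x i = 0 then ((‖x i₀‖⁻¹ : ℝ) : 𝕜) • x i₀ else ((‖x i‖⁻¹ : ℝ) : 𝕜) • x i)
        split_ifs with h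
        · rw [h]; simp
        · have hz' : ‖x i‖ ≠ 0 := norm_ne_zero_iff.2 h
          rw [smul_smul, ← RCLike.ofReal_mul, mul_inv_cancel₀ hz', RCLike.ofReal_one, one_smul]
      have hw := weights (fun l => VV T1 y l) (C₁ * K)
        (VV_mono hq T1 y) (fun l c hc => VV_mul hq T1 y l c hc) (by
          intro m
          obtain ⟨a1, a2⟩ := hunit (Σ i : Fin n, Fin (m i)) (fun a => y a.1) fun a => hy _
          obtain ⟨b1, b2⟩ := h1 (Σ i : Fin n, Fin (m i)) (fun a => y a.1)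
          have hcard : (Fintype.card (Σ i : Fin n, Fin (m i)) : ℝ≥0∞) = ∑ i, (m i : ℝ≥0∞) := by
            rw [Fintype.card_sigma]
            simp
          rw [hcard] at a1 a2
          rw [← VV_nat T1 y m] at b1 b2
          refine ⟨?_, ?_⟩
          · calc VV T1 y (fun i => (m i : ℝ≥0∞))
                ≤ C₁ * ENNReal.ofReal (rad (fun a : (Σ i : Fin n, Fin (m i)) => y a.1)) := b1
              _ ≤ C₁ * (K * ∑ i, (m i : ℝ≥0∞)) := by gcongr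
              _ = _ := by ring
          · calc ∑ i, (m i : ℝ≥0∞)
                ≤ K * ENNReal.ofReal (rad (fun a : (Σ i : Fin n, Fin (m i)) => y a.1)) := a2
              _ ≤ K * (C₁ * VV T1 y (fun i => (m i : ℝ≥0∞))) := by gcongr
              _ = _ := by ring)
        (fun i => ‖x i‖ ^ 2) (fun i => by positivity)
      rw [VV_real T1 y (fun i => ‖x i‖)] at hw
      simp only [← hxy] at hw
      obtain ⟨c1, c2⟩ := h1 (Fin n) x
      refine ⟨?_, ?_⟩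
      · calc ENNReal.ofReal (rad x) ≤ C₁ * qf (fun i => T1 (x i)) := c2
          _ ≤ C₁ * (2 * (C₁ * K) * ENNReal.ofReal (∑ i, ‖x i‖ ^ 2)) := by
            gcongr
            exact hw.1
          _ = _ := by rw [hK']; ring
      · calc ENNReal.ofReal (∑ i, ‖x i‖ ^ 2) ≤ 2 * (C₁ * K) * qf (fun i => T1 (x i)) := hw.2
          _ ≤ 2 * (C₁ * K) * (C₁ * ENNReal.ofReal (rad x)) := by gcongr
          _ = _ := by rw [hK']; ring
    · push Not at hex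
      have : x = fun _ => 0 := funext hex
      rw [this, rad_zero]
      simp
  refine ⟨K'.toReal, ENNReal.toReal_nonneg, fun n x => ?_, fun n x => ?_⟩
  · have h := ENNReal.toReal_mono (ENNReal.mul_ne_top hK't ENNReal.ofReal_ne_top) (main n x).1
    rwa [ENNReal.toReal_mul, ENNReal.toReal_ofReal (rad_nonneg _),
      ENNReal.toReal_ofReal (by positivity)] at h
  · have h := ENNReal.toReal_mono (ENNReal.mul_ne_top hK't ENNReal.ofReal_ne_top) (main n x).2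
    rwa [ENNReal.toReal_mul, ENNReal.toReal_ofReal (by positivity),
      ENNReal.toReal_ofReal (rad_nonneg _)] at h

end

open DLP (Embeds InSumOfLp em em_lower exists_dbl)

/-- If `L²([0,1],X)` embeds in `ℓ²` of an `ℓ²`-sum of `L_p`-spaces, `1 ≤ p ≤ P`, then `X` is
isomorphic to a Hilbert space. -/
theorem hilb_all (𝕜 : Type v) [RCLike 𝕜] (X : Type u) [NormedAddCommGroup X]
    [NormedSpace 𝕜 X] [CompleteSpace X] (ι : Type) (Ω : ι → Type w)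
    [∀ i, MeasurableSpace (Ω i)] (μ : ∀ i, Measure (Ω i)) (p : ι → ℝ≥0∞)
    [∀ i, Fact (1 ≤ p i)] (P : ℝ) (hpP : ∀ i, p i ≤ ENNReal.ofReal P)
    (h : Embeds 𝕜 (DiestelL2.L2V X) (DiestelL2.ell2V (lp (fun i => Lp 𝕜 (p i) (μ i)) 2))) :
    DiestelL2.IsHilbertian 𝕜 X := by
  obtain ⟨T, c, hc, hT⟩ := h
  obtain ⟨T', hT'⟩ := exists_dbl 𝕜 T c hT
  obtain ⟨K, hK0, hK1, hK2⟩ := type_cotype (X := X) (Ω := fun k : ℕ × ι => Ω k.2)
    (p := fun k => p k.2) (μ := fun k => μ k.2) P (fun k => hpP k.2) T' c hc hT'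
  exact DLP.rgk.{u, v} 𝕜 X K hK0 hK1 hK2

theorem diestel_all (𝕜 : Type v) [RCLike 𝕜] (X : Type u) [NormedAddCommGroup X]
    [NormedSpace 𝕜 X] [CompleteSpace X] [TopologicalSpace.SeparableSpace X]
    (ι : Type) (Ω : ι → Type w)
    [∀ i, MeasurableSpace (Ω i)] (μ : ∀ i, Measure (Ω i)) (p : ι → ℝ≥0∞)
    [∀ i, Fact (1 ≤ p i)] (P : ℝ) (hpP : ∀ i, p i ≤ ENNReal.ofReal P) :
    (Embeds 𝕜 X (lp (fun i => Lp 𝕜 (p i) (μ i)) 2) ∨
        Embeds 𝕜 (StrongDual 𝕜 X) (lp (fun i => Lp 𝕜 (p i) (μ i)) 2) →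
      (DiestelL2.Isom 𝕜 (lp (fun _ : ℕ => X) 2) (Lp X 2 (volume : Measure I)) ↔
        DiestelL2.IsHilbertian 𝕜 X)) ∧
    (Embeds 𝕜 X (lp (fun i => Lp 𝕜 (p i) (μ i)) 2) →
      (Embeds 𝕜 (Lp X 2 (volume : Measure I)) (lp (fun _ : ℕ => X) 2) ↔
        DiestelL2.IsHilbertian 𝕜 X)) := by
  have emb : ∀ {E : Type u} {F : Type u} [NormedAddCommGroup E] [NormedSpace 𝕜 E]
      [NormedAddCommGroup F] [NormedSpace 𝕜 F], (F ≃L[𝕜] E) → Embeds 𝕜 E F := by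
    intro E F _ _ _ _ e
    refine ⟨(e.symm : E →L[𝕜] F), (‖(e : F →L[𝕜] E)‖ + 1)⁻¹, by positivity, fun x => ?_⟩
    rw [inv_mul_le_iff₀ (by positivity)]
    have h1 : ‖x‖ ≤ ‖(e : F →L[𝕜] E)‖ * ‖(e.symm : E →L[𝕜] F) x‖ := by
      have := (e : F →L[𝕜] E).le_opNorm ((e.symm : E →L[𝕜] F) x)
      simpa using this
    refine h1.trans ?_
    gcongr
    linarith
  have fwd : Embeds 𝕜 X (lp (fun i => Lp 𝕜 (p i) (μ i)) 2) →
      Embeds 𝕜 (Lp X 2 (volume : Measure I)) (lp (fun _ : ℕ => X) 2) →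
        DiestelL2.IsHilbertian 𝕜 X := by
    rintro ⟨L, a, ha, hL⟩ ⟨S, b, hb, hS⟩
    refine hilb_all 𝕜 X ι Ω μ p P hpP ⟨(em L) ∘L S, a * b, by positivity, fun f => ?_⟩
    calc a * b * ‖f‖ = a * (b * ‖f‖) := by ring
      _ ≤ a * ‖S f‖ := by
        exact mul_le_mul_of_nonneg_left (hS f) ha.le
      _ ≤ ‖em L (S f)‖ := em_lower L a ha.le hL (S f)
  refine ⟨fun hX => ⟨fun hiso => ?_, fun hH => ?_⟩, fun hX => ⟨fwd hX, fun hH => ?_⟩⟩
  · obtain ⟨e⟩ := hiso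
    rcases hX with hX | ⟨L, a, ha, hL⟩
    · exact fwd hX (emb e)
    · obtain ⟨T, c, hc, hT⟩ := DLP.dua 𝕜 X (lp (fun i => Lp 𝕜 (p i) (μ i)) 2) e L a ha hL
      exact DLP.dhi 𝕜 X (hilb_all 𝕜 (StrongDual 𝕜 X) ι Ω μ p P hpP ⟨T, c, hc, hT⟩)
  · exact DiestelL2.conv 𝕜 X hH
  · obtain ⟨e⟩ := DiestelL2.conv 𝕜 X hH
    exact emb e

theorem diestel_pub (𝕜 : Type v) [RCLike 𝕜] (X : Type u) [NormedAddCommGroup X]
    [NormedSpace 𝕜 X] [CompleteSpace X] [TopologicalSpace.SeparableSpace X] (P : ℝ) :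
    (InSumOfLp.{u, v, w} 𝕜 1 P X ∨ InSumOfLp.{max u v, v, w} 𝕜 1 P (StrongDual 𝕜 X) →
      (DiestelL2.Isom 𝕜 (lp (fun _ : ℕ => X) 2) (Lp X 2 (volume : Measure I)) ↔
        DiestelL2.IsHilbertian 𝕜 X)) ∧
    (InSumOfLp.{u, v, w} 𝕜 1 P X →
      (Embeds 𝕜 (Lp X 2 (volume : Measure I)) (lp (fun _ : ℕ => X) 2) ↔
        DiestelL2.IsHilbertian 𝕜 X)) := by
  constructor
  · rintro (⟨ι, _, Ω, _, μ, p, _, hp, hX⟩ | ⟨ι, _, Ω, _, μ, p, _, hp, hX⟩)
    · exact (diestel_all 𝕜 X ι Ω μ p P (fun i => (hp i).2)).1 (Or.inl hX)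
    · exact (diestel_all 𝕜 X ι Ω μ p P (fun i => (hp i).2)).1 (Or.inr hX)
  · rintro ⟨ι, _, Ω, _, μ, p, _, hp, hX⟩
    exact (diestel_all 𝕜 X ι Ω μ p P (fun i => (hp i).2)).2 hX

end HLP
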