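import Pool.Agent.HLP.Sel

/-!
# Near additivity implies near proportionality
-/

set_option autoImplicit false

open MeasureTheory
open scoped ENNReal

namespace HLP

open DLP (rho)

/-! ### scalar inequalities -/

theorem phi_low (q : ℝ) (hq : 0 < q) (hq1 : q < 1) :
    ∃ κ : ℝ, 0 < κ ∧ ∀ y : ℝ, 0 ≤ y →
      q + y ^ q + q * κ * (if 4 ≤ y then y else 0) ≤ q * y + 1 := by
  have hpos : ∀ y : ℝ, 0 ≤ y → y ^ q ≤ q * y + 1 - q := by
    intro y hy
    have h := rpow_one_add_le_one_add_mul_self (s := y - 1) (by linarith) hq.le hq1.le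
    rw [show 1 + (y - 1) = y by ring] at h
    linarith
  have h4 : (4 : ℝ) ^ q < q * 4 + 1 - q := by
    have h := rpow_one_add_lt_one_add_mul_self (s := 3) (by norm_num) (by norm_num) hq hq1
    rw [show (1 : ℝ) + 3 = 4 by norm_num] at h
    linarith
  set c : ℝ := q * 4 + 1 - q - 4 ^ q with hc
  have hc0 : 0 < c := by linarith
  refine ⟨c / (4 * q), by positivity, fun y hy => ?_⟩
  split_ifs with h
  · have hy1 : 0 < y - 1 := by linarith
    have hcv := (Real.concaveOn_rpow hq.le hq1.le).2 (show (1 : ℝ) ∈ Set.Ici 0 by simp)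
      (show y ∈ Set.Ici (0 : ℝ) by simpa using hy)
      (div_nonneg (by linarith) (by linarith) : (0 : ℝ) ≤ (y - 4) / (y - 1))
      (div_nonneg (by norm_num) (by linarith) : (0 : ℝ) ≤ 3 / (y - 1)) (by
        field_simp
        ring)
    simp only [smul_eq_mul, Real.one_rpow, mul_one] at hcv
    have e1 : (y - 4) / (y - 1) + 3 / (y - 1) * y = 4 := by
      field_simp
      ring
    rw [e1] at hcv
    have e2 : (y - 4) + 3 * y ^ q ≤ 4 ^ q * (y - 1) := by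
      have := mul_le_mul_of_nonneg_right hcv hy1.le
      calc (y - 4) + 3 * y ^ q = ((y - 4) / (y - 1) + 3 / (y - 1) * y ^ q) * (y - 1) := by
            field_simp
        _ ≤ _ := this
    have e3 : q * (c / (4 * q)) * y = c * y / 4 := by
      field_simp
    rw [e3]
    have e4 : (4 : ℝ) ^ q = q * 4 + 1 - q - c := by rw [hc]; ring
    rw [e4] at e2
    nlinarith [mul_nonneg hc0.le (by linarith : (0 : ℝ) ≤ y - 4)]
  · have := hpos y hy
    linarith

theorem phi_up (q : ℝ) (hq1 : 1 < q) :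
    ∃ κ : ℝ, 0 < κ ∧ ∀ y : ℝ, 0 ≤ y →
      1 + q * y + q * κ * (if 4 ≤ y then y else 0) ≤ y ^ q + q := by
  have hq : 0 < q := by linarith
  have hpos : ∀ y : ℝ, 0 ≤ y → q * y + 1 - q ≤ y ^ q := by
    intro y hy
    have h := one_add_mul_self_le_rpow_one_add (s := y - 1) (by linarith) hq1.le
    rw [show 1 + (y - 1) = y by ring] at h
    linarith
  have h4 : q * 4 + 1 - q < (4 : ℝ) ^ q := by
    have h := one_add_mul_self_lt_rpow_one_add (s := 3) (by norm_num) (by norm_num) hq1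
    rw [show (1 : ℝ) + 3 = 4 by norm_num] at h
    linarith
  set c : ℝ := 4 ^ q - (q * 4 + 1 - q) with hc
  have hc0 : 0 < c := by linarith
  refine ⟨c / (4 * q), by positivity, fun y hy => ?_⟩
  split_ifs with h
  · have hy1 : 0 < y - 1 := by linarith
    have hcv := (convexOn_rpow hq1.le).2 (show (1 : ℝ) ∈ Set.Ici 0 by simp)
      (show y ∈ Set.Ici (0 : ℝ) by simpa using hy)
      (div_nonneg (by linarith) (by linarith) : (0 : ℝ) ≤ (y - 4) / (y - 1))
      (div_nonneg (by norm_num) (by linarith) : (0 : ℝ) ≤ 3 / (y - 1)) (by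
        field_simp
        ring)
    simp only [smul_eq_mul, Real.one_rpow, mul_one] at hcv
    have e1 : (y - 4) / (y - 1) + 3 / (y - 1) * y = 4 := by
      field_simp
      ring
    rw [e1] at hcv
    have e2 : 4 ^ q * (y - 1) ≤ (y - 4) + 3 * y ^ q := by
      have := mul_le_mul_of_nonneg_right hcv hy1.le
      calc 4 ^ q * (y - 1) ≤ ((y - 4) / (y - 1) + 3 / (y - 1) * y ^ q) * (y - 1) := this
        _ = _ := by field_simp
    have e3 : q * (c / (4 * q)) * y = c * y / 4 := by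
      field_simp
    rw [e3]
    have e4 : (4 : ℝ) ^ q = q * 4 + 1 - q + c := by rw [hc]; ring
    rw [e4] at e2
    nlinarith [mul_nonneg hc0.le (by linarith : (0 : ℝ) ≤ y - 4)]
  · have := hpos y hy
    linarith

/-! ### pointwise inequalities in `[0,∞]` -/

theorem pt_low (q κ : ℝ) (hq : 0 < q) (hκ : 0 ≤ κ)
    (h : ∀ y : ℝ, 0 ≤ y → q + y ^ q + q * κ * (if 4 ≤ y then y else 0) ≤ q * y + 1)
    (a b c : ℝ≥0∞) (hab : a ≤ b) (hb : b ≠ ∞) (hc0 : c ≠ 0) (hc : c ≠ ∞) :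
    ENNReal.ofReal q * (c * b ^ q) + c ^ (1 - q) * a ^ q +
        ENNReal.ofReal (q * κ) * (if 4 * c * b ≤ a then a * b ^ (q - 1) else 0) ≤
      ENNReal.ofReal q * (a * b ^ (q - 1)) + c * b ^ q := by
  have ha : a ≠ ∞ := ne_top_of_le_ne_top hb hab
  by_cases hb0 : b = 0
  · have ha0 : a = 0 := le_antisymm (hab.trans hb0.le) zero_le
    rw [ha0, hb0, ENNReal.zero_rpow_of_pos hq]
    simp
  lift a to NNReal using ha
  lift b to NNReal using hb
  lift c to NNReal using hc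
  have hb1 : (0 : ℝ) < b := by
    have : b ≠ 0 := by exact_mod_cast hb0
    exact_mod_cast pos_iff_ne_zero.2 this
  have hc1 : (0 : ℝ) < c := by
    have : c ≠ 0 := by exact_mod_cast hc0
    exact_mod_cast pos_iff_ne_zero.2 this
  have hy := h ((a : ℝ) / (c * b)) (by positivity)
  have hcond : (4 * (c : ℝ≥0∞) * b ≤ a) ↔ 4 ≤ (a : ℝ) / (c * b) := by
    rw [le_div_iff₀ (by positivity)]
    constructor
    · intro h1
      have h2 : (4 * c * b : NNReal) ≤ a := by exact_mod_cast h1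
      have h3 : ((4 * c * b : NNReal) : ℝ) ≤ a := by exact_mod_cast h2
      push_cast at h3
      linarith
    · intro h1
      have h3 : ((4 * c * b : NNReal) : ℝ) ≤ a := by
        push_cast
        linarith
      have h2 : (4 * c * b : NNReal) ≤ a := by exact_mod_cast h3
      exact_mod_cast h2
  have e0 : ((a : ℝ) / (c * b)) ^ q = (a : ℝ) ^ q / (c ^ q * (b : ℝ) ^ q) := by
    rw [Real.div_rpow (by positivity) (by positivity), Real.mul_rpow hc1.le hb1.le]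
  have hreal : q * ((c : ℝ) * (b : ℝ) ^ q) + (c : ℝ) ^ (1 - q) * (a : ℝ) ^ q +
      (q * κ) * (if 4 ≤ (a : ℝ) / (c * b) then (a : ℝ) * (b : ℝ) ^ (q - 1) else 0) ≤
      q * ((a : ℝ) * (b : ℝ) ^ (q - 1)) + c * (b : ℝ) ^ q := by
    have h1 := mul_le_mul_of_nonneg_left hy
      (mul_nonneg hc1.le (Real.rpow_nonneg hb1.le q))
    have ebq : (b : ℝ) ^ q = (b : ℝ) ^ (q - 1) * b := by
      rw [← Real.rpow_add_one hb1.ne']
      congr 1
      ring
    have ecq : (c : ℝ) ^ (1 - q) = c / (c : ℝ) ^ q := by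
      rw [Real.rpow_sub hc1, Real.rpow_one]
    have hbq : (0 : ℝ) < (b : ℝ) ^ (q - 1) := Real.rpow_pos_of_pos hb1 _
    have hcq : (0 : ℝ) < (c : ℝ) ^ q := Real.rpow_pos_of_pos hc1 _
    rw [e0] at h1
    split_ifs at h1 ⊢ with h5
    · have e1 : (c : ℝ) * (b : ℝ) ^ q * (q + (a : ℝ) ^ q / (c ^ q * (b : ℝ) ^ q) +
          q * κ * ((a : ℝ) / (c * b))) =
          q * ((c : ℝ) * (b : ℝ) ^ q) + (c : ℝ) ^ (1 - q) * (a : ℝ) ^ q +
          (q * κ) * ((a : ℝ) * (b : ℝ) ^ (q - 1)) := by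
        rw [ecq, ebq]
        field_simp
      have e2 : (c : ℝ) * (b : ℝ) ^ q * (q * ((a : ℝ) / (c * b)) + 1) =
          q * ((a : ℝ) * (b : ℝ) ^ (q - 1)) + c * (b : ℝ) ^ q := by
        rw [ebq]
        field_simp
      rw [e1, e2] at h1
      exact h1
    · have e1 : (c : ℝ) * (b : ℝ) ^ q * (q + (a : ℝ) ^ q / (c ^ q * (b : ℝ) ^ q) +
          q * κ * 0) =
          q * ((c : ℝ) * (b : ℝ) ^ q) + (c : ℝ) ^ (1 - q) * (a : ℝ) ^ q +
          (q * κ) * 0 := by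
        rw [ecq, ebq, mul_zero, add_zero, add_zero]
        field_simp
      have e2 : (c : ℝ) * (b : ℝ) ^ q * (q * ((a : ℝ) / (c * b)) + 1) =
          q * ((a : ℝ) * (b : ℝ) ^ (q - 1)) + c * (b : ℝ) ^ q := by
        rw [ebq]
        field_simp
      rw [e1, e2] at h1
      exact h1
  have hconv : ∀ (x : NNReal) (s : ℝ), x ≠ 0 → (x : ℝ≥0∞) ^ s = ENNReal.ofReal ((x : ℝ) ^ s) := by
    intro x s hx
    rw [← ENNReal.ofReal_rpow_of_pos (by exact_mod_cast pos_iff_ne_zero.2 hx),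
      ENNReal.ofReal_coe_nnreal]
  have hconv2 : ∀ (x : NNReal), (x : ℝ≥0∞) ^ q = ENNReal.ofReal ((x : ℝ) ^ q) := by
    intro x
    rw [← ENNReal.ofReal_rpow_of_nonneg (NNReal.coe_nonneg x) hq.le, ENNReal.ofReal_coe_nnreal]
  have hcoe : ∀ x : NNReal, (x : ℝ≥0∞) = ENNReal.ofReal (x : ℝ) := fun x =>
    (ENNReal.ofReal_coe_nnreal).symm
  have hb2 : b ≠ 0 := by exact_mod_cast hb0
  have hc2 : c ≠ 0 := by exact_mod_cast hc0
  have key := ENNReal.ofReal_le_ofReal hreal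
  have n1 : 0 ≤ q * ((c : ℝ) * (b : ℝ) ^ q) := by positivity
  have n2 : 0 ≤ (c : ℝ) ^ (1 - q) * (a : ℝ) ^ q := by positivity
  have n3 : 0 ≤ (q * κ) * (if 4 ≤ (a : ℝ) / (c * b) then (a : ℝ) * (b : ℝ) ^ (q - 1) else 0) := by
    refine mul_nonneg (by positivity) ?_
    split_ifs <;> positivity
  have hqκ : 0 ≤ q * κ := by positivity
  rw [ENNReal.ofReal_add (by positivity) n3, ENNReal.ofReal_add n1 n2,
    ENNReal.ofReal_add (by positivity) (by positivity),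
    ENNReal.ofReal_mul (q := (c : ℝ) * (b : ℝ) ^ q) hq.le,
    ENNReal.ofReal_mul (q := (b : ℝ) ^ q) hc1.le,
    ENNReal.ofReal_mul (q := (a : ℝ) ^ q) (Real.rpow_nonneg hc1.le _),
    ENNReal.ofReal_mul (q := (if 4 ≤ (a : ℝ) / (c * b) then (a : ℝ) * (b : ℝ) ^ (q - 1) else 0))
      hqκ, ENNReal.ofReal_mul (q := (a : ℝ) * (b : ℝ) ^ (q - 1)) hq.le,
    ENNReal.ofReal_mul (q := (b : ℝ) ^ (q - 1)) (NNReal.coe_nonneg a)] at key
  rw [hconv2 b, hconv c _ hc2, hconv2 a, hconv b _ hb2]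
  have e9 : (if 4 * (c : ℝ≥0∞) * b ≤ a then (a : ℝ≥0∞) * ENNReal.ofReal ((b : ℝ) ^ (q - 1)) else 0)
      = ENNReal.ofReal (if 4 ≤ (a : ℝ) / (c * b) then (a : ℝ) * (b : ℝ) ^ (q - 1) else 0) := by
    by_cases h6 : 4 * (c : ℝ≥0∞) * b ≤ a
    · rw [if_pos h6, if_pos (hcond.1 h6), ENNReal.ofReal_mul (by positivity), ← hcoe]
    · rw [if_neg h6, if_neg (fun h7 => h6 (hcond.2 h7)), ENNReal.ofReal_zero]
  rw [e9, hcoe a, hcoe c]
  exact key

theorem pt_up (q κ : ℝ) (hq : 0 < q) (hκ : 0 ≤ κ)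
    (h : ∀ y : ℝ, 0 ≤ y → 1 + q * y + q * κ * (if 4 ≤ y then y else 0) ≤ y ^ q + q)
    (a b c : ℝ≥0∞) (hab : a ≤ b) (hb : b ≠ ∞) (hc0 : c ≠ 0) (hc : c ≠ ∞) :
    c * b ^ q + ENNReal.ofReal q * (a * b ^ (q - 1)) +
        ENNReal.ofReal (q * κ) * (if 4 * c * b ≤ a then a * b ^ (q - 1) else 0) ≤
      c ^ (1 - q) * a ^ q + ENNReal.ofReal q * (c * b ^ q) := by
  have ha : a ≠ ∞ := ne_top_of_le_ne_top hb hab
  by_cases hb0 : b = 0
  · have ha0 : a = 0 := le_antisymm (hab.trans hb0.le) zero_le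
    rw [ha0, hb0, ENNReal.zero_rpow_of_pos hq]
    simp
  lift a to NNReal using ha
  lift b to NNReal using hb
  lift c to NNReal using hc
  have hb1 : (0 : ℝ) < b := by
    have : b ≠ 0 := by exact_mod_cast hb0
    exact_mod_cast pos_iff_ne_zero.2 this
  have hc1 : (0 : ℝ) < c := by
    have : c ≠ 0 := by exact_mod_cast hc0
    exact_mod_cast pos_iff_ne_zero.2 this
  have hy := h ((a : ℝ) / (c * b)) (by positivity)
  have hcond : (4 * (c : ℝ≥0∞) * b ≤ a) ↔ 4 ≤ (a : ℝ) / (c * b) := by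
    rw [le_div_iff₀ (by positivity)]
    constructor
    · intro h1
      have h2 : (4 * c * b : NNReal) ≤ a := by exact_mod_cast h1
      have h3 : ((4 * c * b : NNReal) : ℝ) ≤ a := by exact_mod_cast h2
      push_cast at h3
      linarith
    · intro h1
      have h3 : ((4 * c * b : NNReal) : ℝ) ≤ a := by
        push_cast
        linarith
      have h2 : (4 * c * b : NNReal) ≤ a := by exact_mod_cast h3
      exact_mod_cast h2
  have e0 : ((a : ℝ) / (c * b)) ^ q = (a : ℝ) ^ q / (c ^ q * (b : ℝ) ^ q) := by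
    rw [Real.div_rpow (by positivity) (by positivity), Real.mul_rpow hc1.le hb1.le]
  have hreal : (c : ℝ) * (b : ℝ) ^ q + q * ((a : ℝ) * (b : ℝ) ^ (q - 1)) +
      (q * κ) * (if 4 ≤ (a : ℝ) / (c * b) then (a : ℝ) * (b : ℝ) ^ (q - 1) else 0) ≤
      (c : ℝ) ^ (1 - q) * (a : ℝ) ^ q + q * ((c : ℝ) * (b : ℝ) ^ q) := by
    have h1 := mul_le_mul_of_nonneg_left hy
      (mul_nonneg hc1.le (Real.rpow_nonneg hb1.le q))
    have ebq : (b : ℝ) ^ q = (b : ℝ) ^ (q - 1) * b := by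
      rw [← Real.rpow_add_one hb1.ne']
      congr 1
      ring
    have ecq : (c : ℝ) ^ (1 - q) = c / (c : ℝ) ^ q := by
      rw [Real.rpow_sub hc1, Real.rpow_one]
    have hbq : (0 : ℝ) < (b : ℝ) ^ (q - 1) := Real.rpow_pos_of_pos hb1 _
    have hcq : (0 : ℝ) < (c : ℝ) ^ q := Real.rpow_pos_of_pos hc1 _
    rw [e0] at h1
    have e2 : (c : ℝ) * (b : ℝ) ^ q * ((a : ℝ) ^ q / (c ^ q * (b : ℝ) ^ q) + q) =
        (c : ℝ) ^ (1 - q) * (a : ℝ) ^ q + q * ((c : ℝ) * (b : ℝ) ^ q) := by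
      rw [ecq, ebq]
      field_simp
    split_ifs at h1 ⊢ with h5
    · have e1 : (c : ℝ) * (b : ℝ) ^ q * (1 + q * ((a : ℝ) / (c * b)) +
          q * κ * ((a : ℝ) / (c * b))) =
          (c : ℝ) * (b : ℝ) ^ q + q * ((a : ℝ) * (b : ℝ) ^ (q - 1)) +
          (q * κ) * ((a : ℝ) * (b : ℝ) ^ (q - 1)) := by
        rw [ebq]
        field_simp
      rw [e1, e2] at h1
      exact h1
    · have e1 : (c : ℝ) * (b : ℝ) ^ q * (1 + q * ((a : ℝ) / (c * b)) +
          q * κ * 0) =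
          (c : ℝ) * (b : ℝ) ^ q + q * ((a : ℝ) * (b : ℝ) ^ (q - 1)) +
          (q * κ) * 0 := by
        rw [ebq, mul_zero, add_zero, add_zero]
        field_simp
      rw [e1, e2] at h1
      exact h1
  have hconv : ∀ (x : NNReal) (s : ℝ), x ≠ 0 → (x : ℝ≥0∞) ^ s = ENNReal.ofReal ((x : ℝ) ^ s) := by
    intro x s hx
    rw [← ENNReal.ofReal_rpow_of_pos (by exact_mod_cast pos_iff_ne_zero.2 hx),
      ENNReal.ofReal_coe_nnreal]
  have hconv2 : ∀ (x : NNReal), (x : ℝ≥0∞) ^ q = ENNReal.ofReal ((x : ℝ) ^ q) := by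
    intro x
    rw [← ENNReal.ofReal_rpow_of_nonneg (NNReal.coe_nonneg x) hq.le, ENNReal.ofReal_coe_nnreal]
  have hcoe : ∀ x : NNReal, (x : ℝ≥0∞) = ENNReal.ofReal (x : ℝ) := fun x =>
    (ENNReal.ofReal_coe_nnreal).symm
  have hb2 : b ≠ 0 := by exact_mod_cast hb0
  have hc2 : c ≠ 0 := by exact_mod_cast hc0
  have key := ENNReal.ofReal_le_ofReal hreal
  have n3 : 0 ≤ (q * κ) * (if 4 ≤ (a : ℝ) / (c * b) then (a : ℝ) * (b : ℝ) ^ (q - 1) else 0) := by
    refine mul_nonneg (by positivity) ?_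
    split_ifs <;> positivity
  have hqκ : 0 ≤ q * κ := by positivity
  rw [ENNReal.ofReal_add (by positivity) n3, ENNReal.ofReal_add (by positivity) (by positivity),
    ENNReal.ofReal_add (by positivity) (by positivity),
    ENNReal.ofReal_mul (q := (c : ℝ) * (b : ℝ) ^ q) hq.le,
    ENNReal.ofReal_mul (q := (b : ℝ) ^ q) hc1.le,
    ENNReal.ofReal_mul (q := (a : ℝ) ^ q) (Real.rpow_nonneg hc1.le _),
    ENNReal.ofReal_mul (q := (if 4 ≤ (a : ℝ) / (c * b) then (a : ℝ) * (b : ℝ) ^ (q - 1) else 0))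
      hqκ, ENNReal.ofReal_mul (q := (a : ℝ) * (b : ℝ) ^ (q - 1)) hq.le,
    ENNReal.ofReal_mul (q := (b : ℝ) ^ (q - 1)) (NNReal.coe_nonneg a)] at key
  rw [hconv2 b, hconv c _ hc2, hconv2 a, hconv b _ hb2]
  have e9 : (if 4 * (c : ℝ≥0∞) * b ≤ a then (a : ℝ≥0∞) * ENNReal.ofReal ((b : ℝ) ^ (q - 1)) else 0)
      = ENNReal.ofReal (if 4 ≤ (a : ℝ) / (c * b) then (a : ℝ) * (b : ℝ) ^ (q - 1) else 0) := by
    by_cases h6 : 4 * (c : ℝ≥0∞) * b ≤ a
    · rw [if_pos h6, if_pos (hcond.1 h6), ENNReal.ofReal_mul (by positivity), ← hcoe]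
    · rw [if_neg h6, if_neg (fun h7 => h6 (hcond.2 h7)), ENNReal.ofReal_zero]
  rw [e9, hcoe a, hcoe c]
  exact key

end HLP
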