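import Pool.Agent.HLP.Near

/-!
# Near additivity implies near proportionality, integrated form
-/

set_option autoImplicit false

open MeasureTheory
open scoped ENNReal

namespace HLP

open DLP (rho)

section
variable {Ω : Type*} [MeasurableSpace Ω] {μ : Measure Ω} {q : ℝ}

/-- `∫ V W^{q-1}` over the set where `V` is large -/
noncomputable def bigInt (q : ℝ) (μ : Measure Ω) (V W : Ω → ℝ≥0∞) (lam : ℝ≥0∞) : ℝ≥0∞ :=
  ∫⁻ t, (if 4 * lam * W t ≤ V t then V t * W t ^ (q - 1) else 0) ∂μ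

theorem ae_finite (hq : 0 < q) {W : Ω → ℝ≥0∞} (hW : Measurable W)
    (hS : ∫⁻ t, W t ^ q ∂μ ≠ ∞) : ∀ᵐ t ∂μ, W t ≠ ∞ := by
  filter_upwards [ae_lt_top' (hW.pow_const q).aemeasurable hS] with t ht h
  rw [h, ENNReal.top_rpow_of_pos hq] at ht
  exact lt_irrefl _ ht

theorem ae_zero_of_rho (hq : 0 < q) {V : Ω → ℝ≥0∞} (hV : Measurable V) (h : rho q μ V = 0) :
    ∀ᵐ t ∂μ, V t = 0 := by
  have h1 : ∫⁻ t, V t ^ q ∂μ = 0 := by
    rw [← rho_rpow hq, h, ENNReal.zero_rpow_of_pos hq]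
  rw [lintegral_eq_zero_iff (hV.pow_const q)] at h1
  filter_upwards [h1] with t ht
  simp only [Pi.zero_apply] at ht
  rcases ENNReal.rpow_eq_zero_iff.1 ht with h2 | h2
  · exact h2.1
  · linarith [h2.2]

theorem meas_big (V W : Ω → ℝ≥0∞) (hV : Measurable V) (hW : Measurable W) (lam : ℝ≥0∞) :
    Measurable fun t => if 4 * lam * W t ≤ V t then V t * W t ^ (q - 1) else 0 := by
  refine Measurable.ite (measurableSet_le (hW.const_mul _) hV) ?_ measurable_const
  exact hV.mul (hW.pow_const _)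

theorem lam_pow (hq : 0 < q) {x w : ℝ≥0∞} (hw0 : w ≠ 0) (hw : w ≠ ∞) (hx0 : x ≠ 0) (hx : x ≠ ∞) :
    (x / w) ^ (1 - q) * x ^ q = x / w * w ^ q := by
  have h1 : x ^ q = (x / w) ^ q * w ^ q := by
    rw [← ENNReal.mul_rpow_of_nonneg _ _ hq.le, ENNReal.div_mul_cancel hw0 hw]
  have h2 : x / w ≠ 0 := by
    rw [Ne, ENNReal.div_eq_zero_iff]
    push Not
    exact ⟨hx0, hw⟩
  have h3 : x / w ≠ ∞ := ENNReal.div_ne_top hx hw0
  rw [h1, ← mul_assoc, ← ENNReal.rpow_add _ _ h2 h3]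
  congr 1
  rw [show 1 - q + q = 1 by ring, ENNReal.rpow_one]

theorem lin_low (hq : 0 < q) (hq1 : q < 1) (k : ℝ) (hk : 0 ≤ k)
    (h : ∀ y : ℝ, 0 ≤ y → q + y ^ q + q * k * (if 4 ≤ y then y else 0) ≤ q * y + 1)
    {V W : Ω → ℝ≥0∞} (hV : Measurable V) (hW : Measurable W) (hVW : ∀ t, V t ≤ W t)
    (hS : ∫⁻ t, W t ^ q ∂μ ≠ ∞) (hS0 : ∫⁻ t, W t ^ q ∂μ ≠ 0) :
    ENNReal.ofReal k * bigInt q μ V W (rho q μ V / rho q μ W) +
        rho q μ V / rho q μ W * ∫⁻ t, W t ^ q ∂μ ≤ ∫⁻ t, V t * W t ^ (q - 1) ∂μ := by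
  set S := ∫⁻ t, W t ^ q ∂μ with hSdef
  have hwS : rho q μ W ^ q = S := rho_rpow hq W
  have hw0 : rho q μ W ≠ 0 := by
    intro h0
    rw [h0, ENNReal.zero_rpow_of_pos hq] at hwS
    exact hS0 hwS.symm
  have hw : rho q μ W ≠ ∞ := by
    intro h0
    rw [h0, ENNReal.top_rpow_of_pos hq] at hwS
    exact hS hwS.symm
  have hVr : rho q μ V ≠ ∞ := ne_top_of_le_ne_top hw (rho_mono hq hVW)
  by_cases hV0 : rho q μ V = 0
  · have hz := ae_zero_of_rho hq hV hV0
    have hb : bigInt q μ V W (rho q μ V / rho q μ W) = 0 := by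
      unfold bigInt
      rw [lintegral_eq_zero_iff (meas_big V W hV hW _)]
      filter_upwards [hz] with t ht
      simp [ht]
    rw [hb, hV0]
    simp
  set lam := rho q μ V / rho q μ W with hlam
  have hl0 : lam ≠ 0 := by
    rw [hlam, Ne, ENNReal.div_eq_zero_iff]
    push Not
    exact ⟨hV0, hw⟩
  have hl : lam ≠ ∞ := ENNReal.div_ne_top hVr hw0
  have hfin := ae_finite hq hW hS
  have hint : ENNReal.ofReal q * (lam * S) + lam ^ (1 - q) * (∫⁻ t, V t ^ q ∂μ) +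
      ENNReal.ofReal (q * k) * bigInt q μ V W lam ≤
      ENNReal.ofReal q * (∫⁻ t, V t * W t ^ (q - 1) ∂μ) + lam * S := by
    have hmW : Measurable fun t => W t ^ q := hW.pow_const q
    have hmV : Measurable fun t => V t ^ q := hV.pow_const q
    have hm1 : Measurable fun t => V t * W t ^ (q - 1) := hV.mul (hW.pow_const _)
    have e1 : ENNReal.ofReal q * (lam * S) = ∫⁻ t, ENNReal.ofReal q * (lam * W t ^ q) ∂μ := by
      rw [lintegral_const_mul _ (hmW.const_mul _), lintegral_const_mul _ hmW]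
    have e2 : lam ^ (1 - q) * (∫⁻ t, V t ^ q ∂μ) = ∫⁻ t, lam ^ (1 - q) * V t ^ q ∂μ := by
      rw [lintegral_const_mul _ hmV]
    have e3 : ENNReal.ofReal (q * k) * bigInt q μ V W lam = ∫⁻ t, ENNReal.ofReal (q * k) *
        (if 4 * lam * W t ≤ V t then V t * W t ^ (q - 1) else 0) ∂μ := by
      unfold bigInt
      rw [lintegral_const_mul _ (meas_big V W hV hW _)]
    have e4 : ENNReal.ofReal q * (∫⁻ t, V t * W t ^ (q - 1) ∂μ) =
        ∫⁻ t, ENNReal.ofReal q * (V t * W t ^ (q - 1)) ∂μ := by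
      rw [lintegral_const_mul _ hm1]
    have e5 : lam * S = ∫⁻ t, lam * W t ^ q ∂μ := by rw [lintegral_const_mul _ hmW]
    rw [e1, e2, e3, e4]
    nth_rewrite 1 [e5]
    have hm2 : Measurable fun t => ENNReal.ofReal q * (lam * W t ^ q) + lam ^ (1 - q) * V t ^ q :=
      ((hmW.const_mul _).const_mul _).add (hmV.const_mul _)
    rw [← lintegral_add_left ((hmW.const_mul _).const_mul _), ← lintegral_add_left hm2,
      ← lintegral_add_left (hm1.const_mul _)]
    refine lintegral_mono_ae ?_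
    filter_upwards [hfin] with t ht
    exact pt_low q k hq hk h (V t) (W t) lam (hVW t) ht hl0 hl
  have e6 : lam ^ (1 - q) * (∫⁻ t, V t ^ q ∂μ) = lam * S := by
    rw [← rho_rpow hq V, hlam, lam_pow hq hw0 hw hV0 hVr, hwS]
  rw [e6] at hint
  have hlS : lam * S ≠ ∞ := ENNReal.mul_ne_top hl hS
  have h7 : ENNReal.ofReal q * (lam * S) + ENNReal.ofReal (q * k) * bigInt q μ V W lam ≤
      ENNReal.ofReal q * (∫⁻ t, V t * W t ^ (q - 1) ∂μ) := by
    refine (ENNReal.add_le_add_iff_right hlS).1 ?_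
    calc _ = ENNReal.ofReal q * (lam * S) + lam * S +
          ENNReal.ofReal (q * k) * bigInt q μ V W lam := by ring
      _ ≤ _ := hint
  have hq' : ENNReal.ofReal q ≠ 0 := by simpa using hq
  rw [ENNReal.ofReal_mul hq.le, mul_assoc, ← mul_add] at h7
  have h8 := (ENNReal.mul_le_mul_iff_right hq' ENNReal.ofReal_ne_top).1 h7
  rw [add_comm]
  exact h8

theorem lin_up (hq1 : 1 < q) (k : ℝ) (hk : 0 ≤ k)
    (h : ∀ y : ℝ, 0 ≤ y → 1 + q * y + q * k * (if 4 ≤ y then y else 0) ≤ y ^ q + q)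
    {V W : Ω → ℝ≥0∞} (hV : Measurable V) (hW : Measurable W) (hVW : ∀ t, V t ≤ W t)
    (hS : ∫⁻ t, W t ^ q ∂μ ≠ ∞) (hS0 : ∫⁻ t, W t ^ q ∂μ ≠ 0) :
    ENNReal.ofReal k * bigInt q μ V W (rho q μ V / rho q μ W) +
      ∫⁻ t, V t * W t ^ (q - 1) ∂μ ≤ rho q μ V / rho q μ W * ∫⁻ t, W t ^ q ∂μ := by
  have hq : 0 < q := by linarith
  set S := ∫⁻ t, W t ^ q ∂μ with hSdef
  have hwS : rho q μ W ^ q = S := rho_rpow hq W
  have hw0 : rho q μ W ≠ 0 := by
    intro h0
    rw [h0, ENNReal.zero_rpow_of_pos hq] at hwS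
    exact hS0 hwS.symm
  have hw : rho q μ W ≠ ∞ := by
    intro h0
    rw [h0, ENNReal.top_rpow_of_pos hq] at hwS
    exact hS hwS.symm
  have hVr : rho q μ V ≠ ∞ := ne_top_of_le_ne_top hw (rho_mono hq hVW)
  by_cases hV0 : rho q μ V = 0
  · have hz := ae_zero_of_rho hq hV hV0
    have hb : bigInt q μ V W (rho q μ V / rho q μ W) = 0 := by
      unfold bigInt
      rw [lintegral_eq_zero_iff (meas_big V W hV hW _)]
      filter_upwards [hz] with t ht
      simp [ht]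
    have hb2 : ∫⁻ t, V t * W t ^ (q - 1) ∂μ = 0 := by
      have hm0 : Measurable fun t => V t * W t ^ (q - 1) := hV.mul (hW.pow_const _)
      rw [lintegral_eq_zero_iff hm0]
      filter_upwards [hz] with t ht
      simp [ht]
    rw [hb, hb2]
    simp
  set lam := rho q μ V / rho q μ W with hlam
  have hl0 : lam ≠ 0 := by
    rw [hlam, Ne, ENNReal.div_eq_zero_iff]
    push Not
    exact ⟨hV0, hw⟩
  have hl : lam ≠ ∞ := ENNReal.div_ne_top hVr hw0
  have hfin := ae_finite hq hW hS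
  have hint : lam * S + ENNReal.ofReal q * (∫⁻ t, V t * W t ^ (q - 1) ∂μ) +
      ENNReal.ofReal (q * k) * bigInt q μ V W lam ≤
      lam ^ (1 - q) * (∫⁻ t, V t ^ q ∂μ) + ENNReal.ofReal q * (lam * S) := by
    have hmW : Measurable fun t => W t ^ q := hW.pow_const q
    have hmV : Measurable fun t => V t ^ q := hV.pow_const q
    have hm1 : Measurable fun t => V t * W t ^ (q - 1) := hV.mul (hW.pow_const _)
    have e1 : ENNReal.ofReal q * (lam * S) = ∫⁻ t, ENNReal.ofReal q * (lam * W t ^ q) ∂μ := by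
      rw [lintegral_const_mul _ (hmW.const_mul _), lintegral_const_mul _ hmW]
    have e2 : lam ^ (1 - q) * (∫⁻ t, V t ^ q ∂μ) = ∫⁻ t, lam ^ (1 - q) * V t ^ q ∂μ := by
      rw [lintegral_const_mul _ hmV]
    have e3 : ENNReal.ofReal (q * k) * bigInt q μ V W lam = ∫⁻ t, ENNReal.ofReal (q * k) *
        (if 4 * lam * W t ≤ V t then V t * W t ^ (q - 1) else 0) ∂μ := by
      unfold bigInt
      rw [lintegral_const_mul _ (meas_big V W hV hW _)]
    have e4 : ENNReal.ofReal q * (∫⁻ t, V t * W t ^ (q - 1) ∂μ) =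
        ∫⁻ t, ENNReal.ofReal q * (V t * W t ^ (q - 1)) ∂μ := by
      rw [lintegral_const_mul _ hm1]
    have e5 : lam * S = ∫⁻ t, lam * W t ^ q ∂μ := by rw [lintegral_const_mul _ hmW]
    rw [e1, e2, e3, e4]
    nth_rewrite 1 [e5]
    have hm2 : Measurable fun t => lam * W t ^ q + ENNReal.ofReal q * (V t * W t ^ (q - 1)) :=
      (hmW.const_mul _).add (hm1.const_mul _)
    rw [← lintegral_add_left (hmW.const_mul _), ← lintegral_add_left hm2,
      ← lintegral_add_left (hmV.const_mul _)]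
    refine lintegral_mono_ae ?_
    filter_upwards [hfin] with t ht
    exact pt_up q k hq hk h (V t) (W t) lam (hVW t) ht hl0 hl
  have e6 : lam ^ (1 - q) * (∫⁻ t, V t ^ q ∂μ) = lam * S := by
    rw [← rho_rpow hq V, hlam, lam_pow hq hw0 hw hV0 hVr, hwS]
  rw [e6] at hint
  have hlS : lam * S ≠ ∞ := ENNReal.mul_ne_top hl hS
  have h7 : ENNReal.ofReal q * (∫⁻ t, V t * W t ^ (q - 1) ∂μ) +
      ENNReal.ofReal (q * k) * bigInt q μ V W lam ≤ ENNReal.ofReal q * (lam * S) := by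
    refine (ENNReal.add_le_add_iff_left hlS).1 ?_
    calc _ = lam * S + ENNReal.ofReal q * (∫⁻ t, V t * W t ^ (q - 1) ∂μ) +
          ENNReal.ofReal (q * k) * bigInt q μ V W lam := by ring
      _ ≤ _ := hint
  have hq' : ENNReal.ofReal q ≠ 0 := by simpa using hq
  rw [ENNReal.ofReal_mul hq.le, mul_assoc, ← mul_add] at h7
  have h8 := (ENNReal.mul_le_mul_iff_right hq' ENNReal.ofReal_ne_top).1 h7
  rw [add_comm]
  exact h8

variable {κ : Type*} [Fintype κ]

theorem sum_lin (hq : 0 < q) (V : κ → Ω → ℝ≥0∞) (hV : ∀ l, Measurable (V l))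
    (hS : ∫⁻ t, (∑ l, V l t) ^ q ∂μ ≠ ∞) :
    ∑ l, ∫⁻ t, V l t * (∑ l, V l t) ^ (q - 1) ∂μ = ∫⁻ t, (∑ l, V l t) ^ q ∂μ := by
  have hW : Measurable fun t => ∑ l, V l t := Finset.measurable_fun_sum _ fun l _ => hV l
  have hm0 : ∀ l, Measurable fun t => V l t * (∑ l, V l t) ^ (q - 1) := fun l =>
    (hV l).mul (hW.pow_const _)
  rw [← lintegral_finsetSum _ fun l _ => hm0 l]
  refine lintegral_congr_ae ?_
  filter_upwards [ae_finite hq hW hS] with t ht
  rw [← Finset.sum_mul, mul_rpow_sub_one hq ht]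

/-- the part of `∫ W^q` where some piece is large -/
noncomputable def badInt (n : ℕ) (q : ℝ) (μ : Measure Ω) (V : κ → Ω → ℝ≥0∞) : ℝ≥0∞ :=
  open Classical in
  ∫⁻ t, (if ∀ l, n * V l t ≤ ∑ l, V l t then 0 else (∑ l, V l t) ^ q) ∂μ

theorem bad_le (n : ℕ) (hn : 1 ≤ n) (hq : 0 < q) (V : κ → Ω → ℝ≥0∞) (hV : ∀ l, Measurable (V l))
    (hS : ∫⁻ t, (∑ l, V l t) ^ q ∂μ ≠ ∞)
    (lam : κ → ℝ≥0∞) (hlam : ∀ l, 4 * n * lam l ≤ 1) :
    badInt n q μ V ≤ n * ∑ l, bigInt q μ (V l) (fun t => ∑ l, V l t) (lam l) := by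
  classical
  have hW : Measurable fun t => ∑ l, V l t := Finset.measurable_fun_sum _ fun l _ => hV l
  unfold badInt bigInt
  rw [← lintegral_finsetSum _ fun l _ => meas_big (V l) _ (hV l) hW _,
    ← lintegral_const_mul _ (Finset.measurable_fun_sum _ fun l _ => meas_big (V l) _ (hV l) hW _)]
  refine lintegral_mono_ae ?_
  filter_upwards [ae_finite hq hW hS] with t ht
  split_ifs with hgood
  · exact zero_le
  push Not at hgood
  obtain ⟨l, hl⟩ := hgood
  have hn0 : (n : ℝ≥0∞) ≠ 0 := by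
    have : n ≠ 0 := by omega
    exact_mod_cast this
  have h1 : 4 * lam l * (∑ l, V l t) ≤ V l t := by
    have h2 : n * (4 * lam l * (∑ l, V l t)) ≤ n * V l t := by
      calc n * (4 * lam l * (∑ l, V l t)) = (4 * n * lam l) * (∑ l, V l t) := by ring
        _ ≤ 1 * (∑ l, V l t) := by gcongr; exact hlam l
        _ = ∑ l, V l t := one_mul _
        _ ≤ n * V l t := hl.le
    exact (ENNReal.mul_le_mul_iff_right hn0 (by simp)).1 h2
  calc (∑ l, V l t) ^ q = (∑ l, V l t) * (∑ l, V l t) ^ (q - 1) := (mul_rpow_sub_one hq ht).symm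
    _ ≤ (n * V l t) * (∑ l, V l t) ^ (q - 1) := by gcongr
    _ = n * (V l t * (∑ l, V l t) ^ (q - 1)) := by ring
    _ ≤ _ := by
        gcongr
        refine le_trans ?_ (Finset.single_le_sum (f := fun l => if 4 * lam l * (∑ l, V l t) ≤ V l t
          then V l t * (∑ l, V l t) ^ (q - 1) else 0) (fun _ _ => zero_le) (Finset.mem_univ l))
        rw [if_pos h1]

end

end HLP
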