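import Pool.Agent.HLP.Near2

/-!
# The two selection inequalities
-/

set_option autoImplicit false

open MeasureTheory
open scoped ENNReal

namespace HLP

open DLP (rho)

section avg
variable {κ : Type*} [Fintype κ] [DecidableEq κ]

theorem avg_eq (n : ℕ) (F : (κ → Fin n) → ℝ≥0∞) :
    avg n F = ∑ σ, ((n : ℝ≥0∞) ^ (Fintype.card κ))⁻¹ * F σ := by
  unfold avg
  rw [ENNReal.div_eq_inv_mul, Finset.mul_sum]

theorem avg_weight (n : ℕ) (hn : 1 ≤ n) :
    ∑ _σ : κ → Fin n, ((n : ℝ≥0∞) ^ (Fintype.card κ))⁻¹ = 1 := by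
  rw [Finset.sum_const, Finset.card_univ, Fintype.card_fun, Fintype.card_fin, nsmul_eq_mul]
  push_cast
  refine ENNReal.mul_inv_cancel ?_ (by finiteness)
  have : (n : ℝ≥0∞) ≠ 0 := by
    have : n ≠ 0 := by omega
    exact_mod_cast this
  positivity

theorem avg_mono (n : ℕ) {F G : (κ → Fin n) → ℝ≥0∞} (h : ∀ σ, F σ ≤ G σ) :
    avg n F ≤ avg n G := by
  unfold avg
  exact ENNReal.div_le_div_right (Finset.sum_le_sum fun σ _ => h σ) _

theorem avg_const (n : ℕ) (hn : 1 ≤ n) (c : ℝ≥0∞) : avg n (fun _ : κ → Fin n => c) = c := by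
  rw [avg_eq, ← Finset.sum_mul, avg_weight n hn, one_mul]

theorem avg_le_const (n : ℕ) (hn : 1 ≤ n) {F : (κ → Fin n) → ℝ≥0∞} {c : ℝ≥0∞}
    (h : ∀ σ, F σ ≤ c) : avg n F ≤ c :=
  (avg_mono n h).trans (avg_const n hn c).le

theorem avg_jensen (n : ℕ) (hn : 1 ≤ n) (F : (κ → Fin n) → ℝ≥0∞) {p : ℝ} (hp : 1 ≤ p) :
    avg n F ^ p ≤ avg n fun σ => F σ ^ p := by
  rw [avg_eq, avg_eq]
  exact ENNReal.rpow_arith_mean_le_arith_mean_rpow Finset.univ _ F (avg_weight n hn) hp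

theorem avg_lintegral {Ω : Type*} [MeasurableSpace Ω] {μ : Measure Ω} (n : ℕ)
    (f : (κ → Fin n) → Ω → ℝ≥0∞) (hf : ∀ σ, Measurable (f σ)) :
    (avg n fun σ => ∫⁻ t, f σ t ∂μ) = ∫⁻ t, avg n (fun σ => f σ t) ∂μ := by
  simp_rw [avg_eq]
  rw [lintegral_finsetSum _ fun σ _ => (hf σ).const_mul _]
  refine Finset.sum_congr rfl fun σ _ => ?_
  rw [lintegral_const_mul _ (hf σ)]

end avg

section main
variable {Ω : Type*} [MeasurableSpace Ω] {μ : Measure Ω} {q : ℝ}
variable {κ : Type*} [Fintype κ] [DecidableEq κ]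

omit [MeasurableSpace Ω] [DecidableEq κ] in
theorem sel_le_tot {n : ℕ} (U : Fin n → κ → Ω → ℝ≥0∞) (σ : κ → Fin n) (t : Ω) :
    ∑ l, U (σ l) l t ≤ ∑ l, ∑ i, U i l t :=
  Finset.sum_le_sum fun l _ =>
    Finset.single_le_sum (f := fun i => U i l t) (fun _ _ => zero_le) (Finset.mem_univ (σ l))

/-- good part -/
noncomputable def goodInt (n : ℕ) (q : ℝ) (μ : Measure Ω) (V : κ → Ω → ℝ≥0∞) : ℝ≥0∞ :=
  open Classical in
  ∫⁻ t, (if ∀ l, n * V l t ≤ ∑ l, V l t then (∑ l, V l t) ^ q else 0) ∂μ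

omit [DecidableEq κ] in
theorem meas_good (n : ℕ) (V : κ → Ω → ℝ≥0∞) (hV : ∀ l, Measurable (V l)) :
    MeasurableSet {t | ∀ l, n * V l t ≤ ∑ l, V l t} := by
  have hW : Measurable fun t => ∑ l, V l t := Finset.measurable_fun_sum _ fun l _ => hV l
  rw [Set.ofPred_forall]
  exact MeasurableSet.iInter fun l => measurableSet_le ((hV l).const_mul _) hW

omit [DecidableEq κ] in
theorem good_bad (n : ℕ) (V : κ → Ω → ℝ≥0∞) (hV : ∀ l, Measurable (V l)) :
    ∫⁻ t, (∑ l, V l t) ^ q ∂μ = goodInt n q μ V + badInt n q μ V := by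
  classical
  unfold goodInt badInt
  have hW : Measurable fun t => (∑ l, V l t) ^ q :=
    (Finset.measurable_fun_sum _ fun l _ => hV l).pow_const q
  rw [← lintegral_add_left (Measurable.ite (meas_good n V hV) hW measurable_const)]
  refine lintegral_congr fun t => ?_
  split_ifs <;> simp

theorem low_pt (n : ℕ) (hn : 1 ≤ n) (hq : 0 < q) (hq1 : q ≤ 1) (U : Fin n → κ → Ω → ℝ≥0∞)
    (hU : ∀ i l, Measurable (U i l)) (hS : ∫⁻ t, (∑ l, ∑ i, U i l t) ^ q ∂μ ≠ ∞) :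
    1 / 4 * ((n : ℝ≥0∞)⁻¹ ^ q * goodInt n q μ (fun l t => ∑ i, U i l t)) ≤
      avg n fun σ : κ → Fin n => ∫⁻ t, (∑ l, U (σ l) l t) ^ q ∂μ := by
  classical
  have hV : ∀ l, Measurable (fun t => ∑ i, U i l t) := fun l =>
    Finset.measurable_fun_sum _ fun i _ => hU i l
  have hW : Measurable fun t => ∑ l, ∑ i, U i l t := Finset.measurable_fun_sum _ fun l _ => hV l
  have hmY : ∀ σ : κ → Fin n, Measurable fun t => (∑ l, U (σ l) l t) ^ q := fun σ =>
    (Finset.measurable_fun_sum _ fun l _ => hU _ l).pow_const q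
  rw [avg_lintegral n _ hmY]
  unfold goodInt
  have hmg : Measurable fun t => if ∀ l, n * (∑ i, U i l t) ≤ ∑ l, ∑ i, U i l t then
      (∑ l, ∑ i, U i l t) ^ q else 0 :=
    Measurable.ite (meas_good n _ hV) (hW.pow_const q) measurable_const
  rw [← lintegral_const_mul _ hmg, ← lintegral_const_mul _ (hmg.const_mul _)]
  refine lintegral_mono_ae ?_
  filter_upwards [ae_finite hq hW hS] with t ht
  split_ifs with hg
  · refine le_trans (le_of_eq ?_) (lln_low n (fun i l => U i l t) hn ht hg q hq hq1)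
    rw [show (∑ l, ∑ i, U i l t) / (n : ℝ≥0∞) = (n : ℝ≥0∞)⁻¹ * (∑ l, ∑ i, U i l t) from
      ENNReal.div_eq_inv_mul, ENNReal.mul_rpow_of_nonneg _ _ hq.le]
  · simp

theorem up_pt (n : ℕ) (hn : 1 ≤ n) (hq : 0 < q) (m : ℕ) (hm : q ≤ m) (U : Fin n → κ → Ω → ℝ≥0∞)
    (hU : ∀ i l, Measurable (U i l)) (hS : ∫⁻ t, (∑ l, ∑ i, U i l t) ^ q ∂μ ≠ ∞) :
    (avg n fun σ : κ → Fin n => ∫⁻ t, (∑ l, U (σ l) l t) ^ q ∂μ) ≤
      ENNReal.ofReal (m.factorial * Real.exp 2) *
        ((n : ℝ≥0∞)⁻¹ ^ q * ∫⁻ t, (∑ l, ∑ i, U i l t) ^ q ∂μ) +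
      badInt n q μ (fun l t => ∑ i, U i l t) := by
  classical
  have hV : ∀ l, Measurable (fun t => ∑ i, U i l t) := fun l =>
    Finset.measurable_fun_sum _ fun i _ => hU i l
  have hW : Measurable fun t => ∑ l, ∑ i, U i l t := Finset.measurable_fun_sum _ fun l _ => hV l
  have hmY : ∀ σ : κ → Fin n, Measurable fun t => (∑ l, U (σ l) l t) ^ q := fun σ =>
    (Finset.measurable_fun_sum _ fun l _ => hU _ l).pow_const q
  rw [avg_lintegral n _ hmY]
  unfold badInt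
  have hWq : Measurable fun t => (∑ l, ∑ i, U i l t) ^ q := hW.pow_const q
  rw [← lintegral_const_mul _ hWq, ← lintegral_const_mul _ (hWq.const_mul _),
    ← lintegral_add_left ((hWq.const_mul _).const_mul _)]
  refine lintegral_mono_ae ?_
  filter_upwards [ae_finite hq hW hS] with t ht
  by_cases hg : ∀ l, n * (∑ i, U i l t) ≤ ∑ l, ∑ i, U i l t
  · rw [if_pos hg, add_zero]
    refine (lln_up n (fun i l => U i l t) hn ht hg q m hq hm).trans (le_of_eq ?_)
    rw [show (∑ l, ∑ i, U i l t) / (n : ℝ≥0∞) = (n : ℝ≥0∞)⁻¹ * (∑ l, ∑ i, U i l t) from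
      ENNReal.div_eq_inv_mul, ENNReal.mul_rpow_of_nonneg _ _ hq.le]
  · rw [if_neg hg]
    refine le_trans ?_ le_add_self
    refine avg_le_const n hn fun σ => ?_
    exact ENNReal.rpow_le_rpow (sel_le_tot U σ t) hq.le

/-- **Selection inequality, `1/2 ≤ q < 1`.** -/
theorem sel_low (n : ℕ) (hn : 1 ≤ n) (q : ℝ) (hq : 1 / 2 ≤ q) (hq1 : q < 1) :
    ∃ K : ℝ≥0∞, K ≠ ∞ ∧ ∀ {Ω : Type*} [MeasurableSpace Ω] (μ : Measure Ω) {κ : Type}
      [Fintype κ] [DecidableEq κ] (U : Fin n → κ → Ω → ℝ≥0∞) (_ : ∀ i l, Measurable (U i l))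
      (m : ℝ≥0∞) (_ : rho q μ (fun t => ∑ l, ∑ i, U i l t) ≠ ∞)
      (_ : ∀ l, rho q μ (fun t => ∑ i, U i l t) ≤ m),
      rho q μ (fun t => ∑ l, ∑ i, U i l t) ≤
        64 * n * (avg n fun σ : κ → Fin n => rho q μ (fun t => ∑ l, U (σ l) l t)) +
        K * (rho q μ (fun t => ∑ l, ∑ i, U i l t) - ∑ l, rho q μ (fun t => ∑ i, U i l t)) +
        4 * n * m := by
  obtain ⟨k, hk0, hk⟩ := phi_low q (by linarith) hq1
  have hq0 : 0 < q := by linarith
  have hkE : ENNReal.ofReal k ≠ 0 := by simpa using hk0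
  refine ⟨2 * n / ENNReal.ofReal k, ENNReal.div_ne_top (by finiteness) hkE, ?_⟩
  intro Ω _ μ κ _ _ U hU m hfin hm
  have hn0 : (n : ℝ≥0∞) ≠ 0 := by
    have : n ≠ 0 := by omega
    exact_mod_cast this
  set V : κ → Ω → ℝ≥0∞ := fun l t => ∑ i, U i l t with hVdef
  set w := rho q μ (fun t => ∑ l, V l t) with hw
  have hV : ∀ l, Measurable (V l) := fun l => Finset.measurable_fun_sum _ fun i _ => hU i l
  have hW : Measurable fun t => ∑ l, V l t := Finset.measurable_fun_sum _ fun l _ => hV l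
  have hVW : ∀ l t, V l t ≤ ∑ l, V l t := fun l t =>
    Finset.single_le_sum (f := fun l => V l t) (fun _ _ => zero_le) (Finset.mem_univ l)
  set S := ∫⁻ t, (∑ l, V l t) ^ q ∂μ with hS
  have hwS : w ^ q = S := rho_rpow hq0 _
  by_cases hw0 : w = 0
  · rw [hw0]; exact zero_le
  have hS0 : S ≠ 0 := by
    rw [← hwS]
    intro h
    rcases ENNReal.rpow_eq_zero_iff.1 h with h2 | h2
    · exact hw0 h2.1
    · linarith [h2.2]
  have hSt : S ≠ ∞ := by
    rw [← hwS]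
    exact ENNReal.rpow_ne_top_of_nonneg hq0.le hfin
  by_cases hA : ∃ l, w < 4 * n * rho q μ (V l)
  · obtain ⟨l, hl⟩ := hA
    refine le_trans (hl.le.trans ?_) le_add_self
    gcongr
    exact hm l
  push Not at hA
  have hlam : ∀ l, 4 * n * (rho q μ (V l) / w) ≤ 1 := by
    intro l
    rw [← mul_div_assoc]
    exact ENNReal.div_le_of_le_mul (by rw [one_mul]; exact hA l)
  have hbad := bad_le n hn hq0 V hV hSt (fun l => rho q μ (V l) / w) hlam
  set B := ∑ l, bigInt q μ (V l) (fun t => ∑ l, V l t) (rho q μ (V l) / w) with hB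
  have hlin : ENNReal.ofReal k * B + (∑ l, rho q μ (V l) / w) * S ≤ S := by
    have h1 : ∑ l, (ENNReal.ofReal k * bigInt q μ (V l) (fun t => ∑ l, V l t)
        (rho q μ (V l) / w) + rho q μ (V l) / w * S) ≤
        ∑ l, ∫⁻ t, V l t * (∑ l, V l t) ^ (q - 1) ∂μ :=
      Finset.sum_le_sum fun l _ => lin_low hq0 hq1 k hk0.le hk (hV l) hW (hVW l) hSt hS0
    rw [sum_lin hq0 V hV hSt, Finset.sum_add_distrib, ← Finset.mul_sum, ← Finset.sum_mul] at h1
    exact h1
  by_cases hc : S ≤ 2 * badInt n q μ V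
  · -- large deficit
    have h2 : ENNReal.ofReal k * S + 2 * n * ((∑ l, rho q μ (V l) / w) * S) ≤ 2 * n * S := by
      calc ENNReal.ofReal k * S + 2 * n * ((∑ l, rho q μ (V l) / w) * S)
          ≤ ENNReal.ofReal k * (2 * (n * B)) + 2 * n * ((∑ l, rho q μ (V l) / w) * S) := by
            gcongr
            exact hc.trans (by gcongr)
        _ = 2 * n * (ENNReal.ofReal k * B + (∑ l, rho q μ (V l) / w) * S) := by ring
        _ ≤ 2 * n * S := by gcongr
    have h3 : (ENNReal.ofReal k + 2 * n * (∑ l, rho q μ (V l) / w)) * S ≤ 2 * n * S := by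
      calc _ = ENNReal.ofReal k * S + 2 * n * ((∑ l, rho q μ (V l) / w) * S) := by ring
        _ ≤ _ := h2
    have h4 := (ENNReal.mul_le_mul_iff_left hS0 hSt).1 h3
    have h5 : ENNReal.ofReal k * w + 2 * n * (∑ l, rho q μ (V l)) ≤ 2 * n * w := by
      have h6 : (∑ l, rho q μ (V l) / w) * w = ∑ l, rho q μ (V l) := by
        rw [Finset.sum_mul]
        exact Finset.sum_congr rfl fun l _ => ENNReal.div_mul_cancel hw0 hfin
      calc _ = (ENNReal.ofReal k + 2 * n * (∑ l, rho q μ (V l) / w)) * w := by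
            rw [add_mul, mul_assoc _ (∑ l, rho q μ (V l) / w), h6]
        _ ≤ _ := by gcongr
    have hsum : ∑ l, rho q μ (V l) ≤ w := rho_superadd hq0 hq1.le Finset.univ V
      fun l => (hV l).aemeasurable
    have hsumt : ∑ l, rho q μ (V l) ≠ ∞ := ne_top_of_le_ne_top hfin hsum
    have h7 : ENNReal.ofReal k * w ≤ 2 * n * (w - ∑ l, rho q μ (V l)) := by
      rw [ENNReal.mul_sub (fun _ _ => by finiteness)]
      exact ENNReal.le_sub_of_add_le_right (by finiteness) h5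
    have h8 : w ≤ 2 * n / ENNReal.ofReal k * (w - ∑ l, rho q μ (V l)) := by
      rw [ENNReal.div_eq_inv_mul, mul_assoc]
      calc w = (ENNReal.ofReal k)⁻¹ * (ENNReal.ofReal k * w) := by
            rw [← mul_assoc, ENNReal.inv_mul_cancel hkE ENNReal.ofReal_ne_top, one_mul]
        _ ≤ _ := by gcongr
    refine h8.trans ?_
    refine le_trans ?_ le_self_add
    exact le_add_self
  · -- the good part dominates
    push Not at hc
    have hg : S ≤ 2 * goodInt n q μ V := by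
      have h1 : S = goodInt n q μ V + badInt n q μ V := good_bad n V hV
      by_contra h2
      push Not at h2
      have h3 : 2 * S < 2 * S := by
        calc 2 * S = 2 * goodInt n q μ V + 2 * badInt n q μ V := by
              nth_rewrite 1 [h1]
              ring
          _ < S + S := ENNReal.add_lt_add h2 hc
          _ = 2 * S := (two_mul S).symm
      exact lt_irrefl _ h3
    have h1 := low_pt (μ := μ) n hn hq0 hq1.le U hU hSt
    have h2 : (avg n fun σ : κ → Fin n => ∫⁻ t, (∑ l, U (σ l) l t) ^ q ∂μ) ^ (1 / q) ≤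
        avg n fun σ : κ → Fin n => rho q μ (fun t => ∑ l, U (σ l) l t) := by
      have hp : 1 ≤ 1 / q := by rw [le_div_iff₀ hq0]; linarith
      exact avg_jensen n hn _ hp
    have h3 : (1 / 8 * ((n : ℝ≥0∞)⁻¹ ^ q * S)) ^ (1 / q) ≤
        avg n fun σ : κ → Fin n => rho q μ (fun t => ∑ l, U (σ l) l t) := by
      refine le_trans (ENNReal.rpow_le_rpow ?_ (by positivity)) h2
      refine le_trans ?_ h1
      calc 1 / 8 * ((n : ℝ≥0∞)⁻¹ ^ q * S)
          ≤ 1 / 8 * ((n : ℝ≥0∞)⁻¹ ^ q * (2 * goodInt n q μ V)) := by gcongr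
        _ = (1 / 8 * 2) * ((n : ℝ≥0∞)⁻¹ ^ q * goodInt n q μ V) := by ring
        _ = 1 / 4 * ((n : ℝ≥0∞)⁻¹ ^ q * goodInt n q μ V) := by
            congr 1
            rw [one_div, one_div, show (8 : ℝ≥0∞) = 4 * 2 by norm_num,
              ENNReal.mul_inv (by simp) (by simp), mul_assoc,
              ENNReal.inv_mul_cancel (by simp) (by simp), mul_one]
    have h4 : (1 / 8 * ((n : ℝ≥0∞)⁻¹ ^ q * S)) ^ (1 / q) =
        (1 / 8) ^ (1 / q) * ((n : ℝ≥0∞)⁻¹ * w) := by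
      rw [ENNReal.mul_rpow_of_nonneg _ _ (by positivity),
        ENNReal.mul_rpow_of_nonneg _ _ (by positivity), ← ENNReal.rpow_mul,
        mul_one_div_cancel hq0.ne', ENNReal.rpow_one, ← hwS, ← ENNReal.rpow_mul,
        mul_one_div_cancel hq0.ne', ENNReal.rpow_one]
    rw [h4] at h3
    have h5 : (1 / 64 : ℝ≥0∞) ≤ (1 / 8) ^ (1 / q) := by
      have h6 : (1 / 8 : ℝ≥0∞) ^ (2 : ℝ) = 1 / 64 := by
        rw [show (2 : ℝ) = ((2 : ℕ) : ℝ) by norm_num, ENNReal.rpow_natCast, one_div, one_div,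
          ← ENNReal.inv_pow]
        norm_num
      rw [← h6]
      refine ENNReal.rpow_le_rpow_of_exponent_ge ?_ ?_
      · rw [one_div]
        exact ENNReal.inv_le_one.2 (by norm_num)
      · rw [div_le_iff₀ hq0]; linarith
    have h7 : w ≤ 64 * n * avg n fun σ : κ → Fin n => rho q μ (fun t => ∑ l, U (σ l) l t) := by
      calc w = 64 * n * (1 / 64 * ((n : ℝ≥0∞)⁻¹ * w)) := by
            have e1 : (64 : ℝ≥0∞) * (1 / 64) = 1 := by
              rw [one_div]
              exact ENNReal.mul_inv_cancel (by norm_num) (by norm_num)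
            have e2 : (n : ℝ≥0∞) * (n : ℝ≥0∞)⁻¹ = 1 := ENNReal.mul_inv_cancel hn0 (by simp)
            calc w = 1 * 1 * w := by ring
              _ = (64 * (1 / 64)) * ((n : ℝ≥0∞) * (n : ℝ≥0∞)⁻¹) * w := by rw [e1, e2]
              _ = _ := by ring
        _ ≤ 64 * n * ((1 / 8) ^ (1 / q) * ((n : ℝ≥0∞)⁻¹ * w)) := by gcongr
        _ ≤ _ := by gcongr
    refine h7.trans ?_
    refine le_trans ?_ le_self_add
    exact le_self_add

/-- **Selection inequality, `1 < q ≤ R`.** -/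
theorem sel_up (R : ℝ) : ∃ C : ℝ≥0∞, C ≠ ∞ ∧ ∀ (n : ℕ) (_ : 1 ≤ n) (q : ℝ) (_ : 1 < q)
    (_ : q ≤ R),
    ∃ K : ℝ≥0∞, K ≠ ∞ ∧ ∀ {Ω : Type*} [MeasurableSpace Ω] (μ : Measure Ω) {κ : Type}
      [Fintype κ] [DecidableEq κ] (U : Fin n → κ → Ω → ℝ≥0∞) (_ : ∀ i l, Measurable (U i l))
      (m : ℝ≥0∞) (_ : rho q μ (fun t => ∑ l, ∑ i, U i l t) ≠ ∞)
      (_ : ∀ l, rho q μ (fun t => ∑ i, U i l t) ≤ m),
      (avg n fun σ : κ → Fin n => rho q μ (fun t => ∑ l, U (σ l) l t)) ≤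
        C * ((n : ℝ≥0∞)⁻¹ * rho q μ (fun t => ∑ l, ∑ i, U i l t)) +
        K * ((∑ l, rho q μ (fun t => ∑ i, U i l t)) - rho q μ (fun t => ∑ l, ∑ i, U i l t)) +
        4 * n * m := by
  obtain ⟨mR, hmR⟩ := exists_nat_ge R
  refine ⟨ENNReal.ofReal (mR.factorial * Real.exp 2) + 1, by finiteness, ?_⟩
  intro n hn q hq1 hqR
  obtain ⟨k, hk0, hk⟩ := phi_up q hq1
  have hq0 : 0 < q := by linarith
  have hkE : ENNReal.ofReal k ≠ 0 := by simpa using hk0
  have hnq : (n : ℝ≥0∞) ^ q ≠ ∞ := ENNReal.rpow_ne_top_of_nonneg hq0.le (by simp)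
  refine ⟨(n : ℝ≥0∞) ^ q * n / ENNReal.ofReal k,
    ENNReal.div_ne_top (ENNReal.mul_ne_top hnq (by simp)) hkE, ?_⟩
  intro Ω _ μ κ _ _ U hU m hfin hm
  have hn0 : (n : ℝ≥0∞) ≠ 0 := by
    have : n ≠ 0 := by omega
    exact_mod_cast this
  set V : κ → Ω → ℝ≥0∞ := fun l t => ∑ i, U i l t with hVdef
  set w := rho q μ (fun t => ∑ l, V l t) with hw
  have hV : ∀ l, Measurable (V l) := fun l => Finset.measurable_fun_sum _ fun i _ => hU i l
  have hW : Measurable fun t => ∑ l, V l t := Finset.measurable_fun_sum _ fun l _ => hV l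
  have hVW : ∀ l t, V l t ≤ ∑ l, V l t := fun l t =>
    Finset.single_le_sum (f := fun l => V l t) (fun _ _ => zero_le) (Finset.mem_univ l)
  set S := ∫⁻ t, (∑ l, V l t) ^ q ∂μ with hS
  have hwS : w ^ q = S := rho_rpow hq0 _
  have htriv : (avg n fun σ : κ → Fin n => rho q μ (fun t => ∑ l, U (σ l) l t)) ≤ w :=
    avg_le_const n hn fun σ => rho_mono hq0 fun t => sel_le_tot U σ t
  by_cases hw0 : w = 0
  · refine htriv.trans ?_
    rw [hw0]; exact zero_le
  have hS0 : S ≠ 0 := by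
    rw [← hwS]
    intro h
    rcases ENNReal.rpow_eq_zero_iff.1 h with h2 | h2
    · exact hw0 h2.1
    · linarith [h2.2]
  have hSt : S ≠ ∞ := by
    rw [← hwS]
    exact ENNReal.rpow_ne_top_of_nonneg hq0.le hfin
  by_cases hA : ∃ l, w < 4 * n * rho q μ (V l)
  · obtain ⟨l, hl⟩ := hA
    refine htriv.trans (le_trans (hl.le.trans ?_) le_add_self)
    gcongr
    exact hm l
  push Not at hA
  have hlam : ∀ l, 4 * n * (rho q μ (V l) / w) ≤ 1 := by
    intro l
    rw [← mul_div_assoc]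
    exact ENNReal.div_le_of_le_mul (by rw [one_mul]; exact hA l)
  have hbad := bad_le n hn hq0 V hV hSt (fun l => rho q μ (V l) / w) hlam
  set B := ∑ l, bigInt q μ (V l) (fun t => ∑ l, V l t) (rho q μ (V l) / w) with hB
  have hlin : ENNReal.ofReal k * B + S ≤ (∑ l, rho q μ (V l) / w) * S := by
    have h1 : ∑ l, (ENNReal.ofReal k * bigInt q μ (V l) (fun t => ∑ l, V l t)
        (rho q μ (V l) / w) + ∫⁻ t, V l t * (∑ l, V l t) ^ (q - 1) ∂μ) ≤
        ∑ l, rho q μ (V l) / w * S :=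
      Finset.sum_le_sum fun l _ => lin_up hq1 k hk0.le hk (hV l) hW (hVW l) hSt hS0
    rw [Finset.sum_add_distrib, sum_lin hq0 V hV hSt, ← Finset.mul_sum, ← Finset.sum_mul] at h1
    exact h1
  by_cases hc : S ≤ (n : ℝ≥0∞) ^ q * badInt n q μ V
  · -- large deficit
    have h2 : ENNReal.ofReal k * S + (n : ℝ≥0∞) ^ q * n * S ≤
        (n : ℝ≥0∞) ^ q * n * ((∑ l, rho q μ (V l) / w) * S) := by
      calc ENNReal.ofReal k * S + (n : ℝ≥0∞) ^ q * n * S
          ≤ ENNReal.ofReal k * ((n : ℝ≥0∞) ^ q * (n * B)) + (n : ℝ≥0∞) ^ q * n * S := by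
            gcongr
            exact hc.trans (by gcongr)
        _ = (n : ℝ≥0∞) ^ q * n * (ENNReal.ofReal k * B + S) := by ring
        _ ≤ _ := by gcongr
    have h3 : (ENNReal.ofReal k + (n : ℝ≥0∞) ^ q * n) * S ≤
        ((n : ℝ≥0∞) ^ q * n * (∑ l, rho q μ (V l) / w)) * S := by
      calc _ = ENNReal.ofReal k * S + (n : ℝ≥0∞) ^ q * n * S := by ring
        _ ≤ _ := h2
        _ = _ := by ring
    have h4 := (ENNReal.mul_le_mul_iff_left hS0 hSt).1 h3
    have h5 : ENNReal.ofReal k * w + (n : ℝ≥0∞) ^ q * n * w ≤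
        (n : ℝ≥0∞) ^ q * n * (∑ l, rho q μ (V l)) := by
      have h6 : (∑ l, rho q μ (V l) / w) * w = ∑ l, rho q μ (V l) := by
        rw [Finset.sum_mul]
        exact Finset.sum_congr rfl fun l _ => ENNReal.div_mul_cancel hw0 hfin
      calc _ = (ENNReal.ofReal k + (n : ℝ≥0∞) ^ q * n) * w := by ring
        _ ≤ ((n : ℝ≥0∞) ^ q * n * (∑ l, rho q μ (V l) / w)) * w := by gcongr
        _ = _ := by rw [mul_assoc, h6]
    have h7 : ENNReal.ofReal k * w ≤ (n : ℝ≥0∞) ^ q * n * ((∑ l, rho q μ (V l)) - w) := by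
      rw [ENNReal.mul_sub (fun _ _ => ENNReal.mul_ne_top hnq (by simp))]
      exact ENNReal.le_sub_of_add_le_right
        (ENNReal.mul_ne_top (ENNReal.mul_ne_top hnq (by simp)) hfin) h5
    have h8 : w ≤ (n : ℝ≥0∞) ^ q * n / ENNReal.ofReal k * ((∑ l, rho q μ (V l)) - w) := by
      rw [ENNReal.div_eq_inv_mul, mul_assoc]
      calc w = (ENNReal.ofReal k)⁻¹ * (ENNReal.ofReal k * w) := by
            rw [← mul_assoc, ENNReal.inv_mul_cancel hkE ENNReal.ofReal_ne_top, one_mul]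
        _ ≤ _ := by gcongr
    refine htriv.trans (h8.trans ?_)
    refine le_trans ?_ le_self_add
    exact le_add_self
  · -- the good part dominates
    push Not at hc
    have hb : badInt n q μ V ≤ (n : ℝ≥0∞)⁻¹ ^ q * S := by
      rw [ENNReal.inv_rpow, ← ENNReal.div_eq_inv_mul]
      rw [ENNReal.le_div_iff_mul_le (Or.inl ?_) (Or.inl hnq), mul_comm]
      · exact hc.le
      · intro h
        rcases ENNReal.rpow_eq_zero_iff.1 h with h2 | h2
        · exact hn0 h2.1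
        · linarith [h2.2]
    have h1 := up_pt (μ := μ) n hn hq0 mR (hqR.trans hmR) U hU hSt
    have h2 : (avg n fun σ : κ → Fin n => rho q μ (fun t => ∑ l, U (σ l) l t)) ^ q ≤
        (ENNReal.ofReal (mR.factorial * Real.exp 2) + 1) * ((n : ℝ≥0∞)⁻¹ ^ q * S) := by
      refine (avg_jensen n hn _ hq1.le).trans ?_
      have e1 : (fun σ : κ → Fin n => rho q μ (fun t => ∑ l, U (σ l) l t) ^ q) =
          fun σ => ∫⁻ t, (∑ l, U (σ l) l t) ^ q ∂μ := by
        funext σ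
        exact rho_rpow hq0 _
      rw [e1]
      refine h1.trans ?_
      rw [add_mul, one_mul]
      gcongr
    have h3 : (avg n fun σ : κ → Fin n => rho q μ (fun t => ∑ l, U (σ l) l t)) ≤
        ((ENNReal.ofReal (mR.factorial * Real.exp 2) + 1) * ((n : ℝ≥0∞)⁻¹ ^ q * S)) ^ (1 / q) := by
      have := ENNReal.rpow_le_rpow h2 (by positivity : 0 ≤ 1 / q)
      rwa [← ENNReal.rpow_mul, mul_one_div_cancel hq0.ne', ENNReal.rpow_one] at this
    have h4 : ((ENNReal.ofReal (mR.factorial * Real.exp 2) + 1) *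
        ((n : ℝ≥0∞)⁻¹ ^ q * S)) ^ (1 / q) ≤
        (ENNReal.ofReal (mR.factorial * Real.exp 2) + 1) * ((n : ℝ≥0∞)⁻¹ * w) := by
      rw [ENNReal.mul_rpow_of_nonneg _ _ (by positivity),
        ENNReal.mul_rpow_of_nonneg _ _ (by positivity), ← ENNReal.rpow_mul,
        mul_one_div_cancel hq0.ne', ENNReal.rpow_one, ← hwS, ← ENNReal.rpow_mul,
        mul_one_div_cancel hq0.ne', ENNReal.rpow_one]
      gcongr
      calc (ENNReal.ofReal (mR.factorial * Real.exp 2) + 1) ^ (1 / q)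
          ≤ (ENNReal.ofReal (mR.factorial * Real.exp 2) + 1) ^ (1 : ℝ) :=
            ENNReal.rpow_le_rpow_of_exponent_le le_add_self (by
              rw [div_le_one hq0]; exact hq1.le)
        _ = _ := ENNReal.rpow_one _
    refine (h3.trans h4).trans ?_
    refine le_trans ?_ le_self_add
    exact le_self_add

end main

end HLP
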