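import Pool.Agent.HLP.Main

/-!
# Public form
-/

set_option autoImplicit false

open MeasureTheory
open scoped ENNReal unitInterval

namespace HLP

universe u v w

open DiestelL2 (Isom IsHilbertian)
open DLP (Embeds)

/-- `E` is isomorphic to a subspace of the `ℓ²`-sum of some family of spaces `L_{p_i}(μ_i)` over
`𝕜`, where `1 ≤ p_i ≤ P` for all `i` and some `P < ∞`.  (The measures `μ_i`, on spaces in
`Type w`, and the family are arbitrary; one summand is allowed.) -/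
def InLpSum (𝕜 : Type v) [RCLike 𝕜] (E : Type u) [NormedAddCommGroup E]
    [NormedSpace 𝕜 E] : Prop :=
  ∃ (ι : Type) (Ω : ι → Type w) (_ : ∀ i, MeasurableSpace (Ω i))
    (μ : ∀ i, Measure (Ω i)) (p : ι → ℝ≥0∞) (_ : ∀ i, Fact (1 ≤ p i)) (P : ℝ),
    (∀ i, p i ≤ ENNReal.ofReal P) ∧ Embeds 𝕜 E (lp (fun i => Lp 𝕜 (p i) (μ i)) 2)

theorem main_pub (𝕜 : Type v) [RCLike 𝕜] (X : Type u) [NormedAddCommGroup X]
    [NormedSpace 𝕜 X] [CompleteSpace X] [TopologicalSpace.SeparableSpace X] :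
    (InLpSum.{u, v, w} 𝕜 X ∨ InLpSum.{max u v, v, w} 𝕜 (StrongDual 𝕜 X) →
      (Isom 𝕜 (lp (fun _ : ℕ => X) 2) (Lp X 2 (volume : Measure I)) ↔ IsHilbertian 𝕜 X)) ∧
    (InLpSum.{u, v, w} 𝕜 X →
      (Embeds 𝕜 (Lp X 2 (volume : Measure I)) (lp (fun _ : ℕ => X) 2) ↔ IsHilbertian 𝕜 X)) := by
  refine ⟨?_, ?_⟩
  · rintro (⟨ι, Ω, _, μ, p, _, P, hp, hX⟩ | ⟨ι, Ω, _, μ, p, _, P, hp, hX⟩)
    · exact (diestel_all 𝕜 X ι Ω μ p P hp).1 (Or.inl hX)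
    · exact (diestel_all 𝕜 X ι Ω μ p P hp).1 (Or.inr hX)
  · rintro ⟨ι, Ω, _, μ, p, _, P, hp, hX⟩
    exact (diestel_all 𝕜 X ι Ω μ p P hp).2 hX

/-- A Banach space `X` for which `L²([0,1],X)` is isomorphic to a subspace of an `ℓ²`-sum of
`L_p`-spaces with bounded exponents is isomorphic to a Hilbert space. -/
theorem hilbertian_of_l2 (𝕜 : Type v) [RCLike 𝕜] (X : Type u) [NormedAddCommGroup X]
    [NormedSpace 𝕜 X] [CompleteSpace X]
    (h : InLpSum.{u, v, w} 𝕜 (Lp X 2 (volume : Measure I))) : IsHilbertian 𝕜 X := by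
  obtain ⟨ι, Ω, _, μ, p, _, P, hp, T, c, hc, hT⟩ := h
  obtain ⟨K, hK0, hK1, hK2⟩ := type_cotype (X := X) P hp T c hc hT
  exact DLP.rgk.{u, v} 𝕜 X K hK0 hK1 hK2

end HLP
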