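import Pool.Agent.HLP.Tree

/-!
# Rademacher averages of families on the tree
-/

set_option autoImplicit false

open MeasureTheory
open scoped ENNReal unitInterval

namespace HLP

open DLP (sgn rsum rad)

universe u v w

section rad
variable {A B : Type} [Fintype A] [DecidableEq A] [Fintype B] [DecidableEq B]

theorem rad_nonneg {E : Type*} [NormedAddCommGroup E] (x : A → E) : 0 ≤ rad x := by
  unfold rad
  positivity

theorem rad_zero {E : Type*} [NormedAddCommGroup E] : rad (fun _ : A => (0 : E)) = 0 := by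
  unfold rad rsum sgn
  simp

theorem rad_embed {E : Type*} [NormedAddCommGroup E] (x : A → E) (g : B → A)
    (hg : Function.Injective g) (hx : ∀ a, a ∉ Set.range g → x a = 0) :
    rad x = rad (fun b => x (g b)) := by
  classical
  have h1 : ∀ ε : A → Bool, rsum x ε = rsum (fun b => x (g b)) (fun b => ε (g b)) := by
    intro ε
    unfold rsum
    rw [← Finset.sum_subset (Finset.subset_univ (Finset.univ.image g))]
    · rw [Finset.sum_image fun a _ b _ h => hg h]
    · intro a _ ha
      rw [hx a (fun ⟨b, hb⟩ => ha (Finset.mem_image.2 ⟨b, Finset.mem_univ _, hb⟩))]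
      unfold sgn
      split_ifs <;> simp
  -- counting
  let e1 : (A → Bool) ≃ ({a // a ∈ Set.range g} → Bool) × ({a // ¬ a ∈ Set.range g} → Bool) :=
    Equiv.piEquivPiSubtypeProd (fun a => a ∈ Set.range g) (fun _ => Bool)
  let e2 : B ≃ {a // a ∈ Set.range g} := Equiv.ofInjective g hg
  let e3 : (B → Bool) ≃ ({a // a ∈ Set.range g} → Bool) := e2.arrowCongr (Equiv.refl Bool)
  have h2 : ∀ F : (B → Bool) → ℝ, ∑ ε : A → Bool, F (fun b => ε (g b)) =
      (Fintype.card ({a // ¬ a ∈ Set.range g} → Bool) : ℝ) * ∑ δ : B → Bool, F δ := by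
    intro F
    have h3 : ∀ ε : A → Bool, F (fun b => ε (g b)) = F (e3.symm (e1 ε).1) := by
      intro ε
      rfl
    rw [Finset.sum_congr rfl fun ε _ => h3 ε,
      Equiv.sum_comp e1 (fun y => F (e3.symm y.1)), Fintype.sum_prod_type]
    simp only [Finset.sum_const, Finset.card_univ, nsmul_eq_mul]
    rw [← Finset.mul_sum, Equiv.sum_comp e3.symm F]
  have hcard : Fintype.card A = Fintype.card B + Fintype.card {a // ¬ a ∈ Set.range g} := by
    have h4 : Fintype.card B = Fintype.card {a // a ∈ Set.range g} := Fintype.card_congr e2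
    rw [h4]
    exact (Fintype.card_congr (Equiv.sumCompl (fun a => a ∈ Set.range g))).symm.trans
      Fintype.card_sum
  unfold rad
  rw [Finset.sum_congr rfl fun ε _ => by rw [h1 ε],
    h2 (fun δ => ‖rsum (fun b => x (g b)) δ‖ ^ 2), hcard, Fintype.card_fun, Fintype.card_bool,
    pow_add]
  push_cast
  field_simp

theorem rad_reindex {E : Type*} [NormedAddCommGroup E] (x : A → E) (g : B ≃ A) :
    rad (fun b => x (g b)) = rad x :=
  (rad_embed x g g.injective fun a ha => absurd ⟨g.symm a, g.apply_symm_apply a⟩ ha).symm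

theorem rad_const (𝕜 : Type v) [RCLike 𝕜] {X : Type u} [NormedAddCommGroup X] [NormedSpace 𝕜 X]
    (x : X) : rad (fun _ : A => x) = Fintype.card A * ‖x‖ ^ 2 := by
  have h1 : ∀ ε : A → Bool, rsum (fun _ : A => x) ε = (rsum (fun _ : A => (1 : 𝕜)) ε) • x := by
    intro ε
    unfold rsum
    rw [Finset.sum_smul]
    refine Finset.sum_congr rfl fun a _ => ?_
    unfold sgn
    split_ifs <;> simp
  have h2 := DLP.ort.{v} 𝕜 A fun _ : A => (1 : 𝕜)
  simp only [norm_one, one_pow, Finset.sum_const, Finset.card_univ, nsmul_eq_mul, mul_one] at h2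
  unfold rad
  simp only [h1, norm_smul, mul_pow]
  rw [← Finset.sum_mul, ← h2]
  ring

end rad

section fam
variable {X : Type u} [NormedAddCommGroup X] {τ : ℕ → I → Fin 2} (hτ : ∀ m, Measurable (τ m))

/-- the function `1_{b} x`, `b` a cell of level `s` -/
noncomputable def cellv (s b : ℕ) (x : X) : DiestelL2.L2V X :=
  indicatorConstLp 2 (adr_meas hτ s (measurableSet_singleton b)) (measure_ne_top _ _) x

theorem cellv_coe (s b : ℕ) (x : X) :
    ∀ᵐ ω, cellv hτ s b x ω = if adr τ s ω = b then x else 0 := by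
  filter_upwards [indicatorConstLp_coeFn (p := 2) (μ := (volume : Measure I))
    (hs := adr_meas hτ s (measurableSet_singleton b))
    (hμs := measure_ne_top _ _) (c := x)] with ω h
  unfold cellv
  rw [h]
  by_cases hω : adr τ s ω = b
  · rw [Set.indicator_of_mem (show ω ∈ adr τ s ⁻¹' {b} from hω), if_pos hω]
  · rw [Set.indicator_of_notMem (show ω ∉ adr τ s ⁻¹' {b} from hω), if_neg hω]

variable {R : Type} [Fintype R] [DecidableEq R]

/-- Rademacher average of a family of cell functions below the cell `β` of level `j`. -/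
theorem rad_fam (s : R → ℕ) (j β : ℕ) (hs : ∀ r, j ≤ s r) (ξ : R → ℕ → X) :
    ENNReal.ofReal (rad (fun a : (Σ r : R, ↥(cells j (s r) β)) =>
      cellv hτ (s a.1) a.2 (ξ a.1 a.2))) =
      ∫⁻ ω, (if adr τ j ω = β then ENNReal.ofReal (rad (fun r => ξ r (adr τ (s r) ω))) else 0) := by
  rw [(DLP.rad_proof.{u, 0, 0}).2.1]
  apply lintegral_congr_ae
  have h1 : ∀ᵐ ω, ∀ a : (Σ r : R, ↥(cells j (s r) β)),
      cellv hτ (s a.1) a.2 (ξ a.1 a.2) ω = if adr τ (s a.1) ω = a.2 then ξ a.1 a.2 else 0 := by
    rw [ae_all_iff]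
    intro a
    exact cellv_coe hτ _ _ _
  filter_upwards [h1] with ω h
  by_cases hω : adr τ j ω = β
  · rw [if_pos hω]
    congr 1
    let g : R → (Σ r : R, ↥(cells j (s r) β)) := fun r =>
      ⟨r, ⟨adr τ (s r) ω, mem_cells.2 ⟨adr_lt _ _, by rw [adr_div j (s r) (hs r), hω]⟩⟩⟩
    have hg : Function.Injective g := fun r r' h => congrArg Sigma.fst h
    rw [rad_embed _ g hg]
    · congr 1
      funext r
      rw [h]
      simp [g]
    · intro a ha
      rw [h, if_neg]
      intro h2
      apply ha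
      refine ⟨a.1, ?_⟩
      obtain ⟨r, b, hb⟩ := a
      simp only at h2
      subst h2
      rfl
  · rw [if_neg hω]
    have h3 : (fun a : (Σ r : R, ↥(cells j (s r) β)) =>
        cellv hτ (s a.1) a.2 (ξ a.1 a.2) ω) = fun _ => 0 := by
      funext a
      rw [h, if_neg]
      intro h2
      apply hω
      have h4 := (mem_cells.1 a.2.2).2
      rw [← h2, adr_div j (s a.1) (hs a.1)] at h4
      exact h4
    rw [h3, rad_zero, ENNReal.ofReal_zero]

end fam

end HLP
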