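import Pool.Agent.DLP.Defs

/-!
# The functional `rho q μ` for all exponents `q > 0`
-/

set_option autoImplicit false

open MeasureTheory
open scoped ENNReal

namespace HLP

open DLP (rho)

variable {Ω : Type*} [MeasurableSpace Ω] {μ : Measure Ω} {q : ℝ}

theorem rho_mono (hq : 0 < q) {u v : Ω → ℝ≥0∞} (h : ∀ t, u t ≤ v t) :
    rho q μ u ≤ rho q μ v := by
  unfold rho
  refine ENNReal.rpow_le_rpow (lintegral_mono fun t => ?_) (by positivity)
  exact ENNReal.rpow_le_rpow (h t) hq.le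

theorem rho_zero (hq : 0 < q) : rho q μ (fun _ => 0) = 0 := by
  unfold rho
  simp only [ENNReal.zero_rpow_of_pos hq, lintegral_zero]
  rw [ENNReal.zero_rpow_of_pos (by positivity)]

theorem rho_rpow (hq : 0 < q) (u : Ω → ℝ≥0∞) : rho q μ u ^ q = ∫⁻ t, u t ^ q ∂μ := by
  unfold rho
  rw [← ENNReal.rpow_mul, one_div_mul_cancel hq.ne', ENNReal.rpow_one]

theorem rho_mul (hq : 0 < q) (c : ℝ≥0∞) (hc : c ≠ ∞) (u : Ω → ℝ≥0∞) :
    rho q μ (fun t => c * u t) = c * rho q μ u := by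
  unfold rho
  have h1 : ∀ t, (c * u t) ^ q = c ^ q * u t ^ q := fun t =>
    ENNReal.mul_rpow_of_nonneg _ _ hq.le
  simp only [h1]
  rw [lintegral_const_mul' _ _ (ENNReal.rpow_ne_top_of_nonneg hq.le hc),
    ENNReal.mul_rpow_of_nonneg _ _ (by positivity), ← ENNReal.rpow_mul,
    mul_one_div_cancel hq.ne', ENNReal.rpow_one]

/-- The linearised functional: `∫ f w^{q-1}`. -/
theorem rho_le_lin (hq : 0 < q) (hq1 : q ≤ 1) {f w : Ω → ℝ≥0∞} (hf : AEMeasurable f μ)
    (hw : AEMeasurable w μ) (hfw : ∀ t, f t ≤ w t) (hS : ∫⁻ t, w t ^ q ∂μ ≠ ∞) :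
    rho q μ f ≤ (∫⁻ t, f t * w t ^ (q - 1) ∂μ) * (∫⁻ t, w t ^ q ∂μ) ^ ((1 - q) / q) := by
  rcases hq1.eq_or_lt with h1 | h1
  · subst h1
    simp [rho]
  have hwt : ∀ᵐ t ∂μ, w t ^ q < ∞ := ae_lt_top' (hw.pow_const q) hS
  have hint : ∫⁻ t, f t ^ q ∂μ ≤
      (∫⁻ t, f t * w t ^ (q - 1) ∂μ) ^ q * (∫⁻ t, w t ^ q ∂μ) ^ (1 - q) := by
    have hconj : (1 / q).HolderConjugate (1 / (1 - q)) := by
      have h3 : 0 < 1 - q := by linarith
      rw [Real.holderConjugate_iff]
      refine ⟨by rw [lt_div_iff₀ hq]; linarith, ?_⟩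
      field_simp
      ring
    have hm1 : AEMeasurable (fun t => (f t * w t ^ (q - 1)) ^ q) μ :=
      (hf.mul (hw.pow_const (q - 1))).pow_const q
    have hm2 : AEMeasurable (fun t => (w t ^ q) ^ (1 - q)) μ := (hw.pow_const q).pow_const _
    have hH := ENNReal.lintegral_mul_le_Lp_mul_Lq μ hconj hm1 hm2
    have e1 : ∫⁻ t, f t ^ q ∂μ = ∫⁻ t, ((fun t => (f t * w t ^ (q - 1)) ^ q) *
        fun t => (w t ^ q) ^ (1 - q)) t ∂μ := by
      refine lintegral_congr_ae ?_
      filter_upwards [hwt] with t ht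
      simp only [Pi.mul_apply]
      by_cases h0 : w t = 0
      · have hf0 : f t = 0 := le_antisymm ((hfw t).trans h0.le) zero_le
        rw [hf0, h0, ENNReal.zero_rpow_of_pos hq, zero_mul, ENNReal.zero_rpow_of_pos hq,
          zero_mul]
      · have hwtop : w t ≠ ∞ := by
          intro h
          rw [h, ENNReal.top_rpow_of_pos hq] at ht
          exact lt_irrefl _ ht
        rw [ENNReal.mul_rpow_of_nonneg _ _ hq.le, ← ENNReal.rpow_mul, ← ENNReal.rpow_mul,
          mul_assoc, ← ENNReal.rpow_add _ _ h0 hwtop]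
        have : (q - 1) * q + q * (1 - q) = 0 := by ring
        rw [this, ENNReal.rpow_zero, mul_one]
    rw [e1]
    refine hH.trans (le_of_eq ?_)
    have e2 : ∀ t, ((f t * w t ^ (q - 1)) ^ q) ^ (1 / q) = f t * w t ^ (q - 1) := fun t => by
      rw [← ENNReal.rpow_mul, mul_one_div_cancel hq.ne', ENNReal.rpow_one]
    have e3 : ∀ t, ((w t ^ q) ^ (1 - q)) ^ (1 / (1 - q)) = w t ^ q := fun t => by
      rw [← ENNReal.rpow_mul, mul_one_div_cancel (by linarith : (1 - q) ≠ 0),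
        ENNReal.rpow_one]
    simp only [e2, e3, one_div_one_div]
  unfold rho
  calc (∫⁻ t, f t ^ q ∂μ) ^ (1 / q)
      ≤ ((∫⁻ t, f t * w t ^ (q - 1) ∂μ) ^ q * (∫⁻ t, w t ^ q ∂μ) ^ (1 - q)) ^ (1 / q) :=
        ENNReal.rpow_le_rpow hint (by positivity)
    _ = _ := by
        rw [ENNReal.mul_rpow_of_nonneg _ _ (by positivity), ← ENNReal.rpow_mul,
          ← ENNReal.rpow_mul, mul_one_div_cancel hq.ne', ENNReal.rpow_one]
        congr 2
        ring

theorem mul_rpow_sub_one {w : ℝ≥0∞} (hq : 0 < q) (hw : w ≠ ∞) :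
    w * w ^ (q - 1) = w ^ q := by
  by_cases h0 : w = 0
  · rw [h0, ENNReal.zero_rpow_of_pos hq, zero_mul]
  · nth_rewrite 1 [← ENNReal.rpow_one w]
    rw [← ENNReal.rpow_add _ _ h0 hw]
    congr 1
    ring

/-- Superadditivity of `rho q μ` for `q ≤ 1` (reverse Minkowski inequality). -/
theorem rho_superadd (hq : 0 < q) (hq1 : q ≤ 1) {A : Type*} (s : Finset A)
    (u : A → Ω → ℝ≥0∞) (hu : ∀ a, AEMeasurable (u a) μ) :
    ∑ a ∈ s, rho q μ (u a) ≤ rho q μ (fun t => ∑ a ∈ s, u a t) := by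
  classical
  by_cases hS : ∫⁻ t, (∑ a ∈ s, u a t) ^ q ∂μ = ∞
  · unfold rho
    rw [hS, ENNReal.top_rpow_of_pos (by positivity)]
    exact le_top
  have hm : AEMeasurable (fun t => ∑ a ∈ s, u a t) μ := Finset.aemeasurable_fun_sum s fun a _ => hu a
  have hwt : ∀ᵐ t ∂μ, (∑ a ∈ s, u a t) ^ q < ∞ := ae_lt_top' (hm.pow_const q) hS
  calc ∑ a ∈ s, rho q μ (u a)
      ≤ ∑ a ∈ s, (∫⁻ t, u a t * (∑ a ∈ s, u a t) ^ (q - 1) ∂μ) *
          (∫⁻ t, (∑ a ∈ s, u a t) ^ q ∂μ) ^ ((1 - q) / q) := by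
        refine Finset.sum_le_sum fun a ha => ?_
        exact rho_le_lin hq hq1 (hu a) hm
          (fun t => Finset.single_le_sum (f := fun a => u a t) (fun _ _ => zero_le) ha) hS
    _ = (∫⁻ t, (∑ a ∈ s, u a t) ^ q ∂μ) * (∫⁻ t, (∑ a ∈ s, u a t) ^ q ∂μ) ^ ((1 - q) / q) := by
        rw [← Finset.sum_mul]
        have e5 := lintegral_finsetSum' (μ := μ) s
          (f := fun a t => u a t * (∑ a ∈ s, u a t) ^ (q - 1))
          fun a _ => (hu a).mul (hm.pow_const _)
        rw [← e5]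
        congr 1
        refine lintegral_congr_ae ?_
        filter_upwards [hwt] with t ht
        rw [← Finset.sum_mul]
        refine mul_rpow_sub_one hq ?_
        intro h
        rw [h, ENNReal.top_rpow_of_pos hq] at ht
        exact lt_irrefl _ ht
    _ = rho q μ (fun t => ∑ a ∈ s, u a t) := by
        unfold rho
        by_cases h0 : ∫⁻ t, (∑ a ∈ s, u a t) ^ q ∂μ = 0
        · rw [h0, zero_mul, ENNReal.zero_rpow_of_pos (by positivity)]
        · nth_rewrite 1 [← ENNReal.rpow_one (∫⁻ t, (∑ a ∈ s, u a t) ^ q ∂μ)]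
          rw [← ENNReal.rpow_add _ _ h0 hS]
          congr 1
          field_simp
          ring

/-- Subadditivity of `rho q μ` for `q ≥ 1` (Minkowski inequality). -/
theorem rho_subadd (hq : 1 ≤ q) {A : Type*} (s : Finset A)
    (u : A → Ω → ℝ≥0∞) (hu : ∀ a, AEMeasurable (u a) μ) :
    rho q μ (fun t => ∑ a ∈ s, u a t) ≤ ∑ a ∈ s, rho q μ (u a) := by
  classical
  induction s using Finset.induction_on with
  | empty =>
    simp only [Finset.sum_empty]
    rw [rho_zero (by linarith)]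
  | insert a s ha ih =>
    simp only [Finset.sum_insert ha]
    have h2 : AEMeasurable (fun t => ∑ a ∈ s, u a t) μ :=
      Finset.aemeasurable_fun_sum s fun a _ => hu a
    have h := ENNReal.lintegral_Lp_add_le (μ := μ) (hu a) h2 hq
    exact h.trans (add_le_add le_rfl ih)

/-- Quasi-triangle inequality for `1/2 ≤ q ≤ 1`, finite sums. -/
theorem rho_quasi (hq : 1 / 2 ≤ q) (hq1 : q ≤ 1) {A : Type*} (s : Finset A)
    (u : A → Ω → ℝ≥0∞) (hu : ∀ a, AEMeasurable (u a) μ) :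
    rho q μ (fun t => ∑ a ∈ s, u a t) ≤ s.card * ∑ a ∈ s, rho q μ (u a) := by
  classical
  have hq0 : 0 < q := by linarith
  rcases s.eq_empty_or_nonempty with rfl | hne
  · simp only [Finset.sum_empty]
    rw [rho_zero hq0]
    simp
  have h1 : ∫⁻ t, (∑ a ∈ s, u a t) ^ q ∂μ ≤ ∑ a ∈ s, rho q μ (u a) ^ q := by
    have h2 : ∀ t, (∑ a ∈ s, u a t) ^ q ≤ ∑ a ∈ s, u a t ^ q := by
      intro t
      clear hne
      induction s using Finset.induction_on with
      | empty => simp [ENNReal.zero_rpow_of_pos hq0]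
      | insert a s ha ih =>
        rw [Finset.sum_insert ha, Finset.sum_insert ha]
        exact (ENNReal.rpow_add_le_add_rpow _ _ hq0.le hq1).trans (add_le_add le_rfl ih)
    refine (lintegral_mono h2).trans ?_
    rw [lintegral_finsetSum' _ fun a _ => (hu a).pow_const q]
    exact Finset.sum_le_sum fun a _ => (rho_rpow hq0 _).symm.le
  have hr : 1 ≤ 1 / q := by rw [le_div_iff₀ hq0]; linarith
  have h3 : rho q μ (fun t => ∑ a ∈ s, u a t) ≤ (∑ a ∈ s, rho q μ (u a) ^ q) ^ (1 / q) :=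
    ENNReal.rpow_le_rpow h1 (by positivity)
  have h4 := ENNReal.rpow_sum_le_const_mul_sum_rpow s (fun a => rho q μ (u a) ^ q) hr
  have h5 : ∀ a, (rho q μ (u a) ^ q) ^ (1 / q) = rho q μ (u a) := fun a => by
    rw [← ENNReal.rpow_mul, mul_one_div_cancel hq0.ne', ENNReal.rpow_one]
  simp only [h5] at h4
  refine h3.trans (h4.trans ?_)
  refine mul_le_mul' ?_ le_rfl
  have hc : (1 : ℝ≥0∞) ≤ s.card := by
    exact_mod_cast hne.card_pos
  calc (s.card : ℝ≥0∞) ^ (1 / q - 1) ≤ (s.card : ℝ≥0∞) ^ (1 : ℝ) := by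
        refine ENNReal.rpow_le_rpow_of_exponent_le hc ?_
        rw [sub_le_iff_le_add, div_le_iff₀ hq0]
        linarith
    _ = s.card := ENNReal.rpow_one _

theorem rho_add_le (hq : 1 / 2 ≤ q) {u v : Ω → ℝ≥0∞} (hu : AEMeasurable u μ)
    (hv : AEMeasurable v μ) : rho q μ (fun t => u t + v t) ≤ 2 * (rho q μ u + rho q μ v) := by
  rcases le_total q 1 with h1 | h1
  · have h := rho_quasi (μ := μ) hq h1 (Finset.univ : Finset (Fin 2)) ![u, v] (by
      intro a; fin_cases a <;> assumption)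
    simpa [Fin.sum_univ_two] using h
  · have h := rho_subadd (μ := μ) h1 (Finset.univ : Finset (Fin 2)) ![u, v] (by
      intro a; fin_cases a <;> assumption)
    have h2 : rho q μ (fun t => u t + v t) ≤ rho q μ u + rho q μ v := by
      simpa [Fin.sum_univ_two] using h
    refine h2.trans ?_
    nth_rewrite 1 [← one_mul (rho q μ u + rho q μ v)]
    gcongr
    norm_num

end HLP
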