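import Pool.Agent.HLP.Rho

/-!
# Random selections: pointwise moment estimates
-/

set_option autoImplicit false

open MeasureTheory
open scoped ENNReal

namespace HLP

open DLP (rho)

variable {κ : Type*} [Fintype κ] [DecidableEq κ]

/-- average over all selections `σ : κ → Fin n` -/
noncomputable def avg (n : ℕ) (F : (κ → Fin n) → ℝ≥0∞) : ℝ≥0∞ :=
  (∑ σ, F σ) / (n : ℝ≥0∞) ^ (Fintype.card κ)

theorem prod_avg (n : ℕ) (h : Fin n → κ → ℝ) :
    ∑ σ : κ → Fin n, ∏ l, h (σ l) l = ∏ l, ∑ i, h i l := by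
  rw [Finset.prod_univ_sum]
  simp only [Fintype.piFinset_univ]

theorem exp_le_chord {z : ℝ} (h0 : 0 ≤ z) (h1 : z ≤ 1) : Real.exp z ≤ 1 + 2 * z := by
  have h := (convexOn_exp).2 (Set.mem_univ (0 : ℝ)) (Set.mem_univ (1 : ℝ))
    (by linarith : (0 : ℝ) ≤ 1 - z) h0 (by ring)
  simp only [smul_eq_mul, mul_zero, mul_one, zero_add, Real.exp_zero] at h
  have he := Real.exp_one_lt_d9
  have : z * Real.exp 1 ≤ z * 3 := by gcongr; linarith
  linarith

theorem exp_neg_le_chord {z : ℝ} (h0 : 0 ≤ z) (h1 : z ≤ 1) : Real.exp (-z) ≤ 1 - z / 2 := by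
  have h := (convexOn_exp).2 (Set.mem_univ (0 : ℝ)) (Set.mem_univ (-1 : ℝ))
    (by linarith : (0 : ℝ) ≤ 1 - z) h0 (by ring)
  simp only [smul_eq_mul, mul_zero, mul_one, zero_add, Real.exp_zero, mul_neg] at h
  have he := Real.exp_one_gt_d9
  have he2 : Real.exp (-1) ≤ 1 / 2 := by
    rw [Real.exp_neg]
    rw [inv_le_comm₀ (by positivity) (by norm_num)]
    norm_num
    linarith
  have : z * Real.exp (-1) ≤ z * (1 / 2) := by gcongr
  linarith

theorem avg_exp_le (n : ℕ) (hn : 1 ≤ n) (z : Fin n → κ → ℝ) (h0 : ∀ i l, 0 ≤ z i l)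
    (h1 : ∀ i l, z i l ≤ 1) (hs : ∑ l, ∑ i, z i l = n) :
    ∑ σ : κ → Fin n, Real.exp (∑ l, z (σ l) l) ≤ Real.exp 2 * n ^ (Fintype.card κ) := by
  have hn0 : (0 : ℝ) < n := by exact_mod_cast hn
  have e1 : ∑ σ : κ → Fin n, Real.exp (∑ l, z (σ l) l) = ∏ l, ∑ i, Real.exp (z i l) := by
    rw [← prod_avg n fun i l => Real.exp (z i l)]
    exact Finset.sum_congr rfl fun σ _ => Real.exp_sum _ _
  rw [e1]
  have h2 : ∀ l, ∑ i, Real.exp (z i l) ≤ n * Real.exp (2 * (∑ i, z i l) / n) := by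
    intro l
    calc ∑ i, Real.exp (z i l) ≤ ∑ i : Fin n, (1 + 2 * z i l) :=
          Finset.sum_le_sum fun i _ => exp_le_chord (h0 i l) (h1 i l)
      _ = n * (2 * (∑ i, z i l) / n + 1) := by
          rw [Finset.sum_add_distrib, ← Finset.mul_sum]
          simp
          field_simp
          ring
      _ ≤ n * Real.exp (2 * (∑ i, z i l) / n) := by
          gcongr
          exact Real.add_one_le_exp _
  calc ∏ l, ∑ i, Real.exp (z i l) ≤ ∏ l, (n * Real.exp (2 * (∑ i, z i l) / n)) :=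
        Finset.prod_le_prod (fun l _ => Finset.sum_nonneg fun i _ => (Real.exp_pos _).le)
          fun l _ => h2 l
    _ = Real.exp 2 * n ^ (Fintype.card κ) := by
        rw [Finset.prod_mul_distrib, ← Real.exp_sum, Finset.prod_const, Finset.card_univ,
          ← Finset.sum_div, ← Finset.mul_sum, hs, mul_div_cancel_right₀ _ hn0.ne', mul_comm]

theorem avg_exp_neg_le (n : ℕ) (hn : 1 ≤ n) (z : Fin n → κ → ℝ) (h0 : ∀ i l, 0 ≤ z i l)
    (h1 : ∀ i l, z i l ≤ 1) (hs : ∑ l, ∑ i, z i l = n) :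
    ∑ σ : κ → Fin n, Real.exp (-∑ l, z (σ l) l) ≤ 3 / 4 * n ^ (Fintype.card κ) := by
  have hn0 : (0 : ℝ) < n := by exact_mod_cast hn
  have e1 : ∑ σ : κ → Fin n, Real.exp (-∑ l, z (σ l) l) = ∏ l, ∑ i, Real.exp (-z i l) := by
    rw [← prod_avg n fun i l => Real.exp (-z i l)]
    refine Finset.sum_congr rfl fun σ _ => ?_
    rw [← Finset.sum_neg_distrib, Real.exp_sum]
  rw [e1]
  have h2 : ∀ l, ∑ i, Real.exp (-z i l) ≤ n * Real.exp (-((∑ i, z i l) / n) / 2) := by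
    intro l
    calc ∑ i, Real.exp (-z i l) ≤ ∑ i : Fin n, (1 - z i l / 2) :=
          Finset.sum_le_sum fun i _ => exp_neg_le_chord (h0 i l) (h1 i l)
      _ = n * (-((∑ i, z i l) / n) / 2 + 1) := by
          rw [Finset.sum_sub_distrib, ← Finset.sum_div]
          simp
          field_simp
          ring
      _ ≤ n * Real.exp (-((∑ i, z i l) / n) / 2) := by
          gcongr
          exact Real.add_one_le_exp _
  calc ∏ l, ∑ i, Real.exp (-z i l) ≤ ∏ l, (n * Real.exp (-((∑ i, z i l) / n) / 2)) :=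
        Finset.prod_le_prod (fun l _ => Finset.sum_nonneg fun i _ => (Real.exp_pos _).le)
          fun l _ => h2 l
    _ = Real.exp (-1 / 2) * n ^ (Fintype.card κ) := by
        rw [Finset.prod_mul_distrib, ← Real.exp_sum, Finset.prod_const, Finset.card_univ,
          ← Finset.sum_div, Finset.sum_neg_distrib, ← Finset.sum_div, hs,
          div_self hn0.ne', mul_comm]
    _ ≤ 3 / 4 * n ^ (Fintype.card κ) := by
        gcongr
        have h3 := exp_neg_le_chord (z := 1 / 2) (by norm_num) (by norm_num)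
        rw [show (-1 / 2 : ℝ) = -(1 / 2) by norm_num]
        linarith

/-- Lower estimate, real form. -/
theorem lln_low_real (n : ℕ) (hn : 1 ≤ n) (z : Fin n → κ → ℝ) (h0 : ∀ i l, 0 ≤ z i l)
    (h1 : ∀ i l, z i l ≤ 1) (hs : ∑ l, ∑ i, z i l = n) (q : ℝ) (hq : 0 < q) (hq1 : q ≤ 1) :
    1 / 4 * n ^ (Fintype.card κ) ≤ ∑ σ : κ → Fin n, (∑ l, z (σ l) l) ^ q := by
  have h2 : ∀ y : ℝ, 0 ≤ y → 1 - Real.exp (-y) ≤ y ^ q := by
    intro y hy
    rcases le_total y 1 with h | h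
    · calc 1 - Real.exp (-y) ≤ y := by linarith [Real.add_one_le_exp (-y)]
        _ = y ^ (1 : ℝ) := (Real.rpow_one y).symm
        _ ≤ y ^ q := by
            rcases hy.eq_or_lt with h3 | h3
            · rw [← h3, Real.zero_rpow one_ne_zero, Real.zero_rpow hq.ne']
            · exact Real.rpow_le_rpow_of_exponent_ge h3 h hq1
    · calc 1 - Real.exp (-y) ≤ 1 := by linarith [Real.exp_pos (-y)]
        _ ≤ y ^ q := Real.one_le_rpow h hq.le
  have h3 : ∑ σ : κ → Fin n, (1 - Real.exp (-∑ l, z (σ l) l)) ≤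
      ∑ σ : κ → Fin n, (∑ l, z (σ l) l) ^ q :=
    Finset.sum_le_sum fun σ _ => h2 _ (Finset.sum_nonneg fun l _ => h0 _ _)
  refine le_trans ?_ h3
  rw [Finset.sum_sub_distrib]
  have h4 := avg_exp_neg_le n hn z h0 h1 hs
  simp only [Finset.sum_const, Finset.card_univ, Fintype.card_fun, Fintype.card_fin, nsmul_eq_mul,
    mul_one]
  push_cast
  linarith

/-- Upper estimate, real form. -/
theorem lln_up_real (n : ℕ) (hn : 1 ≤ n) (z : Fin n → κ → ℝ) (h0 : ∀ i l, 0 ≤ z i l)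
    (h1 : ∀ i l, z i l ≤ 1) (hs : ∑ l, ∑ i, z i l = n) (q : ℝ) (m : ℕ) (hq : 0 ≤ q)
    (hqm : q ≤ m) :
    ∑ σ : κ → Fin n, (∑ l, z (σ l) l) ^ q ≤
      (m.factorial : ℝ) * Real.exp 2 * n ^ (Fintype.card κ) := by
  have hf : (1 : ℝ) ≤ m.factorial := by exact_mod_cast Nat.factorial_pos m
  have h2 : ∀ y : ℝ, 0 ≤ y → y ^ q ≤ m.factorial * Real.exp y := by
    intro y hy
    rcases le_total y 1 with h | h
    · calc y ^ q ≤ 1 := Real.rpow_le_one hy h hq
        _ ≤ 1 * Real.exp y := by rw [one_mul]; exact Real.one_le_exp hy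
        _ ≤ m.factorial * Real.exp y := by gcongr
    · calc y ^ q ≤ y ^ (m : ℝ) := Real.rpow_le_rpow_of_exponent_le h hqm
        _ = y ^ m := Real.rpow_natCast y m
        _ = m.factorial * (y ^ m / m.factorial) := by field_simp
        _ ≤ m.factorial * Real.exp y := by
            gcongr
            exact Real.pow_div_factorial_le_exp y hy m
  calc ∑ σ : κ → Fin n, (∑ l, z (σ l) l) ^ q
      ≤ ∑ σ : κ → Fin n, m.factorial * Real.exp (∑ l, z (σ l) l) :=
        Finset.sum_le_sum fun σ _ => h2 _ (Finset.sum_nonneg fun l _ => h0 _ _)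
    _ = m.factorial * ∑ σ : κ → Fin n, Real.exp (∑ l, z (σ l) l) := (Finset.mul_sum _ _ _).symm
    _ ≤ m.factorial * (Real.exp 2 * n ^ (Fintype.card κ)) := by
        gcongr
        exact avg_exp_le n hn z h0 h1 hs
    _ = _ := by ring

section ennreal

variable (n : ℕ) (hn : 1 ≤ n) (U : Fin n → κ → ℝ≥0∞)

omit [DecidableEq κ] in
/-- normalised real values -/
theorem norm_data (hn : 1 ≤ n) (hW : ∑ l, ∑ i, U i l ≠ ∞) (hW0 : ∑ l, ∑ i, U i l ≠ 0)
    (hb : ∀ l, n * ∑ i, U i l ≤ ∑ l, ∑ i, U i l) :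
    ∃ (m : ℝ) (z : Fin n → κ → ℝ), 0 < m ∧ (∀ i l, 0 ≤ z i l) ∧ (∀ i l, z i l ≤ 1) ∧
      (∑ l, ∑ i, z i l = n) ∧ (∑ l, ∑ i, U i l) / n = ENNReal.ofReal m ∧
      ∀ i l, U i l = ENNReal.ofReal (m * z i l) := by
  have hn0 : (0 : ℝ) < n := by exact_mod_cast hn
  have hUt : ∀ i l, U i l ≠ ∞ := by
    intro i l
    refine ne_top_of_le_ne_top hW ?_
    exact (Finset.single_le_sum (f := fun i => U i l) (fun _ _ => zero_le)
      (Finset.mem_univ i)).trans
      (Finset.single_le_sum (f := fun l => ∑ i, U i l) (fun _ _ => zero_le) (Finset.mem_univ l))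
  set W : ℝ := (∑ l, ∑ i, U i l).toReal with hWdef
  have hWpos : 0 < W := ENNReal.toReal_pos hW0 hW
  have hWsum : W = ∑ l, ∑ i, (U i l).toReal := by
    rw [hWdef, ENNReal.toReal_sum (fun l _ => by
      rw [ENNReal.sum_ne_top]; exact fun i _ => hUt i l)]
    exact Finset.sum_congr rfl fun l _ => ENNReal.toReal_sum fun i _ => hUt i l
  refine ⟨W / n, fun i l => (U i l).toReal / (W / n), by positivity, fun i l => by positivity,
    ?_, ?_, ?_, ?_⟩
  · intro i l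
    rw [div_le_one (by positivity), le_div_iff₀ hn0]
    have h1 := ENNReal.toReal_mono hW (hb l)
    rw [ENNReal.toReal_mul, ENNReal.toReal_natCast,
      ENNReal.toReal_sum fun i _ => hUt i l] at h1
    have h2 : (U i l).toReal ≤ ∑ i, (U i l).toReal :=
      Finset.single_le_sum (f := fun i => (U i l).toReal) (fun _ _ => ENNReal.toReal_nonneg)
        (Finset.mem_univ i)
    calc (U i l).toReal * n ≤ n * ∑ i, (U i l).toReal := by
          rw [mul_comm]; gcongr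
      _ ≤ W := h1
  · simp_rw [← Finset.sum_div]
    rw [← hWsum]
    field_simp
  · rw [ENNReal.ofReal_div_of_pos hn0, ENNReal.ofReal_natCast, hWdef, ENNReal.ofReal_toReal hW]
  · intro i l
    rw [mul_div_cancel₀ _ (by positivity : W / n ≠ 0), ENNReal.ofReal_toReal (hUt i l)]

theorem lln_low (hn : 1 ≤ n) (hW : ∑ l, ∑ i, U i l ≠ ∞)
    (hb : ∀ l, n * ∑ i, U i l ≤ ∑ l, ∑ i, U i l) (q : ℝ) (hq : 0 < q) (hq1 : q ≤ 1) :
    1 / 4 * ((∑ l, ∑ i, U i l) / n) ^ q ≤ avg n fun σ : κ → Fin n => (∑ l, U (σ l) l) ^ q := by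
  have hn0 : (0 : ℝ) < n := by exact_mod_cast hn
  by_cases hW0 : ∑ l, ∑ i, U i l = 0
  · rw [hW0, ENNReal.zero_div, ENNReal.zero_rpow_of_pos hq, mul_zero]
    exact zero_le
  obtain ⟨m, z, hm, hz0, hz1, hzs, hm2, hU⟩ := norm_data n U hn hW hW0 hb
  have h := lln_low_real n hn z hz0 hz1 hzs q hq hq1
  have e1 : ∀ σ : κ → Fin n, (∑ l, U (σ l) l) ^ q =
      ENNReal.ofReal (m ^ q * (∑ l, z (σ l) l) ^ q) := by
    intro σ
    have h0 : ∀ l, 0 ≤ m * z (σ l) l := fun l => mul_nonneg hm.le (hz0 _ _)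
    simp_rw [hU]
    rw [← ENNReal.ofReal_sum_of_nonneg fun l _ => h0 l, ← Finset.mul_sum,
      ENNReal.ofReal_rpow_of_nonneg (mul_nonneg hm.le (Finset.sum_nonneg fun l _ => hz0 _ _))
        hq.le, Real.mul_rpow hm.le (Finset.sum_nonneg fun l _ => hz0 _ _)]
  unfold avg
  simp_rw [e1]
  rw [hm2, ENNReal.ofReal_rpow_of_nonneg hm.le hq.le,
    ← ENNReal.ofReal_sum_of_nonneg fun σ _ => mul_nonneg (Real.rpow_nonneg hm.le _)
      (Real.rpow_nonneg (Finset.sum_nonneg fun l _ => hz0 _ _) _), ← Finset.mul_sum]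
  rw [ENNReal.le_div_iff_mul_le (Or.inl (by simp; omega)) (Or.inl (by simp))]
  rw [show (1 / 4 : ℝ≥0∞) = ENNReal.ofReal (1 / 4) by
    rw [ENNReal.ofReal_div_of_pos (by norm_num)]; simp,
    show (n : ℝ≥0∞) ^ (Fintype.card κ) = ENNReal.ofReal ((n : ℝ) ^ (Fintype.card κ)) by
      rw [ENNReal.ofReal_pow hn0.le, ENNReal.ofReal_natCast],
    ← ENNReal.ofReal_mul (by norm_num), ← ENNReal.ofReal_mul (by positivity)]
  refine ENNReal.ofReal_le_ofReal ?_
  calc 1 / 4 * m ^ q * n ^ (Fintype.card κ) = m ^ q * (1 / 4 * n ^ (Fintype.card κ)) := by ring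
    _ ≤ _ := by gcongr

theorem lln_up (hn : 1 ≤ n) (hW : ∑ l, ∑ i, U i l ≠ ∞)
    (hb : ∀ l, n * ∑ i, U i l ≤ ∑ l, ∑ i, U i l) (q : ℝ) (m : ℕ) (hq : 0 < q) (hqm : q ≤ m) :
    (avg n fun σ : κ → Fin n => (∑ l, U (σ l) l) ^ q) ≤
      ENNReal.ofReal (m.factorial * Real.exp 2) * ((∑ l, ∑ i, U i l) / n) ^ q := by
  have hn0 : (0 : ℝ) < n := by exact_mod_cast hn
  by_cases hW0 : ∑ l, ∑ i, U i l = 0
  · have hz : ∀ i l, U i l = 0 := by
      intro i l
      have h1 := (Finset.sum_eq_zero_iff.1 hW0) l (Finset.mem_univ l)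
      exact (Finset.sum_eq_zero_iff.1 h1) i (Finset.mem_univ i)
    unfold avg
    simp [hz, ENNReal.zero_rpow_of_pos hq]
  obtain ⟨b, z, hm, hz0, hz1, hzs, hm2, hU⟩ := norm_data n U hn hW hW0 hb
  have h := lln_up_real n hn z hz0 hz1 hzs q m hq.le hqm
  have e1 : ∀ σ : κ → Fin n, (∑ l, U (σ l) l) ^ q =
      ENNReal.ofReal (b ^ q * (∑ l, z (σ l) l) ^ q) := by
    intro σ
    have h0 : ∀ l, 0 ≤ b * z (σ l) l := fun l => mul_nonneg hm.le (hz0 _ _)
    simp_rw [hU]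
    rw [← ENNReal.ofReal_sum_of_nonneg fun l _ => h0 l, ← Finset.mul_sum,
      ENNReal.ofReal_rpow_of_nonneg (mul_nonneg hm.le (Finset.sum_nonneg fun l _ => hz0 _ _))
        hq.le, Real.mul_rpow hm.le (Finset.sum_nonneg fun l _ => hz0 _ _)]
  unfold avg
  simp_rw [e1]
  rw [hm2, ENNReal.ofReal_rpow_of_nonneg hm.le hq.le,
    ← ENNReal.ofReal_sum_of_nonneg fun σ _ => mul_nonneg (Real.rpow_nonneg hm.le _)
      (Real.rpow_nonneg (Finset.sum_nonneg fun l _ => hz0 _ _) _), ← Finset.mul_sum]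
  rw [ENNReal.div_le_iff_le_mul (Or.inl (by simp; omega)) (Or.inl (by simp))]
  rw [show (n : ℝ≥0∞) ^ (Fintype.card κ) = ENNReal.ofReal ((n : ℝ) ^ (Fintype.card κ)) by
      rw [ENNReal.ofReal_pow hn0.le, ENNReal.ofReal_natCast],
    ← ENNReal.ofReal_mul (by positivity), ← ENNReal.ofReal_mul (by positivity)]
  refine ENNReal.ofReal_le_ofReal ?_
  calc b ^ q * ∑ σ : κ → Fin n, (∑ l, z (σ l) l) ^ q
      ≤ b ^ q * (m.factorial * Real.exp 2 * n ^ (Fintype.card κ)) := by gcongr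
    _ = _ := by ring

end ennreal

end HLP
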