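import Pool.Agent.HLP.Near3
import Pool.Agent.HLP.Esc

/-!
# Energy systems
-/

set_option autoImplicit false

open MeasureTheory
open scoped ENNReal

namespace HLP

open DLP (rho)

universe w

/-- descendants at level `j'` of the cell `β` of level `j` -/
def cells (j j' β : ℕ) : Finset ℕ := (Finset.range (2 ^ j')).filter fun l => l / 2 ^ (j' - j) = β

theorem mem_cells {j j' β l : ℕ} : l ∈ cells j j' β ↔ l < 2 ^ j' ∧ l / 2 ^ (j' - j) = β := by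
  unfold cells
  rw [Finset.mem_filter, Finset.mem_range]

theorem div_lt {j j' l : ℕ} (hj : j ≤ j') (hl : l < 2 ^ j') : l / 2 ^ (j' - j) < 2 ^ j := by
  rw [Nat.div_lt_iff_lt_mul (by positivity), ← pow_add]
  have : j + (j' - j) = j' := by omega
  rwa [this]

theorem sum_cells {E : Type*} [AddCommMonoid E] {j j' : ℕ} (hj : j ≤ j') (f : ℕ → E) :
    ∑ β ∈ Finset.range (2 ^ j), ∑ l ∈ cells j j' β, f l = ∑ l ∈ Finset.range (2 ^ j'), f l := by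
  unfold cells
  rw [Finset.sum_fiberwise_of_maps_to]
  intro l hl
  rw [Finset.mem_range] at hl ⊢
  exact div_lt hj hl

theorem sum_cells_cells {E : Type*} [AddCommMonoid E] {j j' j'' : ℕ} (hj : j ≤ j')
    (hj' : j' ≤ j'') (β : ℕ) (f : ℕ → E) :
    ∑ l ∈ cells j j' β, ∑ b ∈ cells j' j'' l, f b = ∑ b ∈ cells j j'' β, f b := by
  have hdd : ∀ b : ℕ, b / 2 ^ (j'' - j') / 2 ^ (j' - j) = b / 2 ^ (j'' - j) := by
    intro b
    rw [Nat.div_div_eq_div_mul, ← pow_add]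
    congr 2
    omega
  have h : ∀ l ∈ cells j j' β, cells j' j'' l = (cells j j'' β).filter fun b =>
      b / 2 ^ (j'' - j') = l := by
    intro l hl
    ext b
    rw [Finset.mem_filter, mem_cells, mem_cells]
    rw [mem_cells] at hl
    constructor
    · rintro ⟨h1, h2⟩
      refine ⟨⟨h1, ?_⟩, h2⟩
      rw [← hdd, h2]
      exact hl.2
    · rintro ⟨⟨h1, _⟩, h3⟩
      exact ⟨h1, h3⟩
  rw [Finset.sum_congr rfl fun l hl => by rw [h l hl]]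
  rw [Finset.sum_fiberwise_of_maps_to]
  intro b hb
  rw [mem_cells] at hb ⊢
  exact ⟨div_lt hj' hb.1, by rw [hdd]; exact hb.2⟩

/-- An energy system: `M s i j β k` is the square function, in the `k`-th coordinate, of the
family of the vectors `1_b x_i`, `b` a cell of level `s` contained in the cell `β` of level `j`. -/
structure Sys {ι : Type} (Ω : ι → Type w) [∀ k, MeasurableSpace (Ω k)]
    (μ : ∀ k, Measure (Ω k)) (q : ι → ℝ) (n : ℕ) [NeZero n] (D C : ℝ≥0∞) where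
  M : ℕ → Fin n → ℕ → ℕ → ∀ k, Ω k → ℝ≥0∞
  meas : ∀ s i j β k, Measurable (M s i j β k)
  split : ∀ s i j j' β k t, j ≤ j' → j' ≤ s → M s i j β k t = ∑ l ∈ cells j j' β, M s i j' l k t
  one_le : ∀ s i j β, β < 2 ^ j → j ≤ s →
    ∑' k, rho (q k) (μ k) (M s i j β k) ≤ C * (2⁻¹ : ℝ≥0∞) ^ j
  shift_le : ∀ (s : Fin n → ℕ) (a : Fin n) (j β : ℕ), β < 2 ^ j → (∀ r, j ≤ s r) →
    ∑' k, rho (q k) (μ k) (fun t => ∑ r, M (s r) (r + a) j β k t) ≤ C * ((2⁻¹ : ℝ≥0∞) ^ j * D)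
  shift_ge : ∀ (s : Fin n → ℕ) (a : Fin n) (j β : ℕ), β < 2 ^ j → (∀ r, j ≤ s r) →
    (2⁻¹ : ℝ≥0∞) ^ j * D ≤ C * ∑' k, rho (q k) (μ k) (fun t => ∑ r, M (s r) (r + a) j β k t)
  full_le : ∀ (s : Fin n → ℕ) (j β : ℕ), β < 2 ^ j → (∀ r, j ≤ s r) →
    ∑' k, rho (q k) (μ k) (fun t => ∑ r, ∑ i, M (s r) i j β k t) ≤
      C * ((2⁻¹ : ℝ≥0∞) ^ j * (n * D))
  sel_le : ∀ (s : Fin n → ℕ) (σ : ℕ → Fin n) (j j' β : ℕ), β < 2 ^ j → j ≤ j' → (∀ r, j' ≤ s r) →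
    ∑' k, rho (q k) (μ k) (fun t => ∑ l ∈ cells j j' β, ∑ r, M (s r) (σ l) j' l k t) ≤
      C * ((2⁻¹ : ℝ≥0∞) ^ j * n)
  sel_ge : ∀ (s : Fin n → ℕ) (σ : ℕ → Fin n) (j j' β : ℕ), β < 2 ^ j → j ≤ j' → (∀ r, j' ≤ s r) →
    (2⁻¹ : ℝ≥0∞) ^ j * n ≤
      C * ∑' k, rho (q k) (μ k) (fun t => ∑ l ∈ cells j j' β, ∑ r, M (s r) (σ l) j' l k t)

theorem half_pow (j : ℕ) : (2 ^ j : ℕ) * (2⁻¹ : ℝ≥0∞) ^ j = 1 := by
  push_cast
  rw [← mul_pow, ENNReal.mul_inv_cancel (by simp) (by simp), one_pow]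

theorem sum_half (j : ℕ) (c : ℝ≥0∞) :
    ∑ _β ∈ Finset.range (2 ^ j), (2⁻¹ : ℝ≥0∞) ^ j * c = c := by
  rw [Finset.sum_const, Finset.card_range, nsmul_eq_mul, ← mul_assoc, half_pow, one_mul]

namespace Sys

variable {ι : Type} {Ω : ι → Type w} [∀ k, MeasurableSpace (Ω k)]
    {μ : ∀ k, Measure (Ω k)} {q : ι → ℝ} {n : ℕ} [NeZero n] {D C : ℝ≥0∞}
    (S : Sys Ω μ q n D C)

/-- shifted family -/
noncomputable def G (s : Fin n → ℕ) (a : Fin n) (j β : ℕ) (k : ι) : Ω k → ℝ≥0∞ :=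
  fun t => ∑ r, S.M (s r) (r + a) j β k t

/-- full family -/
noncomputable def W (s : Fin n → ℕ) (j β : ℕ) (k : ι) : Ω k → ℝ≥0∞ :=
  fun t => ∑ r, ∑ i, S.M (s r) i j β k t

/-- level sums -/
noncomputable def e (s : ℕ) (i : Fin n) (j : ℕ) (k : ι) : ℝ≥0∞ :=
  ∑ β ∈ Finset.range (2 ^ j), rho (q k) (μ k) (S.M s i j β k)

theorem meas_G (s : Fin n → ℕ) (a : Fin n) (j β : ℕ) (k : ι) : Measurable (S.G s a j β k) :=
  Finset.measurable_fun_sum _ fun _ _ => S.meas _ _ _ _ _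

theorem meas_W (s : Fin n → ℕ) (j β : ℕ) (k : ι) : Measurable (S.W s j β k) :=
  Finset.measurable_fun_sum _ fun _ _ => Finset.measurable_fun_sum _ fun _ _ => S.meas _ _ _ _ _

theorem sum_G (s : Fin n → ℕ) (j β : ℕ) (k : ι) (t : Ω k) :
    ∑ a, S.G s a j β k t = S.W s j β k t := by
  unfold G W
  rw [Finset.sum_comm]
  refine Finset.sum_congr rfl fun r _ => ?_
  exact Equiv.sum_comp (Equiv.addLeft r) fun i => S.M (s r) i j β k t

theorem split_W (s : Fin n → ℕ) (j j' β : ℕ) (k : ι) (t : Ω k) (hj : j ≤ j')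
    (hs : ∀ r, j' ≤ s r) : S.W s j β k t = ∑ l ∈ cells j j' β, S.W s j' l k t := by
  unfold W
  symm
  rw [Finset.sum_comm]
  refine Finset.sum_congr rfl fun r _ => ?_
  rw [Finset.sum_comm]
  refine Finset.sum_congr rfl fun i _ => ?_
  exact (S.split _ _ _ _ _ _ _ hj (hs r)).symm

theorem e_sum (s : ℕ) (i : Fin n) (j : ℕ) (hj : j ≤ s) : ∑' k, S.e s i j k ≤ C := by
  unfold e
  rw [Summable.tsum_finsetSum fun _ _ => ENNReal.summable]
  refine (Finset.sum_le_sum fun β hβ => S.one_le s i j β (Finset.mem_range.1 hβ) hj).trans ?_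
  rw [Finset.sum_congr rfl fun β _ => mul_comm C _, sum_half]

theorem e_up (k : ι) (hk : 1 ≤ q k) (s : ℕ) (i : Fin n) (j j' : ℕ)
    (hj : j ≤ j') (hs : j' ≤ s) : S.e s i j k ≤ S.e s i j' k := by
  unfold e
  rw [← sum_cells hj]
  refine Finset.sum_le_sum fun β _ => ?_
  have h := rho_subadd (μ := μ k) hk (cells j j' β) (fun l => S.M s i j' l k)
    fun l => (S.meas _ _ _ _ _).aemeasurable
  refine le_trans (le_of_eq ?_) h
  congr 1
  funext t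
  exact S.split _ _ _ _ _ _ _ hj hs

theorem e_down (hq : ∀ k, 1 / 2 ≤ q k) (k : ι) (hk : q k ≤ 1) (s : ℕ) (i : Fin n) (j j' : ℕ)
    (hj : j ≤ j') (hs : j' ≤ s) : S.e s i j' k ≤ S.e s i j k := by
  unfold e
  rw [← sum_cells hj]
  refine Finset.sum_le_sum fun β _ => ?_
  have h := rho_superadd (μ := μ k) (by linarith [hq k]) hk (cells j j' β)
    (fun l => S.M s i j' l k) fun l => (S.meas _ _ _ _ _).aemeasurable
  refine h.trans (le_of_eq ?_)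
  congr 1
  funext t
  exact (S.split _ _ _ _ _ _ _ hj hs).symm

/-- levels and blocks -/
theorem levels (hq : ∀ k, 1 / 2 ≤ q k) (hC : C ≠ ∞) (η : ℝ≥0∞) (hη : η ≠ 0) :
    ∃ F : Finset ι, ∀ J : ℕ, ∃ (s : Fin n → ℕ) (L : Fin n → Finset ι), (∀ r, J ≤ s r) ∧
      (∀ r, Disjoint (L r) F) ∧ (∀ r r', r ≠ r' → Disjoint (L r) (L r')) ∧
      ∀ r i j, j ≤ J → ∀ t : Finset ι, (∀ k ∈ t, k ∉ F ∧ k ∉ L r) →
        ∑ k ∈ t, S.e (s r) i j k ≤ η := by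
  obtain ⟨F, hF⟩ := esc n S.e C hC (fun s i j hj => S.e_sum s i j hj) (fun k => 1 ≤ q k)
    (fun k hk s i j j' hj hs => S.e_up k hk s i j j' hj hs)
    (fun k hk s i j j' hj hs => S.e_down hq k (not_le.1 hk).le s i j j' hj hs) η hη
  refine ⟨F, fun J => ?_⟩
  obtain ⟨s, L, h1, h2, h3, h4⟩ := hF J
  exact ⟨fun r => s r, fun r => L r, fun r => h1 _, fun r => h2 _,
    fun r r' hr => h3 _ _ (fun h => hr (Fin.ext h)), fun r i j hj => h4 r i j hj⟩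

end Sys

end HLP
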