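import Pool.Agent.HLP.Sys

/-!
# Tools for the two main estimates
-/

set_option autoImplicit false

open MeasureTheory
open scoped ENNReal

namespace HLP

open DLP (rho)

universe w

theorem pigeon (d : ℕ → ℝ≥0∞) (J : ℕ) (hJ : 1 ≤ J) (B : ℝ≥0∞)
    (h : ∑ m ∈ Finset.range J, d m ≤ B) : ∃ m < J, d m ≤ B / J := by
  by_contra hcon
  push Not at hcon
  have h2 : ∑ _m ∈ Finset.range J, B / J < ∑ m ∈ Finset.range J, d m :=
    ENNReal.sum_lt_sum_of_nonempty (by simp; omega) fun m hm => hcon m (Finset.mem_range.1 hm)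
  have h3 : ∑ _m ∈ Finset.range J, B / (J : ℝ≥0∞) = B := by
    rw [Finset.sum_const, Finset.card_range, nsmul_eq_mul, ENNReal.mul_div_cancel]
    · have : J ≠ 0 := by omega
      exact_mod_cast this
    · simp
  rw [h3] at h2
  exact absurd h (not_le.2 h2)

theorem tele_down (E : ℕ → ℝ≥0∞) (J : ℕ) (hE : ∀ m, m < J → E (m + 1) ≤ E m) :
    ∑ m ∈ Finset.range J, (E m - E (m + 1)) + E J ≤ E 0 := by
  induction J with
  | zero => simp
  | succ J ih =>
    rw [Finset.sum_range_succ, add_assoc, tsub_add_cancel_of_le (hE J (by omega))]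
    exact ih fun m hm => hE m (by omega)

theorem tele_up (E : ℕ → ℝ≥0∞) (J : ℕ) (hE : ∀ m, m < J → E m ≤ E (m + 1)) :
    ∑ m ∈ Finset.range J, (E (m + 1) - E m) + E 0 ≤ E J := by
  induction J with
  | zero => simp
  | succ J ih =>
    rw [Finset.sum_range_succ]
    calc _ = (∑ m ∈ Finset.range J, (E (m + 1) - E m) + E 0) + (E (J + 1) - E J) := by ring
      _ ≤ E J + (E (J + 1) - E J) := by gcongr; exact ih fun m hm => hE m (by omega)
      _ = E (J + 1) := add_tsub_cancel_of_le (hE J (by omega))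

theorem rho_block {Ω : Type*} [MeasurableSpace Ω] {μ : Measure Ω} {q : ℝ} (hq : 1 / 2 ≤ q)
    (hq1 : q ≤ 1) {n : ℕ} (hn : 1 ≤ n) (u : Fin n → Ω → ℝ≥0∞) (hu : ∀ r, Measurable (u r))
    (P : Fin n → Prop) [DecidablePred P] (hP : ∀ r r', P r → P r' → r = r') :
    rho q μ (fun t => ∑ r, u r t) ≤ ∑ r, (if P r then 2 else 2 * (n : ℝ≥0∞)) * rho q μ (u r) := by
  classical
  by_cases h : ∃ r, P r
  · obtain ⟨r0, hr0⟩ := h
    have e1 : (fun t => ∑ r, u r t) = fun t => u r0 t + ∑ r ∈ Finset.univ.erase r0, u r t := by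
      funext t
      exact (Finset.add_sum_erase Finset.univ (fun r => u r t) (Finset.mem_univ r0)).symm
    rw [e1]
    have h1 := rho_add_le (μ := μ) hq (hu r0).aemeasurable
      (v := fun t => ∑ r ∈ Finset.univ.erase r0, u r t)
      (Finset.aemeasurable_fun_sum _ fun r _ => (hu r).aemeasurable)
    refine h1.trans ?_
    have h2 := rho_quasi (μ := μ) hq hq1 (Finset.univ.erase r0) u fun r => (hu r).aemeasurable
    rw [← Finset.add_sum_erase _ _ (Finset.mem_univ r0), if_pos hr0, mul_add]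
    refine add_le_add le_rfl ?_
    calc 2 * rho q μ (fun t => ∑ r ∈ Finset.univ.erase r0, u r t)
        ≤ 2 * ((Finset.univ.erase r0).card * ∑ r ∈ Finset.univ.erase r0, rho q μ (u r)) := by
          gcongr
      _ ≤ 2 * ((n : ℝ≥0∞) * ∑ r ∈ Finset.univ.erase r0, rho q μ (u r)) := by
          gcongr
          have : (Finset.univ.erase r0).card ≤ n := by
            rw [Finset.card_erase_of_mem (Finset.mem_univ _), Finset.card_univ, Fintype.card_fin]
            omega
          exact_mod_cast this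
      _ = ∑ r ∈ Finset.univ.erase r0, 2 * (n : ℝ≥0∞) * rho q μ (u r) := by
          rw [← mul_assoc, Finset.mul_sum]
      _ ≤ _ := by
          refine Finset.sum_le_sum fun r hr => ?_
          rw [if_neg]
          intro hr'
          exact (Finset.mem_erase.1 hr).1 (hP r r0 hr' hr0)
  · push Not at h
    have h2 := rho_quasi (μ := μ) hq hq1 Finset.univ u fun r => (hu r).aemeasurable
    refine h2.trans ?_
    rw [Finset.card_univ, Fintype.card_fin, Finset.mul_sum]
    refine Finset.sum_le_sum fun r _ => ?_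
    rw [if_neg (h r)]
    gcongr
    calc (n : ℝ≥0∞) = 1 * n := (one_mul _).symm
      _ ≤ 2 * n := by gcongr; norm_num

/-- extension of a selection -/
def ext {N n : ℕ} [NeZero n] (σ : Fin N → Fin n) : ℕ → Fin n :=
  fun l => if h : l < N then σ ⟨l, h⟩ else 0

theorem ext_val {N n : ℕ} [NeZero n] (σ : Fin N → Fin n) (l : Fin N) : ext σ l = σ l := by
  unfold ext
  rw [dif_pos l.2]

theorem sum_fin_cells {E : Type*} [AddCommMonoid E] (j j' β : ℕ) (g : ℕ → E) :
    ∑ l : Fin (2 ^ j'), (if (l : ℕ) ∈ cells j j' β then g l else 0) = ∑ l ∈ cells j j' β, g l := by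
  rw [Fin.sum_univ_eq_sum_range (fun l => if l ∈ cells j j' β then g l else 0)]
  rw [← Finset.sum_filter]
  refine Finset.sum_congr ?_ fun _ _ => rfl
  ext l
  rw [Finset.mem_filter, Finset.mem_range]
  exact ⟨fun h => h.2, fun h => ⟨(mem_cells.1 h).1, h⟩⟩

section
variable {κ : Type*} [Fintype κ] [DecidableEq κ]

theorem avg_sum {A : Type*} (n : ℕ) (s : Finset A) (F : A → (κ → Fin n) → ℝ≥0∞) :
    ∑ a ∈ s, avg n (F a) = avg n fun σ => ∑ a ∈ s, F a σ := by
  simp_rw [avg_eq]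
  rw [Finset.sum_comm]
  refine Finset.sum_congr rfl fun σ _ => ?_
  rw [Finset.mul_sum]

theorem avg_tsum {A : Type*} (n : ℕ) (F : A → (κ → Fin n) → ℝ≥0∞) :
    ∑' a, avg n (F a) = avg n fun σ => ∑' a, F a σ := by
  simp_rw [avg_eq]
  rw [Summable.tsum_finsetSum fun _ _ => ENNReal.summable]
  refine Finset.sum_congr rfl fun σ _ => ?_
  rw [ENNReal.tsum_mul_left]

theorem avg_mul (n : ℕ) (c : ℝ≥0∞) (F : (κ → Fin n) → ℝ≥0∞) :
    avg n (fun σ => c * F σ) = c * avg n F := by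
  simp_rw [avg_eq]
  rw [Finset.mul_sum]
  exact Finset.sum_congr rfl fun σ _ => by ring

/-- average of a function of one coordinate -/
theorem avg_coord (n : ℕ) (hn : 1 ≤ n) (l : κ) (f : Fin n → ℝ≥0∞) :
    (avg n fun σ : κ → Fin n => f (σ l)) = (n : ℝ≥0∞)⁻¹ * ∑ i, f i := by
  have hn0 : (n : ℝ≥0∞) ≠ 0 := by
    have : n ≠ 0 := by omega
    exact_mod_cast this
  have h1 : ∑ σ : κ → Fin n, f (σ l) = (n : ℝ≥0∞) ^ (Fintype.card κ - 1) * ∑ i, f i := by
    have h2 : ∑ σ : κ → Fin n, ∏ m, (fun i m => if m = l then f i else 1) (σ m) m =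
        ∏ m, ∑ i, (fun i m => if m = l then f i else 1) i m := by
      rw [Finset.prod_univ_sum]
      simp only [Fintype.piFinset_univ]
    have h3 : ∀ σ : κ → Fin n, ∏ m, (fun i m => if m = l then f i else 1) (σ m) m = f (σ l) := by
      intro σ
      rw [Finset.prod_eq_single l]
      · simp
      · intro m _ hm
        simp [hm]
      · intro h
        exact absurd (Finset.mem_univ l) h
    simp only [h3] at h2
    rw [h2, ← Finset.mul_prod_erase _ _ (Finset.mem_univ l)]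
    simp only [if_true]
    rw [mul_comm]
    congr 1
    rw [Finset.prod_congr rfl (g := fun _ => (n : ℝ≥0∞)) (by
      intro m hm
      simp [(Finset.mem_erase.1 hm).1]), Finset.prod_const,
      Finset.card_erase_of_mem (Finset.mem_univ _), Finset.card_univ]
  unfold avg
  rw [h1]
  have hc : 1 ≤ Fintype.card κ := Fintype.card_pos_iff.2 ⟨l⟩
  obtain ⟨c, hc2⟩ : ∃ c, Fintype.card κ = c + 1 := ⟨Fintype.card κ - 1, by omega⟩
  rw [hc2, Nat.add_sub_cancel, pow_succ, ENNReal.div_eq_inv_mul, ENNReal.mul_inv (Or.inr (by simp))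
    (Or.inr hn0)]
  have hp0 : (n : ℝ≥0∞) ^ c ≠ 0 := pow_ne_zero _ hn0
  have hpt : (n : ℝ≥0∞) ^ c ≠ ∞ := by finiteness
  calc ((n : ℝ≥0∞) ^ c)⁻¹ * (n : ℝ≥0∞)⁻¹ * ((n : ℝ≥0∞) ^ c * ∑ i, f i)
      = (((n : ℝ≥0∞) ^ c)⁻¹ * (n : ℝ≥0∞) ^ c) * ((n : ℝ≥0∞)⁻¹ * ∑ i, f i) := by ring
    _ = _ := by rw [ENNReal.inv_mul_cancel hp0 hpt, one_mul]

end

end HLP
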