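import Pool.Agent.DLP.TAU
import Pool.Agent.DLP.RAD
import Pool.Agent.DLP.ORT
import Pool.Agent.HLP.Sys

/-!
# The dyadic tree on the unit interval
-/

set_option autoImplicit false

open MeasureTheory
open scoped ENNReal unitInterval

namespace HLP

/-- dyadic address of length `s` -/
def adr (τ : ℕ → I → Fin 2) : ℕ → I → ℕ
  | 0, _ => 0
  | s + 1, ω => 2 * adr τ s ω + (τ s ω).val

variable {τ : ℕ → I → Fin 2}

theorem adr_meas (hτ : ∀ m, Measurable (τ m)) (s : ℕ) : Measurable (adr τ s) := by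
  induction s with
  | zero => exact measurable_const
  | succ s ih =>
    have h1 : Measurable fun ω => (τ s ω).val := (measurable_of_finite (fun l : Fin 2 => l.val)).comp (hτ s)
    exact (ih.const_mul 2).add h1

theorem adr_lt (s : ℕ) (ω : I) : adr τ s ω < 2 ^ s := by
  induction s with
  | zero => simp [adr]
  | succ s ih =>
    have h1 := (τ s ω).isLt
    have h2 : adr τ (s + 1) ω = 2 * adr τ s ω + (τ s ω).val := rfl
    rw [h2, pow_succ]
    omega

theorem adr_div (j s : ℕ) (hj : j ≤ s) (ω : I) : adr τ s ω / 2 ^ (s - j) = adr τ j ω := by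
  induction s, hj using Nat.le_induction with
  | base => simp
  | succ s hs ih =>
    have h1 := (τ s ω).isLt
    have h2 : adr τ (s + 1) ω = 2 * adr τ s ω + (τ s ω).val := rfl
    rw [h2, Nat.sub_add_comm hs, pow_succ, mul_comm (2 ^ (s - j)) 2, ← Nat.div_div_eq_div_mul]
    have h3 : (2 * adr τ s ω + (τ s ω).val) / 2 = adr τ s ω := by omega
    rw [h3, ih]

theorem adr_int
    (hp : ∀ (J : Finset ℕ) (g : ℕ → Fin 2 → ℝ≥0∞),
      ∫⁻ ω, ∏ m ∈ J, g m (τ m ω) = ∏ m ∈ J, ((∑ l, g m l) / (2 : ℕ))) (s : ℕ) :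
    ∀ (l : ℕ), l < 2 ^ s → ∀ (J : Finset ℕ) (g : ℕ → Fin 2 → ℝ≥0∞), (∀ m ∈ J, s ≤ m) →
      ∫⁻ ω, (if adr τ s ω = l then 1 else 0) * ∏ m ∈ J, g m (τ m ω) =
        (2⁻¹ : ℝ≥0∞) ^ s * ∏ m ∈ J, ((∑ l, g m l) / (2 : ℕ)) := by
  classical
  induction s with
  | zero =>
    intro l hl J g hJ
    have hl0 : l = 0 := by simpa using hl
    subst hl0
    simp only [adr, if_true, one_mul, pow_zero]
    exact hp J g
  | succ s ih =>
    intro l hl J g hJ
    have hsJ : s ∉ J := fun h => by
      have := hJ s h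
      omega
    let i : Fin 2 := ⟨l % 2, Nat.mod_lt _ (by norm_num)⟩
    let g' : ℕ → Fin 2 → ℝ≥0∞ := fun m => if m = s then fun a => if a = i then 1 else 0 else g m
    have hl2 : l / 2 < 2 ^ s := by
      rw [pow_succ] at hl
      omega
    have h := ih (l / 2) hl2 (insert s J) g' (by
      intro m hm
      rcases Finset.mem_insert.1 hm with rfl | hm
      · exact le_rfl
      · have := hJ m hm
        omega)
    have hg' : ∀ m ∈ J, g' m = g m := by
      intro m hm
      have : m ≠ s := fun h => hsJ (h ▸ hm)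
      simp [g', this]
    have hgs : g' s = fun a => if a = i then 1 else 0 := by simp [g']
    have hL : ∀ ω, (if adr τ s ω = l / 2 then (1 : ℝ≥0∞) else 0) *
        ∏ m ∈ insert s J, g' m (τ m ω) =
          (if adr τ (s + 1) ω = l then 1 else 0) * ∏ m ∈ J, g m (τ m ω) := by
      intro ω
      rw [Finset.prod_insert hsJ, Finset.prod_congr rfl fun m hm => by rw [hg' m hm], ← mul_assoc]
      congr 1
      rw [hgs]
      have h2 : adr τ (s + 1) ω = 2 * adr τ s ω + (τ s ω).val := rfl
      have h1 := (τ s ω).isLt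
      by_cases h3 : adr τ (s + 1) ω = l
      · rw [if_pos h3, if_pos (by omega)]
        have : τ s ω = i := by
          apply Fin.ext
          show (τ s ω).val = l % 2
          omega
        simp [this]
      · rw [if_neg h3]
        by_cases h4 : adr τ s ω = l / 2
        · have : τ s ω ≠ i := by
            intro h5
            have h6 : (τ s ω).val = l % 2 := congrArg Fin.val h5
            apply h3
            omega
          simp [this]
        · rw [if_neg h4, zero_mul]
    have hR : ∏ m ∈ insert s J, ((∑ l, g' m l) / ((2 : ℕ) : ℝ≥0∞)) =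
        2⁻¹ * ∏ m ∈ J, ((∑ l, g m l) / (2 : ℕ)) := by
      rw [Finset.prod_insert hsJ, Finset.prod_congr rfl fun m hm => by rw [hg' m hm], hgs]
      congr 1
      simp
    rw [lintegral_congr hL, hR] at h
    rw [h, pow_succ]
    ring

theorem adr_vol (hτ : ∀ m, Measurable (τ m))
    (hp : ∀ (J : Finset ℕ) (g : ℕ → Fin 2 → ℝ≥0∞),
      ∫⁻ ω, ∏ m ∈ J, g m (τ m ω) = ∏ m ∈ J, ((∑ l, g m l) / (2 : ℕ))) (s l : ℕ)
    (hl : l < 2 ^ s) (c : ℝ≥0∞) :
    ∫⁻ ω, (if adr τ s ω = l then c else 0) = (2⁻¹ : ℝ≥0∞) ^ s * c := by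
  have h := adr_int hp s l hl ∅ (fun _ _ => 0) (by simp)
  simp only [Finset.prod_empty, mul_one] at h
  rw [← h, ← lintegral_mul_const]
  · refine lintegral_congr fun ω => ?_
    split_ifs <;> simp
  · exact Measurable.ite (adr_meas hτ s (measurableSet_singleton l)) measurable_const
      measurable_const

end HLP
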