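import Pool.Agent.HLP.Energy
import Pool.Agent.HLP.CotDir
import Pool.Agent.DLP.COB

/-!
# Rademacher type 2 and cotype 2
-/

set_option autoImplicit false

open MeasureTheory
open scoped ENNReal unitInterval

namespace HLP

open DLP (rho sqf qf rsum rad)

universe u v w

section
variable {𝕜 : Type v} [RCLike 𝕜] {ι : Type} {Ω : ι → Type w} [∀ i, MeasurableSpace (Ω i)]
  {p : ι → ℝ≥0∞} {μ : ∀ i, Measure (Ω i)} [∀ i, Fact (1 ≤ p i)]
  {X : Type u} [NormedAddCommGroup X] [NormedSpace 𝕜 X]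

/-- unit vectors -/
theorem unit_case (P : ℝ) (hpP : ∀ k, p k ≤ ENNReal.ofReal P)
    (T : DiestelL2.L2V X →L[𝕜] lp (fun i => Lp 𝕜 (p i) (μ i)) 2) (C₀ : ℝ≥0∞) (hC1 : 1 ≤ C₀)
    (hC : C₀ ≠ ∞) (hTC : RadQ T C₀) :
    ∃ K : ℝ≥0∞, K ≠ ∞ ∧ ∀ (A : Type) [Fintype A] [DecidableEq A] (x : A → X),
      (∀ a, ‖x a‖ = 1) → ENNReal.ofReal (rad x) ≤ K * Fintype.card A ∧
        Fintype.card A ≤ K * ENNReal.ofReal (rad x) := by
  obtain ⟨τ, hτ, hp⟩ := DLP.tau 2 (by norm_num)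
  have hpt : ∀ k, p k ≠ ∞ := fun k => ne_top_of_le_ne_top ENNReal.ofReal_ne_top (hpP k)
  have hq : ∀ k, 1 / 2 ≤ (p k).toReal / 2 := by
    intro k
    have h4 : (1 : ℝ≥0∞) ≤ p k := Fact.out
    have h5 := ENNReal.toReal_mono (hpt k) h4
    rw [ENNReal.toReal_one] at h5
    linarith
  have hR : ∀ k, (p k).toReal / 2 ≤ (max P 0) / 2 := by
    intro k
    have := ENNReal.toReal_le_of_le_ofReal (le_max_right P 0)
      ((hpP k).trans (ENNReal.ofReal_le_ofReal (le_max_left P 0)))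
    linarith
  have hC3 : 1 ≤ C₀ ^ 3 := one_le_pow₀ hC1
  have hC3t : C₀ ^ 3 ≠ ∞ := ENNReal.pow_ne_top hC
  set R := (max P 0) / 2 with hRdef
  set K1 : ℝ≥0∞ := 140 * (C₀ ^ 3) ^ 2 with hK1
  set K2 : ℝ≥0∞ := 2 * C₀ ^ 3 * (2 * C₀ ^ 3 + cR.{w} R * C₀ ^ 3 + 2) with hK2
  have hK1t : K1 ≠ ∞ := ENNReal.mul_ne_top (by simp) (ENNReal.pow_ne_top hC3t)
  have hK2t : K2 ≠ ∞ := by
    have := cR_ne_top.{w} R
    rw [hK2]
    finiteness
  have key : ∀ (n : ℕ) (x : Fin n → X), (∀ a, ‖x a‖ = 1) →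
      ENNReal.ofReal (rad x) ≤ max K1 K2 * n ∧ n ≤ max K1 K2 * ENNReal.ofReal (rad x) := by
    intro n x hx
    rcases Nat.eq_zero_or_pos n with rfl | hn
    · have : x = fun _ => 0 := by
        funext a
        exact a.elim0
      rw [this, rad_zero]
      simp
    have : NeZero n := ⟨hn.ne'⟩
    obtain ⟨S⟩ := sys hτ T hpt x hx hC1 hTC hp
    have h1 := S.typ hq hC3 hC3t ENNReal.ofReal_ne_top
    have h2 := S.cotyp hq R hR hC3 hC3t ENNReal.ofReal_ne_top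
    refine ⟨h1.trans ?_, h2.trans ?_⟩
    · gcongr
      exact le_max_left _ _
    · gcongr
      exact le_max_right _ _
  refine ⟨max K1 K2, ?_, ?_⟩
  · rcases max_choice K1 K2 with h | h <;> rw [h] <;> assumption
  intro A _ _ x hx
  have h := key (Fintype.card A) (fun b => x ((Fintype.equivFin A).symm b)) fun b => hx _
  rw [rad_reindex x (Fintype.equivFin A).symm] at h
  exact h

/-- weighted square function -/
noncomputable def VV (T : X →L[𝕜] lp (fun i => Lp 𝕜 (p i) (μ i)) 2) {N : ℕ} (y : Fin N → X)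
    (l : Fin N → ℝ≥0∞) : ℝ≥0∞ :=
  ∑' k, rho ((p k).toReal / 2) (μ k) (fun t => ∑ i, l i * ‖T (y i) k t‖ₑ ^ 2)

theorem VV_mono (hq : ∀ k, 0 < (p k).toReal / 2) (T : X →L[𝕜] lp (fun i => Lp 𝕜 (p i) (μ i)) 2)
    {N : ℕ} (y : Fin N → X) (l l' : Fin N → ℝ≥0∞) (h : ∀ i, l i ≤ l' i) :
    VV T y l ≤ VV T y l' := by
  unfold VV
  refine ENNReal.tsum_le_tsum fun k => rho_mono (hq k) fun t => ?_
  refine Finset.sum_le_sum fun i _ => ?_
  gcongr
  exact h i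

theorem VV_mul (hq : ∀ k, 0 < (p k).toReal / 2) (T : X →L[𝕜] lp (fun i => Lp 𝕜 (p i) (μ i)) 2)
    {N : ℕ} (y : Fin N → X) (l : Fin N → ℝ≥0∞) (c : ℝ≥0∞) (hc : c ≠ ∞) :
    VV T y (fun i => c * l i) = c * VV T y l := by
  unfold VV
  rw [← ENNReal.tsum_mul_left]
  refine tsum_congr fun k => ?_
  rw [← rho_mul (hq k) c hc]
  congr 1
  funext t
  rw [Finset.mul_sum]
  exact Finset.sum_congr rfl fun i _ => by ring

theorem VV_nat (T : X →L[𝕜] lp (fun i => Lp 𝕜 (p i) (μ i)) 2) {N : ℕ} (y : Fin N → X)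
    (m : Fin N → ℕ) :
    VV T y (fun i => (m i : ℝ≥0∞)) = qf (fun a : (Σ i : Fin N, Fin (m i)) => T (y a.1)) := by
  unfold VV qf
  refine tsum_congr fun k => ?_
  congr 1
  funext t
  unfold sqf
  rw [Fintype.sum_sigma]
  refine Finset.sum_congr rfl fun i _ => ?_
  simp

theorem VV_real (T : X →L[𝕜] lp (fun i => Lp 𝕜 (p i) (μ i)) 2) {N : ℕ} (y : Fin N → X)
    (r : Fin N → ℝ) :
    VV T y (fun i => ENNReal.ofReal (r i ^ 2)) = qf (fun i => T (((r i : ℝ) : 𝕜) • y i)) := by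
  unfold VV qf
  refine tsum_congr fun k => ?_
  have h1 : ∀ᵐ t ∂(μ k), ∀ i : Fin N, ‖T (((r i : ℝ) : 𝕜) • y i) k t‖ₑ ^ 2 =
      ENNReal.ofReal (r i ^ 2) * ‖T (y i) k t‖ₑ ^ 2 := by
    rw [ae_all_iff]
    intro i
    have e1 : T (((r i : ℝ) : 𝕜) • y i) k = ((r i : ℝ) : 𝕜) • (T (y i) k) := by
      rw [map_smul]
      rfl
    rw [e1]
    filter_upwards [Lp.coeFn_smul ((r i : ℝ) : 𝕜) (T (y i) k)] with t ht
    rw [ht, Pi.smul_apply, enorm_smul, mul_pow]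
    congr 1
    rw [← ofReal_norm, RCLike.norm_ofReal, ← ENNReal.ofReal_pow (abs_nonneg _), sq_abs]
  unfold rho
  congr 1
  refine lintegral_congr_ae ?_
  filter_upwards [h1] with t ht
  unfold sqf
  rw [Finset.sum_congr rfl fun i _ => ht i]

end

end HLP
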